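import Pool.Agent.H10.Inj.Inf

/-!
# Stub AMA: amalgamated products over an infinite cyclic group, from the relative theorem
-/

set_option autoImplicit false

namespace Pool.Agent.H10.Inj

/-- local indicability passes to groups which embed -/
theorem LocInd.of_injective {G H : Type} [Group G] [Group H] (f : G →* H)
    (hf : Function.Injective f) (hH : LocInd H) : LocInd G := by
  intro K hK hne
  have h1 : (K.map f).FG := by
    classical
    obtain ⟨S, hS⟩ := hK
    refine ⟨S.image f, ?_⟩
    rw [Finset.coe_image, ← MonoidHom.map_closure, hS]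
  have h2 : K.map f ≠ ⊥ := by
    intro h
    exact hne ((Subgroup.map_eq_bot_iff_of_injective K hf).1 h)
  obtain ⟨ψ, hψ⟩ := hH (K.map f) h1 h2
  refine ⟨ψ.comp (K.equivMapOfInjective f hf).toMonoidHom, ?_⟩
  exact hψ.comp (K.equivMapOfInjective f hf).surjective

namespace Ama

open Inf

variable {V E : Type}

/-- the graph in which the edge `e₀` gets a new vertex as label -/
noncomputable def ext (L : LOG V E) (e₀ : E) : LOG (Option V) E := by
  classical
  exact
  { ini := fun e => some (L.ini e)
    ter := fun e => some (L.ter e)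
    lab := fun e => if e = e₀ then none else some (L.lab e) }

theorem ext_ini (L : LOG V E) (e₀ e : E) : (ext L e₀).ini e = some (L.ini e) := rfl
theorem ext_ter (L : LOG V E) (e₀ e : E) : (ext L e₀).ter e = some (L.ter e) := rfl
theorem ext_lab (L : LOG V E) (e₀ : E) : (ext L e₀).lab e₀ = none := by
  simp [ext]
theorem ext_lab' (L : LOG V E) (e₀ e : E) (h : e ≠ e₀) : (ext L e₀).lab e = some (L.lab e) := by
  simp [ext, h]

theorem signed (L : LOG V E) (bl : V → Bool) (e₀ : E)
    (hin : ∀ e, e ≠ e₀ → Inner L bl e) :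
    Signed (ext L e₀) (Option.map bl) (fun _ => true) := by
  classical
  have hI : ∀ e, e ≠ e₀ → Inner (ext L e₀) (Option.map bl) e := by
    intro e he
    obtain ⟨h1, h2⟩ := hin e he
    refine ⟨?_, ?_⟩
    · rw [ext_ini, ext_lab' L e₀ e he, Option.map_some, Option.map_some, h1]
    · rw [ext_ter, ext_lab' L e₀ e he, Option.map_some, Option.map_some, h2]
  refine ⟨?_, ?_⟩
  · intro e
    by_cases he : e = e₀
    · subst he
      right
      refine ⟨?_, ?_⟩
      · rw [ext_ini, ext_lab]
        simp
      · rw [ext_ter, ext_lab]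
        simp
    · left
      exact hI e he
  · intro b B D hB hD
    have hD' : D ⊆ {e₀} := by
      intro e he
      rw [Finset.mem_singleton]
      by_contra hne
      exact (hD e he).1.1 (hI e hne).1
    rcases Finset.subset_singleton_iff.1 hD' with h | h
    · subst h
      simpa using hB
    · subst h
      obtain ⟨-, h1, h2⟩ := hD e₀ (Finset.mem_singleton_self _)
      rw [ext_lab] at h1
      have h3 : ∃ i : Bool, some i ∈ B := by
        split_ifs at h2
        · exact ⟨bl (L.ini e₀), by simpa [ext_ini] using h2⟩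
        · exact ⟨bl (L.ter e₀), by simpa [ext_ter] using h2⟩
      obtain ⟨i, hi⟩ := h3
      have h4 : ({none, some i} : Finset (Option Bool)) ⊆ B := by
        intro x hx
        rcases Finset.mem_insert.1 hx with rfl | hx
        · simpa using h1
        · rw [Finset.mem_singleton] at hx
          rw [hx]
          exact hi
      have h5 := Finset.card_le_card h4
      rw [Finset.card_pair (by simp)] at h5
      simpa using h5

theorem blk_none (hone : S_ONE) (L : LOG V E) (bl : V → Bool) (e₀ : E) :
    LocInd ((ext L e₀).blk (Option.map bl) none).G := by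
  apply hone
  · refine ⟨?_⟩
    rintro ⟨x, hx⟩ ⟨y, hy⟩
    apply Subtype.ext
    rw [Option.map_eq_none_iff] at hx hy
    simp [hx, hy]
  · refine ⟨?_⟩
    rintro ⟨e, he, -⟩
    rw [ext_ini] at he
    simp at he

theorem blk_some (L : LOG V E) (bl : V → Bool) (e₀ : E) (i : Bool)
    (he₀ : bl (L.ini e₀) ≠ bl (L.ter e₀)) (h : LocInd (L.blk bl i).G) :
    LocInd ((ext L e₀).blk (Option.map bl) (some i)).G := by
  classical
  -- the unique preimage of a vertex
  have hv : ∀ x : {v : Option V // Option.map bl v = some i},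
      ∃ v : {v : V // bl v = i}, x.1 = some v.1 := by
    rintro ⟨x, hx⟩
    obtain ⟨v, rfl, hv⟩ := Option.map_eq_some_iff.1 hx
    exact ⟨⟨v, hv⟩, rfl⟩
  choose g hg using hv
  have hg' : ∀ (v : V) (hv : Option.map bl (some v) = some i),
      g ⟨some v, hv⟩ = ⟨v, by simpa using hv⟩ := by
    intro v hv
    apply Subtype.ext
    have := hg ⟨some v, hv⟩
    simpa using this.symm
  have he : ∀ e, Option.map bl ((ext L e₀).lab e) = some i → e ≠ e₀ := by
    rintro e h1 rfl
    rw [ext_lab] at h1
    simp at h1
  let f1 : ((ext L e₀).blk (Option.map bl) (some i)).G →* (L.blk bl i).G :=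
    hom _ (fun x => (L.blk bl i).gen (g x)) (by
      rintro ⟨e, h1, h2, h3⟩
      have hne := he e h3
      have h3' := h3
      rw [ext_lab' L e₀ e hne] at h3'
      have a1 : bl (L.ini e) = i := by simpa [ext_ini] using h1
      have a2 : bl (L.ter e) = i := by simpa [ext_ter] using h2
      have a3 : bl (L.lab e) = i := by simpa using h3'
      have b1 : g (((ext L e₀).blk (Option.map bl) (some i)).ini ⟨e, h1, h2, h3⟩)
          = (L.blk bl i).ini ⟨e, a1, a2, a3⟩ := by
        apply Subtype.ext
        have := hg (((ext L e₀).blk (Option.map bl) (some i)).ini ⟨e, h1, h2, h3⟩)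
        exact (Option.some_injective _ this).symm
      have b2 : g (((ext L e₀).blk (Option.map bl) (some i)).ter ⟨e, h1, h2, h3⟩)
          = (L.blk bl i).ter ⟨e, a1, a2, a3⟩ := by
        apply Subtype.ext
        have := hg (((ext L e₀).blk (Option.map bl) (some i)).ter ⟨e, h1, h2, h3⟩)
        exact (Option.some_injective _ this).symm
      have b3 : g (((ext L e₀).blk (Option.map bl) (some i)).lab ⟨e, h1, h2, h3⟩)
          = (L.blk bl i).lab ⟨e, a1, a2, a3⟩ := by
        apply Subtype.ext
        have := hg (((ext L e₀).blk (Option.map bl) (some i)).lab ⟨e, h1, h2, h3⟩)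
        have h4 : (((ext L e₀).blk (Option.map bl) (some i)).lab ⟨e, h1, h2, h3⟩).1
            = some (L.lab e) := ext_lab' L e₀ e hne
        rw [h4] at this
        exact (Option.some_injective _ this).symm
      simp only [b1, b2, b3]
      exact gen_rel _ _)
  refine LocInd.of_injective f1 ?_ h
  let f2 : (L.blk bl i).G →* ((ext L e₀).blk (Option.map bl) (some i)).G :=
    hom _ (fun v => ((ext L e₀).blk (Option.map bl) (some i)).gen ⟨some v.1, by simp [v.2]⟩) (by
      rintro ⟨e, h1, h2, h3⟩
      have hne : e ≠ e₀ := by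
        rintro rfl
        exact he₀ (h1.trans h2.symm)
      have c1 : Option.map bl ((ext L e₀).ini e) = some i := by
        rw [ext_ini, Option.map_some, h1]
      have c2 : Option.map bl ((ext L e₀).ter e) = some i := by
        rw [ext_ter, Option.map_some, h2]
      have c3 : Option.map bl ((ext L e₀).lab e) = some i := by
        rw [ext_lab' L e₀ e hne, Option.map_some, h3]
      have key := gen_rel ((ext L e₀).blk (Option.map bl) (some i)) ⟨e, c1, c2, c3⟩
      have d3 : ((ext L e₀).blk (Option.map bl) (some i)).lab ⟨e, c1, c2, c3⟩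
          = ⟨some (L.lab e), by simp [h3]⟩ := by
        apply Subtype.ext
        exact ext_lab' L e₀ e hne
      rw [d3] at key
      exact key)
  have hcomp : f2.comp f1 = MonoidHom.id _ := by
    apply PresentedGroup.ext
    rintro ⟨x, hx⟩
    have e1 : f1 (((ext L e₀).blk (Option.map bl) (some i)).gen ⟨x, hx⟩)
        = (L.blk bl i).gen (g ⟨x, hx⟩) := hom_gen _ _ _ _
    have e2 : f2 ((L.blk bl i).gen (g ⟨x, hx⟩))
        = ((ext L e₀).blk (Option.map bl) (some i)).gen ⟨some (g ⟨x, hx⟩).1, by
            simp [(g ⟨x, hx⟩).2]⟩ := hom_gen _ _ _ _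
    have e3 : (⟨some (g ⟨x, hx⟩).1, by simp [(g ⟨x, hx⟩).2]⟩ :
        {v : Option V // Option.map bl v = some i}) = ⟨x, hx⟩ := by
      apply Subtype.ext
      exact (hg ⟨x, hx⟩).symm
    change f2 (f1 (((ext L e₀).blk (Option.map bl) (some i)).gen ⟨x, hx⟩)) = _
    rw [e1, e2, e3]
    rfl
  intro a b hab
  have := congrArg f2 hab
  change (f2.comp f1) a = (f2.comp f1) b at this
  rw [hcomp] at this
  exact this

/-- the homomorphism back: the new vertex goes to the label of `e₀` -/
noncomputable def back (L : LOG V E) (e₀ : E) : (ext L e₀).G →* L.G :=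
  hom _ (fun x => match x with
    | none => L.gen (L.lab e₀)
    | some v => L.gen v) (by
    intro e
    by_cases he : e = e₀
    · subst he
      rw [ext_lab, ext_ini, ext_ter]
      exact gen_rel L e
    · rw [ext_lab' L e₀ e he, ext_ini, ext_ter]
      exact gen_rel L e)

theorem back_none (L : LOG V E) (e₀ : E) : back L e₀ ((ext L e₀).gen none) = L.gen (L.lab e₀) :=
  hom_gen _ _ _ _

theorem back_some (L : LOG V E) (e₀ : E) (v : V) :
    back L e₀ ((ext L e₀).gen (some v)) = L.gen v :=
  hom_gen _ _ _ _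

/-- the relation of an edge different from `e₀` in the extended graph -/
theorem rel' (L : LOG V E) (e₀ e : E) (he : e ≠ e₀) :
    (ext L e₀).gen (some (L.ini e)) * (ext L e₀).gen (some (L.lab e)) =
      (ext L e₀).gen (some (L.lab e)) * (ext L e₀).gen (some (L.ter e)) := by
  have := gen_rel (ext L e₀) e
  rwa [ext_lab' L e₀ e he, ext_ini, ext_ter] at this

theorem rel0 (L : LOG V E) (e₀ : E) :
    (ext L e₀).gen (some (L.ini e₀)) * (ext L e₀).gen none =
      (ext L e₀).gen none * (ext L e₀).gen (some (L.ter e₀)) := by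
  have := gen_rel (ext L e₀) e₀
  rwa [ext_lab, ext_ini, ext_ter] at this

/-- conjugation by an element which depends on the block -/
theorem embed (L : LOG V E) (bl : V → Bool) (e₀ : E)
    (hin : ∀ e, e ≠ e₀ → Inner L bl e) (w : Bool → (ext L e₀).G)
    (hw : ∀ i, back L e₀ (w i) = 1)
    (h0 : (w (bl (L.ini e₀)) * (ext L e₀).gen (some (L.ini e₀)) * (w (bl (L.ini e₀)))⁻¹) *
        (w (bl (L.lab e₀)) * (ext L e₀).gen (some (L.lab e₀)) * (w (bl (L.lab e₀)))⁻¹) =
      (w (bl (L.lab e₀)) * (ext L e₀).gen (some (L.lab e₀)) * (w (bl (L.lab e₀)))⁻¹) *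
        (w (bl (L.ter e₀)) * (ext L e₀).gen (some (L.ter e₀)) * (w (bl (L.ter e₀)))⁻¹)) :
    ∃ F : L.G →* (ext L e₀).G, Function.Injective F ∧
      ∀ v, F (L.gen v) = w (bl v) * (ext L e₀).gen (some v) * (w (bl v))⁻¹ := by
  let F : L.G →* (ext L e₀).G :=
    hom L (fun v => w (bl v) * (ext L e₀).gen (some v) * (w (bl v))⁻¹) (by
      intro e
      by_cases he : e = e₀
      · subst he
        exact h0
      · obtain ⟨h1, h2⟩ := hin e he
        have h3 := rel' L e₀ e he
        rw [h1, h2]
        calc w (bl (L.lab e)) * (ext L e₀).gen (some (L.ini e)) * (w (bl (L.lab e)))⁻¹ *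
              (w (bl (L.lab e)) * (ext L e₀).gen (some (L.lab e)) * (w (bl (L.lab e)))⁻¹)
            = w (bl (L.lab e)) * ((ext L e₀).gen (some (L.ini e)) *
                (ext L e₀).gen (some (L.lab e))) * (w (bl (L.lab e)))⁻¹ := by group
          _ = w (bl (L.lab e)) * ((ext L e₀).gen (some (L.lab e)) *
                (ext L e₀).gen (some (L.ter e))) * (w (bl (L.lab e)))⁻¹ := by rw [h3]
          _ = _ := by group)
  refine ⟨F, ?_, fun v => hom_gen _ _ _ _⟩
  have hcomp : (back L e₀).comp F = MonoidHom.id _ := by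
    apply PresentedGroup.ext
    intro v
    have e1 : F (L.gen v) = w (bl v) * (ext L e₀).gen (some v) * (w (bl v))⁻¹ := hom_gen _ _ _ _
    change back L e₀ (F (L.gen v)) = _
    rw [e1, map_mul, map_mul, map_inv, hw, back_some]
    simp
    rfl
  intro a b hab
  have := congrArg (back L e₀) hab
  change ((back L e₀).comp F) a = ((back L e₀).comp F) b at this
  rw [hcomp] at this
  exact this

/-- the group of `L` embeds into the group of the extended graph, by conjugations on the blocks -/
theorem exists_conj (L : LOG V E) (bl : V → Bool) (e₀ : E) (he₀ : bl (L.ini e₀) ≠ bl (L.ter e₀))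
    (hin : ∀ e, e ≠ e₀ → Inner L bl e) :
    ∃ (w : Bool → (ext L e₀).G) (F : L.G →* (ext L e₀).G), Function.Injective F ∧
      ∀ v, F (L.gen v) = w (bl v) * (ext L e₀).gen (some v) * (w (bl v))⁻¹ := by
  have hr := rel0 L e₀
  by_cases hk : bl (L.lab e₀) = bl (L.ini e₀)
  · -- the label lies in the block of the initial vertex
    obtain ⟨w, hw⟩ : ∃ w : Bool → (ext L e₀).G, ∀ i, w i = if i = bl (L.ini e₀) then
      ((ext L e₀).gen none)⁻¹ * (ext L e₀).gen (some (L.lab e₀)) else 1 := ⟨_, fun i => rfl⟩
    refine ⟨w, embed L bl e₀ hin w ?_ ?_⟩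
    · intro i
      rw [hw]
      split_ifs
      · rw [map_mul, map_inv, back_none, back_some]
        simp
      · exact map_one _
    · rw [hw, hw, hw, if_pos rfl, if_pos hk, if_neg (fun h => he₀ h.symm)]
      set z := (ext L e₀).gen none
      set c := (ext L e₀).gen (some (L.ini e₀))
      set k := (ext L e₀).gen (some (L.lab e₀))
      set d := (ext L e₀).gen (some (L.ter e₀))
      calc z⁻¹ * k * c * (z⁻¹ * k)⁻¹ * (z⁻¹ * k * k * (z⁻¹ * k)⁻¹)
          = z⁻¹ * k * (c * z) := by group
        _ = z⁻¹ * k * (z * d) := by rw [hr]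
        _ = z⁻¹ * k * k * (z⁻¹ * k)⁻¹ * (1 * d * 1⁻¹) := by group
  · -- the label lies in the block of the terminal vertex
    have hk' : bl (L.lab e₀) = bl (L.ter e₀) := by
      revert hk he₀
      cases bl (L.lab e₀) <;> cases bl (L.ini e₀) <;> cases bl (L.ter e₀) <;> simp
    obtain ⟨w, hw⟩ : ∃ w : Bool → (ext L e₀).G, ∀ i, w i = if i = bl (L.ter e₀) then
      (ext L e₀).gen none * ((ext L e₀).gen (some (L.lab e₀)))⁻¹ else 1 := ⟨_, fun i => rfl⟩
    refine ⟨w, embed L bl e₀ hin w ?_ ?_⟩
    · intro i
      rw [hw]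
      split_ifs
      · rw [map_mul, map_inv, back_none, back_some]
        simp
      · exact map_one _
    · rw [hw, hw, hw, if_pos rfl, if_pos hk', if_neg he₀]
      set z := (ext L e₀).gen none
      set c := (ext L e₀).gen (some (L.ini e₀))
      set k := (ext L e₀).gen (some (L.lab e₀))
      set d := (ext L e₀).gen (some (L.ter e₀))
      calc 1 * c * 1⁻¹ * (z * k⁻¹ * k * (z * k⁻¹)⁻¹)
          = (c * z) * k * z⁻¹ := by group
        _ = (z * d) * k * z⁻¹ := by rw [hr]
        _ = z * k⁻¹ * k * (z * k⁻¹)⁻¹ * (z * k⁻¹ * d * (z * k⁻¹)⁻¹) := by group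

theorem main : S_ONE → S_REL → S_AMA := by
  intro hone hrel V E L bl e₀ he₀ hin hblk
  have h1 : LocInd (ext L e₀).G := by
    apply hrel _ _ _ (ext L e₀) (Option.map bl) (fun _ => true) (signed L bl e₀ hin)
    intro i
    cases i with
    | none => exact blk_none hone L bl e₀
    | some i => exact blk_some L bl e₀ i he₀ (hblk i)
  obtain ⟨w, F, hF, -⟩ := exists_conj L bl e₀ he₀ hin
  exact LocInd.of_injective F hF h1

end Ama

end Pool.Agent.H10.Inj
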