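import Pool.Agent.H10.Inj.Def

/-!
# Stub ARB: two disjoint branchings (Edmonds, proof of Lovász)
-/

set_option autoImplicit false

namespace Pool.Agent.H10.Inj.Arb

open Finset

variable {V : Type} [Fintype V] [DecidableEq V]

/-- the head of the arc `c` which starts at `k` -/
def hd (a b : V → V) (k : V) (c : Bool) : V := if c = true then a k else b k

/-- the arcs which are left and which leave `U` -/
def lv (a b : V → V) (T : Finset V) (σ : V → Bool) (U : Finset V) : Finset (V × Bool) :=
  univ.filter fun x => (x.1 ∉ T ∨ x.2 ≠ σ x.1) ∧ x.1 ∈ U ∧ hd a b x.1 x.2 ∉ U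

lemma mem_lv {a b : V → V} {T : Finset V} {σ : V → Bool} {U : Finset V} {x : V × Bool} :
    x ∈ lv a b T σ U ↔ (x.1 ∉ T ∨ x.2 ≠ σ x.1) ∧ x.1 ∈ U ∧ hd a b x.1 x.2 ∉ U := by
  rw [lv, mem_filter]; simp

lemma submod (a b : V → V) (T : Finset V) (σ : V → Bool) (A U : Finset V) :
    (lv a b T σ (A ∩ U)).card + (lv a b T σ (A ∪ U)).card ≤
      (lv a b T σ A).card + (lv a b T σ U).card := by
  simp only [lv, card_filter]
  rw [← sum_add_distrib, ← sum_add_distrib]
  refine sum_le_sum fun x _ => ?_
  simp only [mem_inter, mem_union]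
  by_cases h1 : x.1 ∈ A <;> by_cases h2 : x.1 ∈ U <;> by_cases h3 : hd a b x.1 x.2 ∈ A <;>
    by_cases h4 : hd a b x.1 x.2 ∈ U <;> by_cases h5 : (x.1 ∉ T ∨ x.2 ≠ σ x.1) <;>
    simp [h1, h2, h3, h4, h5]

/-- the condition on the cuts -/
lemma two_le (a b : V → V) {U : Finset V}
    (h : (U.filter fun k => a k ∈ U).card + (U.filter fun k => b k ∈ U).card + 2 ≤ 2 * U.card) :
    2 ≤ ((univ : Finset (V × Bool)).filter fun x => x.1 ∈ U ∧ hd a b x.1 x.2 ∉ U).card := by
  have h1 : ((univ : Finset (V × Bool)).filter fun x => x.1 ∈ U ∧ hd a b x.1 x.2 ∉ U).card =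
      (U.filter fun k => a k ∉ U).card + (U.filter fun k => b k ∉ U).card := by
    have e1 : (U.filter fun k => a k ∉ U).card = ∑ k, if k ∈ U ∧ a k ∉ U then 1 else 0 := by
      rw [← card_filter]
      congr 1
      ext k
      simp [mem_filter]
    have e2 : (U.filter fun k => b k ∉ U).card = ∑ k, if k ∈ U ∧ b k ∉ U then 1 else 0 := by
      rw [← card_filter]
      congr 1
      ext k
      simp [mem_filter]
    rw [card_filter, Fintype.sum_prod_type, e1, e2, ← sum_add_distrib]
    refine sum_congr rfl fun k _ => ?_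
    rw [Fintype.sum_bool]
    simp [hd]
  have h2 := card_filter_add_card_filter_not (s := U) (fun k => a k ∈ U)
  have h3 := card_filter_add_card_filter_not (s := U) (fun k => b k ∈ U)
  omega

/-- the invariant of the construction -/
structure Good (K : Finset V) (a b : V → V) (T : Finset V) (σ : V → Bool) : Prop where
  sub : T ⊆ K
  cl : ∀ k ∈ T, hd a b k (σ k) ∈ K → hd a b k (σ k) ∈ T
  one : ∀ U : Finset V, U ⊆ T → U.Nonempty → ∃ k ∈ U, hd a b k (σ k) ∉ U
  two : ∀ U : Finset V, U ⊆ K → U.Nonempty → 1 ≤ (lv a b T σ U).card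

lemma good_insert {K : Finset V} {a b : V → V} {T : Finset V} {σ : V → Bool}
    (hG : Good K a b T σ) {k : V} (hk : k ∈ K) (hkT : k ∉ T) (c : Bool)
    (hh : hd a b k c ∈ K → hd a b k c ∈ T)
    (h2 : ∀ U : Finset V, U ⊆ K → k ∈ U → hd a b k c ∉ U → 2 ≤ (lv a b T σ U).card) :
    Good K a b (insert k T) (Function.update σ k c) := by
  have hup : ∀ k' ∈ T, Function.update σ k c k' = σ k' := by
    intro k' hk'
    have hne : k' ≠ k := by
      rintro rfl
      exact hkT hk'
    exact Function.update_of_ne hne _ _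
  have hkh : hd a b k c ≠ k := by
    intro e
    rw [e] at hh
    exact hkT (hh hk)
  refine ⟨insert_subset hk hG.sub, ?_, ?_, ?_⟩
  · intro k' hk' h
    rcases mem_insert.1 hk' with rfl | hk''
    · rw [Function.update_self] at h ⊢
      exact mem_insert_of_mem (hh h)
    · rw [hup k' hk''] at h ⊢
      exact mem_insert_of_mem (hG.cl k' hk'' h)
  · intro U hU hne
    by_cases hkU : k ∈ U
    · by_cases hhU : hd a b k c ∈ U
      · have hT : hd a b k c ∈ T := by
          rcases mem_insert.1 (hU hhU) with e | h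
          · exact absurd e hkh
          · exact h
        have hne' : (U.erase k).Nonempty := ⟨hd a b k c, mem_erase.2 ⟨hkh, hhU⟩⟩
        have hsub : U.erase k ⊆ T := by
          intro y hy
          rcases mem_insert.1 (hU (mem_of_mem_erase hy)) with e | h
          · exact absurd e (ne_of_mem_erase hy)
          · exact h
        obtain ⟨k', hk', hn⟩ := hG.one _ hsub hne'
        have hk'T := hsub hk'
        refine ⟨k', mem_of_mem_erase hk', ?_⟩
        rw [hup k' hk'T]
        intro hin
        refine hn (mem_erase.2 ⟨?_, hin⟩)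
        intro e
        have h7 := hG.cl k' hk'T
        rw [e] at h7
        exact hkT (h7 hk)
      · exact ⟨k, hkU, by rw [Function.update_self]; exact hhU⟩
    · have hsub : U ⊆ T := by
        intro y hy
        rcases mem_insert.1 (hU hy) with e | h
        · exact absurd (e ▸ hy) hkU
        · exact h
      obtain ⟨k', hk', hn⟩ := hG.one U hsub hne
      exact ⟨k', hk', by rw [hup k' (hsub hk')]; exact hn⟩
  · intro U hU hne
    by_cases hc : k ∈ U ∧ hd a b k c ∉ U
    · have h3 := h2 U hU hc.1 hc.2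
      have h4 : (lv a b T σ U).erase (k, c) ⊆ lv a b (insert k T) (Function.update σ k c) U := by
        intro x hx
        rw [mem_erase] at hx
        obtain ⟨hx1, hx2⟩ := hx
        rw [mem_lv] at hx2 ⊢
        refine ⟨?_, hx2.2⟩
        by_cases e : x.1 = k
        · right
          rw [e, Function.update_self]
          intro e'
          exact hx1 (Prod.ext e e')
        · rcases hx2.1 with h5 | h5
          · left
            rw [mem_insert, not_or]
            exact ⟨e, h5⟩
          · right
            rw [Function.update_of_ne e]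
            exact h5
      have h5 := card_le_card h4
      have h6 := pred_card_le_card_erase (s := lv a b T σ U) (a := (k, c))
      omega
    · have h3 := hG.two U hU hne
      have h4 : lv a b T σ U ⊆ lv a b (insert k T) (Function.update σ k c) U := by
        intro x hx
        rw [mem_lv] at hx ⊢
        refine ⟨?_, hx.2⟩
        by_cases e : x.1 = k
        · right
          rw [e, Function.update_self]
          intro e'
          refine hc ⟨e ▸ hx.2.1, ?_⟩
          have := hx.2.2
          rwa [e, e'] at this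
        · rcases hx.1 with h5 | h5
          · left
            rw [mem_insert, not_or]
            exact ⟨e, h5⟩
          · right
            rw [Function.update_of_ne e]
            exact h5
      exact h3.trans (card_le_card h4)

lemma good_step {K : Finset V} {a b : V → V}
    (hcut : ∀ U : Finset V, U ⊆ K → U.Nonempty →
      (U.filter fun k => a k ∈ U).card + (U.filter fun k => b k ∈ U).card + 2 ≤ 2 * U.card)
    {T : Finset V} {σ : V → Bool} (hG : Good K a b T σ) (hT : T ≠ K) :
    ∃ (k : V) (c : Bool), k ∉ T ∧ Good K a b (insert k T) (Function.update σ k c) := by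
  have hKT : (K \ T).Nonempty := by
    rw [sdiff_nonempty]
    exact fun h => hT (hG.sub.antisymm h)
  by_cases hcrit : ∃ A : Finset V, A ⊆ K ∧ ¬ A ⊆ T ∧ (lv a b T σ A).card = 1
  · obtain ⟨A, hA, hmin⟩ := exists_min_image
      ((univ : Finset (Finset V)).filter fun A => A ⊆ K ∧ ¬ A ⊆ T ∧ (lv a b T σ A).card = 1)
      card (by
        obtain ⟨A, hA⟩ := hcrit
        exact ⟨A, mem_filter.2 ⟨mem_univ _, hA⟩⟩)
    rw [mem_filter] at hA
    obtain ⟨-, hAK, hAT, hA1⟩ := hA
    have hne : (A \ T).Nonempty := sdiff_nonempty.2 hAT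
    have h2 := two_le a b (hcut (A \ T) (sdiff_subset.trans hAK) hne)
    -- an arc from `A \ T` to `A ∩ T`
    have hex : ∃ x : V × Bool, x ∈ ((univ : Finset (V × Bool)).filter fun x => x.1 ∈ A \ T ∧
        hd a b x.1 x.2 ∉ A \ T) ∧ x ∉ lv a b T σ A := by
      by_contra hcon
      push Not at hcon
      have := card_le_card hcon
      omega
    obtain ⟨x, hx1, hx2⟩ := hex
    rw [mem_filter] at hx1
    obtain ⟨-, hx3, hx4⟩ := hx1
    obtain ⟨hxA, hxT⟩ := mem_sdiff.1 hx3
    have hhA : hd a b x.1 x.2 ∈ A := by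
      by_contra hn
      exact hx2 (mem_lv.2 ⟨Or.inl hxT, hxA, hn⟩)
    have hhT : hd a b x.1 x.2 ∈ T := by
      by_contra hn
      exact hx4 (mem_sdiff.2 ⟨hhA, hn⟩)
    refine ⟨x.1, x.2, hxT, good_insert hG (hAK hxA) hxT x.2 (fun _ => hhT) ?_⟩
    intro U hU hxU hhU
    have h3 := hG.two U hU ⟨_, hxU⟩
    by_contra hlt
    have hU1 : (lv a b T σ U).card = 1 := by omega
    have h4 := submod a b T σ A U
    have h5 := hG.two (A ∩ U) (inter_subset_left.trans hAK) ⟨_, mem_inter.2 ⟨hxA, hxU⟩⟩
    have h6 := hG.two (A ∪ U) (union_subset hAK hU) ⟨_, mem_union_left _ hxA⟩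
    have h7 : (lv a b T σ (A ∩ U)).card = 1 := by omega
    have h8 := hmin (A ∩ U) (mem_filter.2 ⟨mem_univ _, inter_subset_left.trans hAK,
      fun h => hxT (h (mem_inter.2 ⟨hxA, hxU⟩)), h7⟩)
    have h9 : (A ∩ U).card < A.card := by
      refine card_lt_card ⟨inter_subset_left, fun h => ?_⟩
      exact hhU (mem_inter.1 (h hhA)).2
    omega
  · push Not at hcrit
    have h2 := two_le a b (hcut (K \ T) sdiff_subset hKT)
    obtain ⟨x, hx⟩ := card_pos.1 (show 0 < _ by omega :
      0 < ((univ : Finset (V × Bool)).filter fun x => x.1 ∈ K \ T ∧ hd a b x.1 x.2 ∉ K \ T).card)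
    rw [mem_filter] at hx
    obtain ⟨-, hx1, hx2⟩ := hx
    obtain ⟨hxK, hxT⟩ := mem_sdiff.1 hx1
    refine ⟨x.1, x.2, hxT, good_insert hG hxK hxT x.2 (fun h => ?_) ?_⟩
    · by_contra hn
      exact hx2 (mem_sdiff.2 ⟨h, hn⟩)
    · intro U hU hxU _
      have h3 := hG.two U hU ⟨_, hxU⟩
      have h4 := hcrit U hU (fun h => hxT (h hxU))
      omega

theorem main : S_ARB := by
  intro V _ _ K a b hcut
  have hstart : Good K a b ∅ (fun _ => true) := by
    refine ⟨empty_subset _, fun k hk => absurd hk (notMem_empty _), ?_, ?_⟩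
    · intro U hU hne
      exact absurd (subset_empty.1 hU) hne.ne_empty
    · intro U hU hne
      have h2 := two_le a b (hcut U hU hne)
      have h3 : ((univ : Finset (V × Bool)).filter fun x => x.1 ∈ U ∧ hd a b x.1 x.2 ∉ U) ⊆
          lv a b ∅ (fun _ => true) U := by
        intro x hx
        rw [mem_filter] at hx
        exact mem_lv.2 ⟨Or.inl (notMem_empty _), hx.2⟩
      have := card_le_card h3
      omega
  have hall : ∀ n : ℕ, n ≤ K.card → ∃ (T : Finset V) (σ : V → Bool), T.card = n ∧
      Good K a b T σ := by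
    intro n
    induction n with
    | zero => exact fun _ => ⟨∅, _, card_empty, hstart⟩
    | succ n ih =>
      intro hn
      obtain ⟨T, σ, hT, hG⟩ := ih (by omega)
      obtain ⟨k, c, hk, hG'⟩ := good_step hcut hG (by rintro rfl; omega)
      exact ⟨_, _, by rw [card_insert_of_notMem hk, hT], hG'⟩
  obtain ⟨T, σ, hT, hG⟩ := hall K.card le_rfl
  have hTK : T = K := eq_of_subset_of_card_le hG.sub hT.ge
  subst hTK
  refine ⟨σ, fun U hU hne => ⟨?_, ?_⟩⟩
  · exact hG.one U hU hne
  · obtain ⟨x, hx⟩ := card_pos.1 (hG.two U hU hne)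
    rw [mem_lv] at hx
    obtain ⟨h1, h2, h3⟩ := hx
    have h4 : x.2 ≠ σ x.1 := by
      rcases h1 with h1 | h1
      · exact absurd (hU h2) h1
      · exact h1
    refine ⟨x.1, h2, ?_⟩
    rw [hd] at h3
    rcases hs : σ x.1 with _ | _ <;> rcases hx2 : x.2 with _ | _ <;> rw [hs, hx2] at h4 <;>
      rw [hx2] at h3 <;> simp_all

end Pool.Agent.H10.Inj.Arb
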