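import Pool.Agent.H10.Inj.Def

/-!
# Stub INF: from finite to infinite forests
-/

set_option autoImplicit false

namespace Pool.Agent.H10.Inj

namespace Inf

/-- the relations hold in the group -/
theorem gen_rel {V E : Type} (L : LOG V E) (e : E) :
    L.gen (L.ini e) * L.gen (L.lab e) = L.gen (L.lab e) * L.gen (L.ter e) := by
  have h : PresentedGroup.mk (Set.range L.rel) (L.rel e) = 1 :=
    PresentedGroup.one_of_mem ⟨e, rfl⟩
  have h' : L.gen (L.ini e) * L.gen (L.lab e) * (L.gen (L.ter e))⁻¹ * (L.gen (L.lab e))⁻¹ = 1 := by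
    simpa [LOG.rel, LOG.gen, PresentedGroup.of] using h
  have h2 := mul_inv_eq_one.1 h'
  have h3 := mul_inv_eq_iff_eq_mul.1 h2
  exact h3

/-- homomorphisms from the group of a labelled oriented graph -/
noncomputable def hom {V E : Type} (L : LOG V E) {G : Type} [Group G] (f : V → G)
    (h : ∀ e, f (L.ini e) * f (L.lab e) = f (L.lab e) * f (L.ter e)) : L.G →* G :=
  PresentedGroup.toGroup (f := f) (by
    rintro _ ⟨e, rfl⟩
    have := h e
    simp only [LOG.rel, map_mul, map_inv, FreeGroup.lift_apply_of]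
    rw [this]
    group)

theorem hom_gen {V E : Type} (L : LOG V E) {G : Type} [Group G] (f : V → G)
    (h : ∀ e, f (L.ini e) * f (L.lab e) = f (L.lab e) * f (L.ter e)) (v : V) :
    hom L f h (L.gen v) = f v := PresentedGroup.toGroup.of _

theorem main : S_FIN → S_DATA → S_THICK → S_INF := by
  intro hF hD hT V E L hinj hsp
  classical
  by_contra hL
  obtain ⟨Ω, act, A, S, hS, hcoc, hnd⟩ := hD V E L hL
  set V0 : Finset V := A.image Prod.snd with hV0
  set E0 : Finset E := S.image Prod.snd with hE0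
  have hE : ∀ e ∈ E0, L.ini e ∈ V0 ∧ L.ter e ∈ V0 ∧ L.lab e ∈ V0 := by
    intro e he
    obtain ⟨s, hs, rfl⟩ := Finset.mem_image.1 he
    obtain ⟨-, h1, h2, h3, h4⟩ := hS s hs
    exact ⟨Finset.mem_image.2 ⟨_, h1, rfl⟩, Finset.mem_image.2 ⟨_, h3, rfl⟩,
      Finset.mem_image.2 ⟨_, h2, rfl⟩⟩
  let L0 : LOG {v // v ∈ V0} {e // e ∈ E0} :=
    { ini := fun e => ⟨L.ini e.1, (hE e.1 e.2).1⟩
      ter := fun e => ⟨L.ter e.1, (hE e.1 e.2).2.1⟩
      lab := fun e => ⟨L.lab e.1, (hE e.1 e.2).2.2⟩ }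
  have hinj0 : Function.Injective L0.lab := by
    intro e e' h
    apply Subtype.ext
    exact hinj (congrArg Subtype.val h)
  have hsp0 : Sparse L0.ini L0.ter := by
    intro B D hB hBD
    have := hsp (B.map (Function.Embedding.subtype _)) (D.map (Function.Embedding.subtype _))
      (by simpa using hB) (by
        intro e he
        obtain ⟨e', he', rfl⟩ := Finset.mem_map.1 he
        obtain ⟨h1, h2⟩ := hBD e' he'
        exact ⟨Finset.mem_map.2 ⟨_, h1, rfl⟩, Finset.mem_map.2 ⟨_, h2, rfl⟩⟩)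
    simpa using this
  have hLI : LocInd L0.G := hF _ _ L0 hinj0 hsp0
  let u : V → L0.G := fun v => if h : v ∈ V0 then L0.gen ⟨v, h⟩ else 1
  have hu : ∀ v (h : v ∈ V0), u v = L0.gen ⟨v, h⟩ := fun v h => dif_pos h
  have hurel : ∀ e ∈ E0, u (L.ini e) * u (L.lab e) = u (L.lab e) * u (L.ter e) := by
    intro e he
    rw [hu _ (hE e he).1, hu _ (hE e he).2.1, hu _ (hE e he).2.2]
    exact gen_rel L0 ⟨e, he⟩
  by_cases hq : ∃ q : Ω, ∃ f : Ω × V → ℚ, (∀ a, f a ≠ 0 → a ∈ A ∧ Joined act A q a.1) ∧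
      (∀ p c k d, SqIn act A p c k d → u c * u k = u k * u d → sq act f p c k d = 0) ∧
      ¬ ∃ g : Ω → ℚ, ∀ a ∈ A, Joined act A q a.1 → f a = g (act a.2 a.1) - g a.1
  · obtain ⟨q, f, -, hf2, hf3⟩ := hq
    obtain ⟨g, hg⟩ := hcoc f (fun s hs => hf2 _ _ _ _ (hS s hs)
      (hurel s.2 (Finset.mem_image.2 ⟨s, hs, rfl⟩)))
    exact hf3 ⟨g, fun a ha _ => hg a ha⟩
  · have hτ : ∀ q : Ω, ∃ τ : Ω → L0.G, ∀ a ∈ A, Joined act A q a.1 →
        τ (act a.2 a.1) = τ a.1 * u a.2 := by
      intro q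
      rcases hT L0.G hLI V Ω act u A q with h | h
      · exact h
      · exact absurd ⟨q, h⟩ hq
    choose T hT' using hτ
    let r : Ω → Ω → Prop := fun p p' => ∃ x, (p, x) ∈ A ∧ p' = act x p
    let st : Setoid Ω := Relation.EqvGen.setoid r
    let rep : Ω → Ω := fun p => (Quotient.mk st p).out
    let φ : L0.G →* L.G := hom L0 (fun v => L.gen v.1) (fun e => gen_rel L e.1)
    have hrep : ∀ p, Joined act A (rep p) p := by
      intro p
      exact Quotient.exact (Quotient.out_eq (Quotient.mk st p))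
    apply hnd
    refine ⟨fun p => φ (T (rep p) p), ?_⟩
    intro a ha
    have h1 : rep (act a.2 a.1) = rep a.1 := by
      have : Quotient.mk st (act a.2 a.1) = Quotient.mk st a.1 := by
        apply Quotient.sound
        exact Relation.EqvGen.symm _ _ (Relation.EqvGen.rel _ _ ⟨a.2, by simpa using ha, rfl⟩)
      simp only [rep, this]
    have h2 := hT' (rep a.1) a ha (hrep a.1)
    have h3 : a.2 ∈ V0 := Finset.mem_image.2 ⟨a, ha, rfl⟩
    simp only [h1, h2, map_mul]
    congr 1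
    rw [hu _ h3]
    exact hom_gen L0 _ _ _

end Inf

end Pool.Agent.H10.Inj
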