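import Pool.Agent.H10.Inj.Rel3
import Pool.Agent.H10.Inj.Ama
import Pool.Agent.H10.Inj.Inf

/-!
# Trees of blocks with injective labels
-/

set_option autoImplicit false

namespace Pool.Agent.H10.Inj.Blocks

open Pool.Agent.H10.Inj.Inf Pool.Agent.H10.Inj.Ama

open Classical

variable {V E I : Type}

/-- The partition `bl` is injective and its quotient is a forest: different edges which are not inner
edges have their labels in different blocks, and for every finite nonempty set `B` of blocks there are
fewer edges which are not inner edges and join blocks of `B` than elements of `B`. -/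
structure InjForest (L : LOG V E) (bl : V → I) : Prop where
  inj : ∀ e e', ¬ Inner L bl e → ¬ Inner L bl e' → bl (L.lab e) = bl (L.lab e') → e = e'
  forest : ∀ (B : Finset I) (D : Finset E), B.Nonempty →
    (∀ e ∈ D, ¬ Inner L bl e ∧ bl (L.ini e) ∈ B ∧ bl (L.ter e) ∈ B) → D.card + 1 ≤ B.card

/-- Transport of local indicability: `L` is a retract of `L'` in the weak sense that there are maps of
the vertices `α : V → V'`, `α' : V' → V` with `α' ∘ α = id` and of the edges which respect the
structure. -/
theorem transport {V' E' : Type} (L : LOG V E) (L' : LOG V' E') (α : V → V') (β : E → E')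
    (α' : V' → V) (β' : E' → E) (h1 : ∀ e, L'.ini (β e) = α (L.ini e))
    (h2 : ∀ e, L'.ter (β e) = α (L.ter e)) (h3 : ∀ e, L'.lab (β e) = α (L.lab e))
    (h1' : ∀ e, L.ini (β' e) = α' (L'.ini e)) (h2' : ∀ e, L.ter (β' e) = α' (L'.ter e))
    (h3' : ∀ e, L.lab (β' e) = α' (L'.lab e)) (hα : ∀ v, α' (α v) = v) (h : LocInd L'.G) :
    LocInd L.G := by
  let φ : L.G →* L'.G := hom L (fun v => L'.gen (α v)) (fun e => by
    have := Inf.gen_rel L' (β e)
    rw [h1, h2, h3] at this
    exact this)
  let φ' : L'.G →* L.G := hom L' (fun v => L.gen (α' v)) (fun e => by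
    have := Inf.gen_rel L (β' e)
    rw [h1', h2', h3'] at this
    exact this)
  have hcomp : φ'.comp φ = MonoidHom.id _ := by
    apply PresentedGroup.ext
    intro v
    show φ' (φ (L.gen v)) = L.gen v
    rw [show φ (L.gen v) = L'.gen (α v) from hom_gen L _ _ v,
      show φ' (L'.gen (α v)) = L.gen (α' (α v)) from hom_gen L' _ _ _, hα]
  refine LocInd.of_injective φ ?_ h
  intro x y hxy
  have h5 := DFunLike.congr_fun hcomp x
  have h6 := DFunLike.congr_fun hcomp y
  simp only [MonoidHom.comp_apply, MonoidHom.id_apply] at h5 h6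
  rw [← h5, ← h6, hxy]

/-- the partition of a block of the coarser partition -/
def fine {J : Type} (bl : V → I) (b : I → J) (j : J) (v : {v : V // b (bl v) = j}) :
    {i : I // b i = j} := ⟨bl v.1, v.2⟩

theorem inner_fine {J : Type} (L : LOG V E) (bl : V → I) (b : I → J) (j : J)
    (e : {e : E // b (bl (L.ini e)) = j ∧ b (bl (L.ter e)) = j ∧ b (bl (L.lab e)) = j}) :
    Inner (L.blk (fun v => b (bl v)) j) (fine bl b j) e ↔ Inner L bl e.1 := by
  unfold Inner fine LOG.blk
  simp only [Subtype.mk.injEq]

theorem injForest_fine {J : Type} {L : LOG V E} {bl : V → I} (h : InjForest L bl) (b : I → J)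
    (j : J) : InjForest (L.blk (fun v => b (bl v)) j) (fine bl b j) := by
  constructor
  · intro e e' he he' hl
    rw [inner_fine] at he he'
    exact Subtype.ext (h.inj e.1 e'.1 he he' (congrArg Subtype.val hl))
  · intro B D hB hD
    have h1 := h.forest (B.image Subtype.val) (D.image Subtype.val) (hB.image _) (by
      intro e he
      obtain ⟨e', he', rfl⟩ := Finset.mem_image.1 he
      obtain ⟨h2, h3, h4⟩ := hD e' he'
      rw [inner_fine] at h2
      exact ⟨h2, Finset.mem_image_of_mem Subtype.val h3, Finset.mem_image_of_mem Subtype.val h4⟩)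
    rwa [Finset.card_image_of_injective _ Subtype.val_injective,
      Finset.card_image_of_injective _ Subtype.val_injective] at h1

theorem locInd_fine {J : Type} (L : LOG V E) (bl : V → I) (b : I → J) (j : J)
    (h : ∀ i, LocInd (L.blk bl i).G) (i : {i : I // b i = j}) :
    LocInd ((L.blk (fun v => b (bl v)) j).blk (fine bl b j) i).G := by
  obtain ⟨i, hi⟩ := i
  refine transport _ (L.blk bl i)
    (fun x => ⟨x.1.1, congrArg Subtype.val x.2⟩)
    (fun e => ⟨e.1.1, congrArg Subtype.val e.2.1, congrArg Subtype.val e.2.2.1,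
      congrArg Subtype.val e.2.2.2⟩)
    (fun v => ⟨⟨v.1, by rw [v.2]; exact hi⟩, Subtype.ext v.2⟩)
    (fun e => ⟨⟨e.1, by rw [e.2.1]; exact hi, by rw [e.2.2.1]; exact hi,
      by rw [e.2.2.2]; exact hi⟩, Subtype.ext e.2.1, Subtype.ext e.2.2.1, Subtype.ext e.2.2.2⟩)
    (fun e => rfl) (fun e => rfl) (fun e => rfl) (fun e => rfl) (fun e => rfl) (fun e => rfl)
    (fun v => rfl) (h i)

/-- the quotient graph -/
def quo (L : LOG V E) (bl : V → I) : LOG I {e : E // ¬ Inner L bl e} where
  ini e := bl (L.ini e.1)
  ter e := bl (L.ter e.1)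
  lab e := bl (L.lab e.1)

theorem fin_aux (hREL : S_REL) (hAMA : S_AMA) (hPART : S_PART) (n : ℕ) :
    ∀ (V E I : Type) [Fintype I] (L : LOG V E) (bl : V → I), Fintype.card I = n →
      InjForest L bl → (∀ i, LocInd (L.blk bl i).G) → LocInd L.G := by
  induction n using Nat.strong_induction_on with
  | _ n ih =>
    intro V E I _ L bl hn hinj hloc
    have hblk : ∀ (J : Type) (b : I → J) (j : J), (∃ i, b i ≠ j) →
        LocInd (L.blk (fun v => b (bl v)) j).G := by
      intro J b j ⟨i₀, hi₀⟩
      refine ih (Fintype.card {i : I // b i = j}) ?_ _ _ {i : I // b i = j} _ (fine bl b j) rfl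
        (injForest_fine hinj b j) (locInd_fine L bl b j hloc)
      rw [← hn]
      exact Fintype.card_subtype_lt hi₀
    by_cases h2 : 2 ≤ Fintype.card I
    · rcases hPART I {e : E // ¬ Inner L bl e} (quo L bl)
        (fun e e' he => Subtype.ext (hinj.inj e.1 e'.1 e.2 e'.2 he))
        (by
          intro B D hB hD
          have h1 := hinj.forest B (D.image Subtype.val) hB (by
            intro e he
            obtain ⟨e', he', rfl⟩ := Finset.mem_image.1 he
            exact ⟨e'.2, hD e' he'⟩)
          rwa [Finset.card_image_of_injective _ Subtype.val_injective] at h1) h2 with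
        ⟨J, b, ε, hprop, hS⟩ | ⟨b, e₀, he₀, hin⟩
      · refine hREL V E J L (fun v => b (bl v)) ε ⟨fun e => ?_, fun c B D hB hD => ?_⟩
          (fun j => ?_)
        · by_cases he : Inner L bl e
          · left
            exact ⟨congrArg b he.1, congrArg b he.2⟩
          · exact hS.types ⟨e, he⟩
        · have hni : ∀ e ∈ D, ¬ Inner L bl e := by
            intro e he h
            exact (hD e he).1.1 (congrArg b h.1)
          have h1 := hS.forest c B (D.subtype fun e => ¬ Inner L bl e) hB (by
            intro e he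
            exact hD e.1 (Finset.mem_subtype.1 he))
          rwa [Finset.card_subtype, Finset.filter_true_of_mem hni] at h1
        · obtain ⟨i, hi⟩ := hprop j
          exact hblk J b j ⟨i, hi⟩
      · refine hAMA V E L (fun v => b (bl v)) e₀.1 he₀ (fun e he => ?_) (fun c => ?_)
        · by_cases hie : Inner L bl e
          · exact ⟨congrArg b hie.1, congrArg b hie.2⟩
          · exact hin ⟨e, hie⟩ (fun h => he (congrArg Subtype.val h))
        · refine hblk Bool b c ?_
          by_contra hcon
          push Not at hcon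
          exact he₀ ((hcon _).trans (hcon _).symm)
    · have hsub : Subsingleton I := Fintype.card_le_one_iff_subsingleton.1 (by omega)
      refine hREL V E I L bl (fun _ => true) ⟨fun e => Or.inl ⟨Subsingleton.elim _ _,
        Subsingleton.elim _ _⟩, fun c B D hB hD => ?_⟩ hloc
      have hD0 : D = ∅ := by
        rw [Finset.eq_empty_iff_forall_notMem]
        intro e he
        exact (hD e he).1.1 (Subsingleton.elim _ _)
      rw [hD0, Finset.card_empty, zero_add]
      exact hB.card_pos

/-- The finite block theorem. -/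
theorem fin (hREL : S_REL) (hAMA : S_AMA) (hPART : S_PART) {V E I : Type} [Finite I]
    (L : LOG V E) (bl : V → I) (h : InjForest L bl) (hloc : ∀ i, LocInd (L.blk bl i).G) :
    LocInd L.G := by
  obtain ⟨_⟩ := nonempty_fintype I
  exact fin_aux hREL hAMA hPART _ V E I L bl rfl h hloc

/-- **The block theorem.** -/
theorem main (hREL : S_REL) (hAMA : S_AMA) (hPART : S_PART) (hD : S_DATA) (hT : S_THICK)
    {V E I : Type} (L : LOG V E) (bl : V → I) (h : InjForest L bl)
    (hloc : ∀ i, LocInd (L.blk bl i).G) : LocInd L.G := by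
  by_contra hcon
  obtain ⟨Ω, act, A, S, hsq, hH, hDev⟩ := hD V E L hcon
  set I0 : Finset I := A.image (fun a => bl a.2) with hI0
  have hmem : ∀ a ∈ A, bl a.2 ∈ I0 := fun a ha => Finset.mem_image_of_mem (fun a => bl a.2) ha
  let b : I → Bool := fun i => decide (i ∈ I0)
  have hfin : Finite {i : I // b i = true} := by
    refine Finite.of_injective (fun i => (⟨i.1, by simpa [b] using i.2⟩ : I0)) ?_
    intro i j hij
    exact Subtype.ext (congrArg (fun x : I0 => x.1) hij)
  have hL0 : LocInd (L.blk (fun v => b (bl v)) true).G :=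
    fin hREL hAMA hPART _ (fine bl b true) (injForest_fine h b true)
      (locInd_fine L bl b true hloc)
  -- the letters of `A` lie in the subgraph
  have hbt : ∀ a ∈ A, b (bl a.2) = true := fun a ha => decide_eq_true (hmem a ha)
  let φ : (L.blk (fun v => b (bl v)) true).G →* L.G :=
    hom _ (fun v => L.gen v.1) (fun e => Inf.gen_rel L e.1)
  have hφ : ∀ v, φ ((L.blk (fun v => b (bl v)) true).gen v) = L.gen v.1 := fun v =>
    hom_gen _ _ _ _
  let u : V → (L.blk (fun v => b (bl v)) true).G := fun v =>
    if hv : b (bl v) = true then (L.blk (fun v => b (bl v)) true).gen ⟨v, hv⟩ else 1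
  have hdev : ∀ q : Ω, ∃ τ : Ω → (L.blk (fun v => b (bl v)) true).G, ∀ a ∈ A,
      Joined act A q a.1 → τ (act a.2 a.1) = τ a.1 * u a.2 := by
    intro q
    refine (hT _ hL0 V Ω act u A q).resolve_right ?_
    rintro ⟨f, hf1, hf2, hf3⟩
    obtain ⟨g, hg⟩ := hH f (by
      intro s hs
      obtain ⟨hcl, hA1, hA2, hA3, hA4⟩ := hsq s hs
      refine hf2 _ _ _ _ (hsq s hs) ?_
      simp only [u]
      rw [dif_pos (hbt _ hA1), dif_pos (hbt _ hA2), dif_pos (hbt _ hA3)]
      exact Inf.gen_rel (L.blk (fun v => b (bl v)) true) ⟨s.2, hbt _ hA1, hbt _ hA3, hbt _ hA2⟩)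
    exact hf3 ⟨g, fun a ha _ => hg a ha⟩
  choose τ hτ using hdev
  let st : Setoid Ω := Relation.EqvGen.setoid (fun p p' => ∃ x, (p, x) ∈ A ∧ p' = act x p)
  refine hDev ⟨fun p => φ (τ (Quotient.out (Quotient.mk st p)) p), fun a ha => ?_⟩
  have h1 : Quotient.mk st (act a.2 a.1) = Quotient.mk st a.1 :=
    Quotient.sound (Relation.EqvGen.symm _ _ (Relation.EqvGen.rel _ _ ⟨a.2, ha, rfl⟩))
  beta_reduce
  rw [h1, hτ _ a ha (Quotient.mk_out (s := st) a.1), map_mul]
  congr 1
  simp only [u]
  rw [dif_pos (hbt a ha)]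
  exact hφ _

end Pool.Agent.H10.Inj.Blocks
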