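import Pool.Agent.H10.Inj.Def

set_option autoImplicit false

namespace Pool.Agent.H10.Inj.Count

open Finset

variable {I : Type}

/-- the corner both ends of which have the class `b` -/
def zc (ε : I → Bool) (k g d : I) (b : Bool) : Fin 4 :=
  if ε k = b then (if ε g = b then 0 else 1) else (if ε d = b then 2 else 3)

theorem zc_cls (ε : I → Bool) (k g d : I) (b t : Bool) :
    (slotS (zc ε k g d b) t == ε (slotB k g d (zc ε k g d b) t)) = b := by
  unfold zc
  cases hk : ε k <;> cases hg : ε g <;> cases hd : ε d <;> cases b <;> cases t <;>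
    simp [slotS, slotB, oth, hk, hg, hd]

theorem zc_uniq (ε : I → Bool) (k g d : I) (b : Bool) (j : Fin 4)
    (h : ∀ t, (slotS j t == ε (slotB k g d j t)) = b) : j = zc ε k g d b := by
  have h1 := h true
  have h2 := h false
  unfold zc
  cases hk : ε k <;> cases hg : ε g <;> cases hd : ε d <;> cases b <;> fin_cases j <;>
    simp [slotS, slotB, oth, hk, hg, hd] at h1 h2 ⊢

theorem zc_oth (ε : I → Bool) (k g d : I) (b : Bool) :
    oth g d (zc ε k g d b) = if ε k = b then g else d := by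
  unfold zc
  split_ifs <;> simp [oth]

theorem main : S_COUNT := by
  intro Ω I Ce E _ _ _ _ S ed pos κ γ δ ε Inc M hinj hne hInc h2 hfor hM
  classical
  -- the corners
  obtain ⟨z, hz⟩ : ∃ z : Ce → Bool → Fin 4, ∀ s b, z s b =
      zc ε (κ (ed s)) (γ (ed s)) (δ (ed s)) b := ⟨_, fun _ _ => rfl⟩
  obtain ⟨SS, hSS⟩ : ∃ SS : Finset (Ce × (Fin 4 × Bool)), SS = S ×ˢ univ := ⟨_, rfl⟩
  obtain ⟨pp, hpp⟩ : ∃ pp : Ce × (Fin 4 × Bool) → Ω, ∀ x, pp x = pos x.1 x.2.1 := ⟨_, fun _ => rfl⟩
  obtain ⟨bb, hbb⟩ : ∃ bb : Ce × (Fin 4 × Bool) → I, ∀ x, bb x =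
      slotB (κ (ed x.1)) (γ (ed x.1)) (δ (ed x.1)) x.2.1 x.2.2 := ⟨_, fun _ => rfl⟩
  obtain ⟨PE, hPE⟩ : ∃ PE : Finset ((Ω × I) × Bool), PE =
      SS.image (fun x => ((pp x, bb x), slotS x.2.1 x.2.2)) := ⟨_, rfl⟩
  have memSS : ∀ x, x ∈ SS ↔ x.1 ∈ S := by
    intro x
    rw [hSS, mem_product]
    simp
  have hPEInc : ∀ y ∈ PE, y.1 ∈ Inc := by
    intro y hy
    rw [hPE, mem_image] at hy
    obtain ⟨x, hx, rfl⟩ := hy
    show (pp x, bb x) ∈ Inc
    rw [hpp, hbb]
    exact hInc x.1 ((memSS x).1 hx) x.2.1 x.2.2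
  -- present and missing ends
  have hdis : Disjoint PE M := by
    rw [Finset.disjoint_left]
    intro y hy hy'
    rw [hPE, mem_image] at hy
    obtain ⟨x, hx, rfl⟩ := hy
    refine (hM _ hy').2 x.1 ((memSS x).1 hx) x.2.1 x.2.2 ⟨?_, rfl⟩
    show _ = (pp x, bb x)
    rw [hpp, hbb]
  have hcard : PE.card + M.card ≤ 2 * Inc.card := by
    rw [← card_union_of_disjoint hdis]
    have hsub : PE ∪ M ⊆ Inc ×ˢ (univ : Finset Bool) := by
      intro y hy
      rw [mem_product]
      refine ⟨?_, mem_univ _⟩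
      rcases mem_union.1 hy with h | h
      · exact hPEInc y h
      · exact (hM y h).1
    have := card_le_card hsub
    rw [card_product, card_univ, Fintype.card_bool] at this
    omega
  -- the classes
  obtain ⟨cl, hcl⟩ : ∃ cl : (Ω × I) × Bool → Bool, ∀ y, cl y = (y.2 == ε y.1.2) :=
    ⟨_, fun _ => rfl⟩
  obtain ⟨F, hF⟩ : ∃ F : Ω → Bool → Finset ((Ω × I) × Bool), ∀ p b,
      F p b = PE.filter (fun y => y.1.1 = p ∧ cl y = b) := ⟨_, fun _ _ => rfl⟩
  obtain ⟨Dd, hDd⟩ : ∃ Dd : Ω → Bool → Finset Ce, ∀ p b,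
      Dd p b = S.filter (fun s => pos s (z s b) = p) := ⟨_, fun _ _ => rfl⟩
  -- an end of a corner at `p`
  have memF : ∀ x ∈ SS, ∀ b, (slotS x.2.1 x.2.2 == ε (bb x)) = b →
      ((pp x, bb x), slotS x.2.1 x.2.2) ∈ F (pp x) b := by
    intro x hx b hb
    rw [hF, mem_filter]
    refine ⟨?_, rfl, ?_⟩
    · rw [hPE]
      exact mem_image_of_mem _ hx
    · rw [hcl]
      exact hb
  have forest : ∀ p b, (F p b).Nonempty →
      (Dd p b).card + 1 ≤ ((F p b).image (fun y => y.1.2)).card := by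
    intro p b hne'
    have hD : (Dd p b).card = ((Dd p b).image ed).card := by
      rw [card_image_of_injOn]
      intro s hs s' hs' hss
      rw [mem_coe, hDd, mem_filter] at hs hs'
      have hzz : z s b = z s' b := by rw [hz, hz, hss]
      exact hinj s hs.1 s' hs'.1 hss (z s b) (by rw [hs.2, hzz, hs'.2])
    rw [hD]
    refine hfor b _ _ (hne'.image _) ?_
    intro e he
    rw [mem_image] at he
    obtain ⟨s, hs, rfl⟩ := he
    rw [hDd, mem_filter] at hs
    obtain ⟨hs1, hs2⟩ := hs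
    have key : ∀ t, slotB (κ (ed s)) (γ (ed s)) (δ (ed s)) (z s b) t ∈
        (F p b).image (fun y => y.1.2) := by
      intro t
      have hx : ((s, (z s b, t)) : Ce × (Fin 4 × Bool)) ∈ SS := (memSS _).2 hs1
      have h3 := memF _ hx b (by
        rw [hbb]
        show (slotS (z s b) t == ε (slotB (κ (ed s)) (γ (ed s)) (δ (ed s)) (z s b) t)) = b
        rw [hz]
        exact zc_cls ε _ _ _ b t)
      have h4 : pp (s, (z s b, t)) = p := by
        rw [hpp]
        exact hs2
      rw [h4] at h3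
      rw [mem_image]
      refine ⟨_, h3, ?_⟩
      rw [hbb]
    refine ⟨⟨s, hs1, rfl⟩, ?_, ?_⟩
    · have := key true
      simpa [slotB] using this
    · have := key false
      rw [← zc_oth ε (κ (ed s)) (γ (ed s)) (δ (ed s)) b, ← hz]
      simpa [slotB] using this
  have nonem : ∀ p ∈ Inc.image Prod.fst, ∀ b, (F p b).Nonempty := by
    intro p hp b
    by_contra hcon
    rw [not_nonempty_iff_eq_empty] at hcon
    -- all ends at `p` have the class `!b`
    have hall : ∀ x ∈ SS, pp x = p → (slotS x.2.1 x.2.2 == ε (bb x)) = !b := by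
      intro x hx hxp
      by_contra h3
      have h4 : (slotS x.2.1 x.2.2 == ε (bb x)) = b := by
        revert h3
        cases (slotS x.2.1 x.2.2 == ε (bb x)) <;> cases b <;> simp
      have h5 := memF x hx b h4
      rw [hxp, hcon] at h5
      exact absurd h5 (notMem_empty _)
    obtain ⟨a, ha, hap⟩ := mem_image.1 hp
    have hne' : (F p (!b)).Nonempty := by
      have h3 := h2 a ha
      have h4 : 0 < ((S ×ˢ (univ : Finset (Fin 4 × Bool))).filter fun x =>
        (pos x.1 x.2.1, slotB (κ (ed x.1)) (γ (ed x.1)) (δ (ed x.1)) x.2.1 x.2.2) = a).card := by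
        omega
      obtain ⟨x, hx⟩ := card_pos.1 h4
      obtain ⟨hx1, hx2⟩ := mem_filter.1 hx
      rw [← hSS] at hx1
      have hxp : pp x = p := by
        rw [hpp, ← hap, ← hx2]
      have h5 := memF x hx1 _ (hall x hx1 hxp)
      rw [hxp] at h5
      exact ⟨_, h5⟩
    have h3 := forest p (!b) hne'
    -- counting the slots at `p`
    obtain ⟨T, hT⟩ : ∃ T, T = SS.filter (fun x => pp x = p) := ⟨_, rfl⟩
    obtain ⟨Ip, hIp⟩ : ∃ Ip, Ip = Inc.filter (fun a => a.1 = p) := ⟨_, rfl⟩
    have c1 : 2 * Ip.card ≤ T.card := by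
      have hmap : ∀ x ∈ T, (pp x, bb x) ∈ Ip := by
        intro x hx
        rw [hT, mem_filter] at hx
        rw [hIp, mem_filter]
        refine ⟨?_, hx.2⟩
        rw [hpp, hbb]
        exact hInc x.1 ((memSS x).1 hx.1) x.2.1 x.2.2
      rw [card_eq_sum_card_fiberwise (f := fun x => (pp x, bb x)) (t := Ip)
        (fun x hx => mem_coe.2 (hmap x (mem_coe.1 hx)))]
      have : 2 * Ip.card = ∑ _a ∈ Ip, 2 := by rw [sum_const, smul_eq_mul, mul_comm]
      rw [this]
      refine sum_le_sum fun a ha' => ?_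
      rw [hIp, mem_filter] at ha'
      refine (h2 a ha'.1).trans (card_le_card ?_)
      intro x hx
      obtain ⟨hx1, hx2⟩ := mem_filter.1 hx
      rw [← hSS] at hx1
      have e1 : (pp x, bb x) = a := by rw [hpp, hbb]; exact hx2
      rw [mem_filter, hT, mem_filter]
      refine ⟨⟨hx1, ?_⟩, e1⟩
      rw [← ha'.2, ← e1]
    have c2 : T.card ≤ 2 * (Dd p (!b)).card := by
      have hsub : T ⊆ ((Dd p (!b)) ×ˢ (univ : Finset Bool)).image
          (fun y => (y.1, (z y.1 (!b), y.2))) := by
        intro x hx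
        rw [hT, mem_filter] at hx
        obtain ⟨hx1, hx2⟩ := hx
        have hs1 := (memSS x).1 hx1
        have hj : x.2.1 = z x.1 (!b) := by
          rw [hz]
          refine zc_uniq ε _ _ _ _ _ fun t => ?_
          have h5 := hall (x.1, (x.2.1, t)) ((memSS _).2 hs1) (by
            rw [hpp] at hx2 ⊢
            exact hx2)
          rw [hbb] at h5
          exact h5
        rw [mem_image]
        refine ⟨(x.1, x.2.2), ?_, ?_⟩
        · rw [mem_product, hDd, mem_filter]
          refine ⟨⟨hs1, ?_⟩, mem_univ _⟩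
          rw [← hj, ← hpp]
          exact hx2
        · show (x.1, (z x.1 (!b), x.2.2)) = x
          rw [← hj]
      have := (card_le_card hsub).trans card_image_le
      rw [card_product, card_univ, Fintype.card_bool] at this
      omega
    have c3 : ((F p (!b)).image (fun y => y.1.2)).card ≤ Ip.card := by
      have hsub : (F p (!b)).image (fun y => y.1.2) ⊆ Ip.image Prod.snd := by
        intro i hi
        rw [mem_image] at hi ⊢
        obtain ⟨y, hy, rfl⟩ := hi
        rw [hF, mem_filter] at hy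
        refine ⟨y.1, ?_, rfl⟩
        rw [hIp, mem_filter]
        exact ⟨hPEInc y hy.1, hy.2.1⟩
      exact (card_le_card hsub).trans card_image_le
    omega
  -- the sum
  obtain ⟨P, hP⟩ : ∃ P, P = Inc.image Prod.fst := ⟨_, rfl⟩
  have hsum : PE.card = ∑ y ∈ P ×ˢ (univ : Finset Bool), (F y.1 y.2).card := by
    rw [card_eq_sum_card_fiberwise (f := fun y => (y.1.1, cl y)) (t := P ×ˢ (univ : Finset Bool))]
    · refine sum_congr rfl fun y _ => ?_
      rw [hF]
      congr 1
      ext w
      simp only [mem_filter, Prod.ext_iff]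
    · intro y hy
      rw [mem_coe, mem_product]
      refine ⟨?_, mem_univ _⟩
      rw [hP]
      exact mem_image_of_mem _ (hPEInc y (mem_coe.1 hy))
  have hDsum : ∀ b, ∑ p ∈ P, (Dd p b).card = S.card := by
    intro b
    rw [card_eq_sum_card_fiberwise (s := S) (f := fun s => pos s (z s b)) (t := P)]
    · exact sum_congr rfl fun p _ => by rw [hDd]
    · intro s hs
      rw [mem_coe, hP]
      exact mem_image.2 ⟨_, hInc s (mem_coe.1 hs) (z s b) true, rfl⟩
  have hle : ∑ y ∈ P ×ˢ (univ : Finset Bool), ((Dd y.1 y.2).card + 1) ≤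
      ∑ y ∈ P ×ˢ (univ : Finset Bool), (F y.1 y.2).card := by
    refine sum_le_sum fun y hy => ?_
    rw [mem_product, hP] at hy
    exact (forest y.1 y.2 (nonem y.1 hy.1 y.2)).trans card_image_le
  have hl : ∑ y ∈ P ×ˢ (univ : Finset Bool), ((Dd y.1 y.2).card + 1) =
      2 * S.card + 2 * P.card := by
    rw [sum_product_right]
    simp only [sum_add_distrib, hDsum, sum_const, card_univ, Fintype.card_bool, smul_eq_mul]
    ring
  rw [hl, ← hsum] at hle
  rw [← hP]
  omega

end Pool.Agent.H10.Inj.Count
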