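import Pool.Agent.H10.Inj.Def

/-!
# Stub LIN: a dimension count
-/

set_option autoImplicit false

namespace Pool.Agent.H10.Inj

namespace Lin

variable {Inc P C : Type} [Fintype Inc] [Fintype P] [Fintype C]

/-- the map `(gP, gC) ↦ gC ∘ cmp - gP ∘ pos` -/
def Psi (pos : Inc → P) (cmp : Inc → C) : ((P → ℚ) × (C → ℚ)) →ₗ[ℚ] (Inc → ℚ) where
  toFun g := fun a => g.2 (cmp a) - g.1 (pos a)
  map_add' g h := by
    funext a
    simp only [Prod.fst_add, Prod.snd_add, Pi.add_apply]
    ring
  map_smul' c g := by
    funext a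
    simp only [Prod.smul_fst, Prod.smul_snd, Pi.smul_apply, smul_eq_mul, RingHom.id_apply]
    ring

theorem main : S_LIN := by
  intro Inc P C N S _ _ _ _ _ pos cmp Φ hP hK
  have h1 := LinearMap.finrank_range_add_finrank_ker Φ
  have h2 : Module.finrank ℚ (LinearMap.range Φ) ≤ Fintype.card S := by
    have := Submodule.finrank_le (LinearMap.range Φ)
    simpa using this
  have h3 : Module.finrank ℚ ((Inc → ℚ) × (N → ℚ)) = Fintype.card Inc + Fintype.card N := by
    simp [Module.finrank_prod]
  have h4 := LinearMap.finrank_range_add_finrank_ker (Psi pos cmp)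
  have h5 : Module.finrank ℚ ((P → ℚ) × (C → ℚ)) = Fintype.card P + Fintype.card C := by
    simp [Module.finrank_prod]
  have h6 : 0 < Module.finrank ℚ (LinearMap.ker (Psi pos cmp)) := by
    rw [Module.finrank_pos_iff_exists_ne_zero]
    refine ⟨⟨(fun _ => 1, fun _ => 1), ?_⟩, ?_⟩
    · rw [LinearMap.mem_ker]
      funext a
      simp [Psi]
    · intro h
      have h' := congrArg (fun x : LinearMap.ker (Psi pos cmp) => x.1.1 hP.some) h
      simp at h'
  have h7 : Module.finrank ℚ (LinearMap.ker Φ) ≤ Module.finrank ℚ (LinearMap.range (Psi pos cmp)) := by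
    let f : LinearMap.ker Φ →ₗ[ℚ] LinearMap.range (Psi pos cmp) :=
      { toFun := fun v => ⟨v.1.1, by
          obtain ⟨-, gP, gC, h⟩ := hK v.1 (LinearMap.mem_ker.1 v.2)
          exact ⟨(gP, gC), by funext a; simp [Psi, h a]⟩⟩
        map_add' := fun v w => by
          apply Subtype.ext
          rfl
        map_smul' := fun c v => by
          apply Subtype.ext
          rfl }
    apply LinearMap.finrank_le_finrank_of_injective (f := f)
    intro v w hvw
    apply Subtype.ext
    have e1 : v.1.1 = w.1.1 := congrArg Subtype.val hvw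
    have e2 : v.1.2 = w.1.2 := by
      rw [(hK v.1 (LinearMap.mem_ker.1 v.2)).1, (hK w.1 (LinearMap.mem_ker.1 w.2)).1]
    exact Prod.ext e1 e2
  omega

end Lin

end Pool.Agent.H10.Inj
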