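import Pool.Agent.H10.Inj.Def

/-!
# ONE: no edges and at most one vertex
-/

set_option autoImplicit false

namespace Pool.Agent.H10.Inj.One

theorem surj_of_ne {H : Type} [Group H] (ψ : H →* Multiplicative ℤ) (h : ∃ x, ψ x ≠ 1) :
    ∃ ψ' : H →* Multiplicative ℤ, Function.Surjective ψ' := by
  classical
  let v : H → ℤ := fun x => Multiplicative.toAdd (ψ x)
  have vmul : ∀ x y, v (x * y) = v x + v y := fun x y => by
    show Multiplicative.toAdd (ψ (x * y)) = _
    rw [map_mul]; rfl
  have vzpow : ∀ (x : H) (n : ℤ), v (x ^ n) = n * v x := fun x n => by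
    show Multiplicative.toAdd (ψ (x ^ n)) = _
    rw [map_zpow, toAdd_zpow, smul_eq_mul]
  have hex : ∃ n : ℕ, 0 < n ∧ ∃ x, v x = n := by
    obtain ⟨x, hx⟩ := h
    have hx' : v x ≠ 0 := fun h0 => hx h0
    refine ⟨(v x).natAbs, Int.natAbs_pos.2 hx', ?_⟩
    rcases le_total 0 (v x) with h1 | h1
    · exact ⟨x, (Int.natAbs_of_nonneg h1).symm⟩
    · refine ⟨x ^ (-1 : ℤ), ?_⟩
      rw [vzpow, Int.ofNat_natAbs_of_nonpos h1]
      ring
  obtain ⟨hpos, x₀, hx₀⟩ := Nat.find_spec hex
  set m := Nat.find hex with hm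
  have hdvd : ∀ x, (m : ℤ) ∣ v x := by
    intro x
    by_contra hnd
    have h1 : v (x * x₀ ^ (-(v x / m))) = v x % m := by
      rw [vmul, vzpow, hx₀]
      have := Int.emod_add_mul_ediv (v x) m
      linarith
    have h2 : 0 ≤ v x % m := Int.emod_nonneg _ (by exact_mod_cast hpos.ne')
    have h3 : v x % m < m := Int.emod_lt_of_pos _ (by exact_mod_cast hpos)
    have h4 : v x % m ≠ 0 := fun h => hnd (Int.dvd_of_emod_eq_zero h)
    have h5 : (v x % m).toNat < m := by
      rw [← Int.ofNat_lt, Int.toNat_of_nonneg h2]; exact h3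
    refine Nat.find_min hex h5 ⟨?_, x * x₀ ^ (-(v x / m)), ?_⟩
    · have : 0 < v x % m := lt_of_le_of_ne h2 h4.symm
      omega
    · rw [h1, Int.toNat_of_nonneg h2]
  refine ⟨MonoidHom.mk' (fun x => Multiplicative.ofAdd (v x / m)) ?_, ?_⟩
  · intro x y
    rw [vmul, Int.add_ediv_of_dvd_left (hdvd x)]
    rfl
  · intro z
    refine ⟨x₀ ^ (Multiplicative.toAdd z), ?_⟩
    show Multiplicative.ofAdd (v (x₀ ^ (Multiplicative.toAdd z)) / m) = z
    rw [vzpow, hx₀, Int.mul_ediv_cancel _ (by exact_mod_cast hpos.ne')]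
    rfl

theorem main : S_ONE := by
  classical
  intro V E L hV hE H _ hne
  -- the exponent sum
  have hrel : ∀ r ∈ Set.range L.rel,
      FreeGroup.lift (fun _ : V => Multiplicative.ofAdd (1 : ℤ)) r = 1 := by
    rintro _ ⟨e, _⟩
    exact hE.elim e
  let φ : L.G →* Multiplicative ℤ := PresentedGroup.toGroup hrel
  have hφ : ∀ v, φ (PresentedGroup.of v) = Multiplicative.ofAdd 1 := fun v =>
    PresentedGroup.toGroup.of hrel
  -- every element is a power of a generator
  have hpow : ∀ x : L.G, x ≠ 1 → ∃ (v : V) (n : ℤ), x = (PresentedGroup.of v) ^ n := by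
    intro x hx
    have h1 : x ∈ Subgroup.closure (Set.range (PresentedGroup.of (rels := Set.range L.rel))) := by
      rw [PresentedGroup.closure_range_of]
      trivial
    by_cases hV' : Nonempty V
    · obtain ⟨v⟩ := hV'
      refine ⟨v, ?_⟩
      have h2 : Set.range (PresentedGroup.of (rels := Set.range L.rel)) =
          {PresentedGroup.of v} := by
        ext y
        constructor
        · rintro ⟨u, rfl⟩
          rw [Subsingleton.elim u v]
          rfl
        · intro hy
          exact ⟨v, hy.symm⟩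
      rw [h2, ← Subgroup.zpowers_eq_closure] at h1
      obtain ⟨n, hn⟩ := h1
      exact ⟨n, hn.symm⟩
    · exfalso
      apply hx
      have h2 : Set.range (PresentedGroup.of (rels := Set.range L.rel)) = ∅ := by
        rw [Set.eq_empty_iff_forall_notMem]
        rintro y ⟨u, _⟩
        exact hV' ⟨u⟩
      rw [h2, Subgroup.closure_empty] at h1
      exact Subgroup.mem_bot.mp h1
  obtain ⟨x, hxH, hx⟩ : ∃ x ∈ H, x ≠ 1 := by
    by_contra hcon
    push Not at hcon
    exact hne ((Subgroup.eq_bot_iff_forall H).2 hcon)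
  apply surj_of_ne (φ.comp H.subtype)
  refine ⟨⟨x, hxH⟩, ?_⟩
  show φ x ≠ 1
  obtain ⟨v, n, rfl⟩ := hpow x hx
  rw [map_zpow, hφ]
  intro h0
  have h1 : n = 0 := by
    have h2 := congrArg Multiplicative.toAdd h0
    rw [toAdd_zpow, toAdd_one, toAdd_ofAdd, smul_eq_mul, mul_one] at h2
    exact h2
  rw [h1, zpow_zero] at hx
  exact hx rfl

end Pool.Agent.H10.Inj.One
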