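import Pool.Agent.H10.Inj.Def

/-!
# Stub PART: the partition of an injective labelled oriented forest
-/

set_option autoImplicit false
set_option linter.unusedSectionVars false

namespace Pool.Agent.H10.Inj.Part

open Finset

variable {V E : Type} [Fintype V] [DecidableEq V] [Fintype E] [DecidableEq E]

/-- the edges with both ends and the label in `B` -/
def inE (L : LOG V E) (B : Finset V) : Finset E :=
  univ.filter fun e => L.ini e ∈ B ∧ L.ter e ∈ B ∧ L.lab e ∈ B

/-- tight sets of vertices -/
def Tight (L : LOG V E) (B : Finset V) : Prop := (inE L B).card + 1 = B.card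

/-- the union of the parts of `f` with index in `U` -/
def fib (f : V → V) (U : Finset V) : Finset V := univ.filter fun v => f v ∈ U

/-- all parts are tight -/
def TP (L : LOG V E) (f : V → V) : Prop := ∀ v, Tight L (fib f {f v})

/-- edges within the parts with index in `U` -/
def inn (L : LOG V E) (f : V → V) (U : Finset V) : Finset E :=
  univ.filter fun e => f (L.ini e) = f (L.ter e) ∧ f (L.ini e) ∈ U

/-- the set of the indices of the parts -/
def parts (f : V → V) : Finset V := univ.image f

lemma mem_fib {f : V → V} {U : Finset V} {v : V} : v ∈ fib f U ↔ f v ∈ U := by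
  rw [fib, mem_filter]; simp

lemma mem_inE {L : LOG V E} {B : Finset V} {e : E} :
    e ∈ inE L B ↔ L.ini e ∈ B ∧ L.ter e ∈ B ∧ L.lab e ∈ B := by
  rw [inE, mem_filter]; simp

lemma mem_inn {L : LOG V E} {f : V → V} {U : Finset V} {e : E} :
    e ∈ inn L f U ↔ f (L.ini e) = f (L.ter e) ∧ f (L.ini e) ∈ U := by
  rw [inn, mem_filter]; simp

lemma mem_parts {f : V → V} {i : V} : i ∈ parts f ↔ ∃ v, f v = i := by
  rw [parts, mem_image]; simp

/-- an edge with both ends in a tight set has its label there -/
lemma tight_lab {L : LOG V E} (hs : Sparse L.ini L.ter) {B : Finset V} (hB : Tight L B) {e : E}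
    (h1 : L.ini e ∈ B) (h2 : L.ter e ∈ B) : L.lab e ∈ B := by
  set D : Finset E := univ.filter fun e => L.ini e ∈ B ∧ L.ter e ∈ B with hD
  have h3 := hs B D ⟨_, h1⟩ (fun e he => (mem_filter.1 he).2)
  have h4 : inE L B ⊆ D := by
    intro x hx
    rw [mem_inE] at hx
    exact mem_filter.2 ⟨mem_univ _, hx.1, hx.2.1⟩
  have h5 : inE L B = D := eq_of_subset_of_card_le h4 (by rw [Tight] at hB; omega)
  have h6 : e ∈ D := mem_filter.2 ⟨mem_univ _, h1, h2⟩
  rw [← h5, mem_inE] at h6
  exact h6.2.2

lemma inner_lab {L : LOG V E} (hs : Sparse L.ini L.ter) {f : V → V} (hf : TP L f) {e : E}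
    (h : f (L.ini e) = f (L.ter e)) : f (L.lab e) = f (L.ini e) := by
  have h1 := tight_lab hs (hf (L.ini e)) (e := e) (mem_fib.2 (mem_singleton_self _))
    (mem_fib.2 (mem_singleton.2 h.symm))
  exact mem_singleton.1 (mem_fib.1 h1)

/-- counting -/
lemma card_inn {L : LOG V E} (hs : Sparse L.ini L.ter) {f : V → V} (hf : TP L f) {U : Finset V}
    (hU : U ⊆ parts f) : (inn L f U).card + U.card = (fib f U).card := by
  have h1 : (fib f U).card = ∑ i ∈ U, (fib f {i}).card := by
    rw [card_eq_sum_card_fiberwise (f := f) (t := U) (fun v hv => mem_fib.1 hv)]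
    refine sum_congr rfl fun i hi => ?_
    congr 1
    ext v
    simp only [mem_filter, mem_fib, mem_singleton]
    constructor
    · exact fun h => h.2
    · exact fun h => ⟨h ▸ hi, h⟩
  have h2 : (inn L f U).card = ∑ i ∈ U, (inE L (fib f {i})).card := by
    rw [card_eq_sum_card_fiberwise (f := fun e => f (L.ini e)) (t := U)
      (fun e he => (mem_inn.1 he).2)]
    refine sum_congr rfl fun i hi => ?_
    congr 1
    ext e
    simp only [mem_filter, mem_inn, mem_inE, mem_fib, mem_singleton]
    constructor
    · rintro ⟨⟨h3, h4⟩, h5⟩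
      exact ⟨h5, h3 ▸ h5, (inner_lab hs hf h3).trans h5⟩
    · rintro ⟨h3, h4, h5⟩
      exact ⟨⟨h3.trans h4.symm, h3 ▸ hi⟩, h3⟩
  rw [h1, h2, card_eq_sum_ones U, ← sum_add_distrib]
  refine sum_congr rfl fun i hi => ?_
  obtain ⟨v, rfl⟩ := mem_parts.1 (hU hi)
  exact hf v

/-- the quotient graph is sparse -/
lemma quot_sparse {L : LOG V E} (hs : Sparse L.ini L.ter) {f : V → V} (hf : TP L f)
    {U : Finset V} (hU : U ⊆ parts f) (hne : U.Nonempty) {D : Finset E}
    (hD : ∀ e ∈ D, f (L.ini e) ≠ f (L.ter e) ∧ f (L.ini e) ∈ U ∧ f (L.ter e) ∈ U) :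
    D.card + 1 ≤ U.card := by
  have hdis : Disjoint D (inn L f U) := by
    rw [disjoint_left]
    intro e h1 h2
    exact (hD e h1).1 (mem_inn.1 h2).1
  obtain ⟨i, hi⟩ := hne
  obtain ⟨v, hv⟩ := mem_parts.1 (hU hi)
  have h1 := hs (fib f U) (D ∪ inn L f U) ⟨v, mem_fib.2 (hv ▸ hi)⟩ (by
    intro e he
    rw [mem_fib, mem_fib]
    rcases mem_union.1 he with he | he
    · exact (hD e he).2
    · rw [mem_inn] at he
      exact ⟨he.2, he.1 ▸ he.2⟩)
  rw [card_union_of_disjoint hdis] at h1
  have h2 := card_inn hs hf hU
  omega

/-- a criterion for tight unions of parts -/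
lemma tight_union {L : LOG V E} (hs : Sparse L.ini L.ter) {f : V → V} (hf : TP L f)
    {U : Finset V} (hU : U ⊆ parts f) (hne : U.Nonempty) {D : Finset E}
    (hD : ∀ e ∈ D, f (L.ini e) ≠ f (L.ter e) ∧ f (L.ini e) ∈ U ∧ f (L.ter e) ∈ U ∧
      f (L.lab e) ∈ U) (hc : U.card ≤ D.card + 1) : Tight L (fib f U) := by
  have hdis : Disjoint D (inn L f U) := by
    rw [disjoint_left]
    intro e h1 h2
    exact (hD e h1).1 (mem_inn.1 h2).1
  have hsub : D ∪ inn L f U ⊆ inE L (fib f U) := by
    intro e he
    rw [mem_inE, mem_fib, mem_fib, mem_fib]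
    rcases mem_union.1 he with he | he
    · exact (hD e he).2
    · rw [mem_inn] at he
      have := inner_lab hs hf he.1
      exact ⟨he.2, he.1 ▸ he.2, this ▸ he.2⟩
  have h1 := card_le_card hsub
  rw [card_union_of_disjoint hdis] at h1
  have h2 := card_inn hs hf hU
  obtain ⟨i, hi⟩ := hne
  obtain ⟨v, hv⟩ := mem_parts.1 (hU hi)
  have h3 := hs (fib f U) (inE L (fib f U)) ⟨v, mem_fib.2 (hv ▸ hi)⟩
    (fun e he => ⟨(mem_inE.1 he).1, (mem_inE.1 he).2.1⟩)
  rw [Tight]
  omega

/-- merging parts -/
lemma merge {L : LOG V E} {f : V → V} (hf : TP L f)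
    (hmin : ∀ g : V → V, TP L g → 2 ≤ (parts g).card → (parts f).card ≤ (parts g).card)
    {U : Finset V} (hU : U ⊆ parts f) (h2 : 2 ≤ U.card) (hT : Tight L (fib f U)) :
    U = parts f := by
  by_contra hne
  obtain ⟨u0, hu0⟩ := card_pos.1 (show 0 < U.card by omega)
  obtain ⟨i, hiP, hiU⟩ : ∃ i ∈ parts f, i ∉ U := by
    by_contra hcon
    push Not at hcon
    exact hne (hU.antisymm hcon)
  set g : V → V := fun v => if f v ∈ U then u0 else f v with hg
  have hgU : ∀ v, f v ∈ U → g v = u0 := fun v hv => by rw [hg]; simp [hv]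
  have hgn : ∀ v, f v ∉ U → g v = f v := fun v hv => by rw [hg]; simp [hv]
  have hgTP : TP L g := by
    intro v
    by_cases hv : f v ∈ U
    · have : fib g {g v} = fib f U := by
        ext w
        rw [mem_fib, mem_fib, mem_singleton, hgU v hv]
        by_cases hw : f w ∈ U
        · simp [hgU w hw, hw]
        · rw [hgn w hw]
          constructor
          · intro h; rw [h] at hw; exact absurd hu0 hw
          · exact fun h => absurd h hw
      rw [this]
      exact hT
    · have : fib g {g v} = fib f {f v} := by
        ext w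
        rw [mem_fib, mem_fib, mem_singleton, mem_singleton, hgn v hv]
        by_cases hw : f w ∈ U
        · rw [hgU w hw]
          constructor
          · intro h; rw [← h] at hv; exact absurd hu0 hv
          · intro h; rw [h] at hw; exact absurd hw hv
        · rw [hgn w hw]
      rw [this]
      exact hf v
  have hgP : parts g ⊆ insert u0 (parts f \ U) := by
    intro j hj
    obtain ⟨v, rfl⟩ := mem_parts.1 hj
    by_cases hv : f v ∈ U
    · rw [hgU v hv]; exact mem_insert_self _ _
    · rw [hgn v hv]
      exact mem_insert_of_mem (mem_sdiff.2 ⟨mem_parts.2 ⟨v, rfl⟩, hv⟩)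
  have hc1 : (parts g).card < (parts f).card := by
    have h3 := card_le_card hgP
    have h4 := card_insert_le u0 (parts f \ U)
    have h5 := card_sdiff_add_card_eq_card hU
    omega
  have hc2 : 2 ≤ (parts g).card := by
    obtain ⟨v, hv⟩ := mem_parts.1 (hU hu0)
    obtain ⟨w, hw⟩ := mem_parts.1 hiP
    have e1 : u0 ∈ parts g := mem_parts.2 ⟨v, hgU v (hv ▸ hu0)⟩
    have e2 : i ∈ parts g := mem_parts.2 ⟨w, by rw [hgn w (hw ▸ hiU), hw]⟩
    have e3 : u0 ≠ i := fun h => hiU (h ▸ hu0)
    have := card_le_card (show ({u0, i} : Finset V) ⊆ parts g by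
      intro x hx
      rcases mem_insert.1 hx with rfl | hx
      · exact e1
      · rw [mem_singleton.1 hx]; exact e2)
    rw [card_pair e3] at this
    exact this
  have := hmin g hgTP hc2
  omega

/-- every part contains the label of at most one edge between different parts -/
lemma lab_unique {L : LOG V E} (hinj : Function.Injective L.lab) {f : V → V} (hf : TP L f) {e e' : E} (he : f (L.ini e) ≠ f (L.ter e))
    (he' : f (L.ini e') ≠ f (L.ter e')) (h : f (L.lab e) = f (L.lab e')) : e = e' := by
  by_contra hne
  have h1 := hf (L.lab e)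
  rw [Tight] at h1
  have h2 : (insert e (insert e' (inE L (fib f {f (L.lab e)})))).image L.lab ⊆
      fib f {f (L.lab e)} := by
    intro v hv
    obtain ⟨x, hx, rfl⟩ := mem_image.1 hv
    rw [mem_insert, mem_insert] at hx
    rcases hx with rfl | rfl | hx
    · exact mem_fib.2 (mem_singleton_self _)
    · exact mem_fib.2 (mem_singleton.2 h.symm)
    · exact (mem_inE.1 hx).2.2
  have hni : ∀ x : E, f (L.ini x) ≠ f (L.ter x) → ∀ i, x ∉ inE L (fib f {i}) := by
    intro x hx i hmem
    rw [mem_inE, mem_fib, mem_fib, mem_singleton, mem_singleton] at hmem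
    exact hx (hmem.1.trans hmem.2.1.symm)
  have h3 := card_le_card h2
  rw [card_image_of_injective _ hinj, card_insert_of_notMem, card_insert_of_notMem] at h3
  · omega
  · exact hni e' he' _
  · rw [mem_insert, not_or]
    exact ⟨hne, hni e he _⟩

theorem main : S_ARB → S_PART := by
  intro hARB V E _ L hinj hs hV
  classical
  let _ : Fintype E := Fintype.ofInjective L.lab hinj
  -- a partition into the smallest number of tight parts
  have hid : TP L (id : V → V) := by
    intro v
    have h1 : fib (id : V → V) {id v} = {v} := by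
      ext w; rw [mem_fib]; simp
    have h2 : inE L ({v} : Finset V) = ∅ := by
      rw [eq_empty_iff_forall_notMem]
      intro e he
      rw [mem_inE] at he
      have := hs {v} {e} (singleton_nonempty v) (by
        intro x hx
        rw [mem_singleton.1 hx]
        exact ⟨he.1, he.2.1⟩)
      simp at this
    rw [h1, Tight, h2]
    simp
  have hidc : 2 ≤ (parts (id : V → V)).card := by
    have : parts (id : V → V) = univ := by
      ext v; simp [mem_parts]
    rw [this, card_univ]
    exact hV
  obtain ⟨f, hf, hfmin⟩ := exists_min_image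
    ((univ : Finset (V → V)).filter fun f => TP L f ∧ 2 ≤ (parts f).card)
    (fun f => (parts f).card) ⟨id, mem_filter.2 ⟨mem_univ _, hid, hidc⟩⟩
  obtain ⟨-, hfT, hf2⟩ := mem_filter.1 hf
  have hmin : ∀ g : V → V, TP L g → 2 ≤ (parts g).card → (parts f).card ≤ (parts g).card :=
    fun g h1 h2 => hfmin g (mem_filter.2 ⟨mem_univ _, h1, h2⟩)
  have hpart : ∀ v, f v ∈ parts f := fun v => mem_parts.2 ⟨v, rfl⟩
  have hinner : ∀ e, f (L.ini e) = f (L.ter e) → Inner L f e := fun e he =>
    ⟨(inner_lab hs hfT he).symm, he ▸ (inner_lab hs hfT he).symm⟩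
  by_cases hcase : ∃ e₀, f (L.ini e₀) ≠ f (L.ter e₀) ∧
      (f (L.lab e₀) = f (L.ini e₀) ∨ f (L.lab e₀) = f (L.ter e₀))
  · obtain ⟨e₀, h1, h2⟩ := hcase
    right
    set U : Finset V := {f (L.ini e₀), f (L.ter e₀)} with hU
    have hUP : U ⊆ parts f := by
      intro x hx
      rw [hU, mem_insert, mem_singleton] at hx
      rcases hx with rfl | rfl <;> exact hpart _
    have hUc : U.card = 2 := card_pair h1
    have hi : f (L.ini e₀) ∈ U := by simp [hU]
    have ht : f (L.ter e₀) ∈ U := by simp [hU]
    have hl : f (L.lab e₀) ∈ U := by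
      rcases h2 with h2 | h2
      · rw [h2]; exact hi
      · rw [h2]; exact ht
    have hT := tight_union hs hfT hUP ⟨_, hi⟩ (D := {e₀}) (by
      intro e he
      rw [mem_singleton.1 he]
      exact ⟨h1, hi, ht, hl⟩) (by rw [hUc, card_singleton])
    have hUeq := merge hfT hmin hUP (by omega) hT
    refine ⟨fun v => decide (f v = f (L.ini e₀)), e₀, ?_, ?_⟩
    · simp only [decide_true]
      intro h
      exact h1 (of_decide_eq_true h.symm).symm
    · intro e he
      have h3 : f (L.ini e) = f (L.ter e) := by
        by_contra hne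
        have h4 := quot_sparse hs hfT (U := U) hUP ⟨_, hi⟩ (D := {e, e₀}) (by
          intro x hx
          rw [mem_insert, mem_singleton] at hx
          rcases hx with rfl | rfl
          · exact ⟨hne, hUeq ▸ hpart _, hUeq ▸ hpart _⟩
          · exact ⟨h1, hi, ht⟩)
        rw [card_pair he, hUc] at h4
        omega
      have h4 := hinner e h3
      exact ⟨by simp only [h4.1], by simp only [h4.2]⟩
  · left
    push Not at hcase
    have houter : ∀ e, f (L.ini e) ≠ f (L.ter e) → Outer L f e := fun e he =>
      ⟨fun h => (hcase e he).1 h.symm, fun h => (hcase e he).2 h.symm⟩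
    -- the edge of a part
    set NI : Finset E := univ.filter fun e => f (L.ini e) ≠ f (L.ter e) with hNI
    have mNI : ∀ e, e ∈ NI ↔ f (L.ini e) ≠ f (L.ter e) := fun e => by
      rw [hNI, mem_filter]; simp
    set K : Finset V := NI.image fun e => f (L.lab e) with hK
    have hKex : ∀ k ∈ K, ∃ e, e ∈ NI ∧ f (L.lab e) = k := fun k hk => mem_image.1 hk
    rcases isEmpty_or_nonempty E with hE | hE
    · refine ⟨V, f, fun _ => true, ?_, ?_, ?_⟩
      · intro i
        by_contra hcon
        push Not at hcon
        have : parts f ⊆ {i} := by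
          intro j hj
          obtain ⟨v, rfl⟩ := mem_parts.1 hj
          exact mem_singleton.2 (hcon v)
        have := card_le_card this
        rw [card_singleton] at this
        omega
      · exact fun e => isEmptyElim e
      · intro c B D hBne _
        have : D = ∅ := eq_empty_of_forall_notMem fun e => isEmptyElim e
        rw [this, card_empty]
        have := hBne.card_pos
        omega
    choose! ed hed1 hed2 using hKex
    have hKP : K ⊆ parts f := by
      intro k hk
      rw [← hed2 k hk]
      exact hpart _
    set a : V → V := fun k => f (L.ini (ed k)) with ha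
    set b : V → V := fun k => f (L.ter (ed k)) with hb
    have hcut : ∀ U : Finset V, U ⊆ K → U.Nonempty →
        (U.filter fun k => a k ∈ U).card + (U.filter fun k => b k ∈ U).card + 2 ≤ 2 * U.card := by
      intro U hUK hne
      have hUP : U ⊆ parts f := hUK.trans hKP
      have hedinj : Set.InjOn ed (U : Set V) := by
        intro x hx y hy h
        rw [← hed2 x (hUK hx), ← hed2 y (hUK hy), h]
      set A := U.filter fun k => a k ∈ U with hA
      set B := U.filter fun k => b k ∈ U with hB
      have hAB : (A ∩ B).card + 1 ≤ U.card := by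
        have h1 := quot_sparse hs hfT hUP hne (D := (A ∩ B).image ed) (by
          intro e he
          obtain ⟨k, hk, rfl⟩ := mem_image.1 he
          obtain ⟨hk1, hk2⟩ := mem_inter.1 hk
          rw [hA, mem_filter] at hk1
          rw [hB, mem_filter] at hk2
          exact ⟨(mNI _).1 (hed1 k (hUK hk1.1)), hk1.2, hk2.2⟩)
        rwa [card_image_of_injOn (hedinj.mono (by
          intro k hk
          exact (mem_filter.1 (mem_inter.1 hk).1).1))] at h1
      have hun : (A ∪ B).card ≤ U.card :=
        card_le_card (union_subset (filter_subset _ _) (filter_subset _ _))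
      have hsum := card_union_add_card_inter A B
      by_contra hlt
      have h3 : (A ∩ B).card + 1 = U.card := by omega
      have h4 : (A ∪ B).card = U.card := by omega
      have hT := tight_union hs hfT hUP hne (D := (A ∩ B).image ed) (by
          intro e he
          obtain ⟨k, hk, rfl⟩ := mem_image.1 he
          obtain ⟨hk1, hk2⟩ := mem_inter.1 hk
          rw [hA, mem_filter] at hk1
          rw [hB, mem_filter] at hk2
          refine ⟨(mNI _).1 (hed1 k (hUK hk1.1)), hk1.2, hk2.2, ?_⟩
          rw [hed2 k (hUK hk1.1)]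
          exact hk1.1) (by
        rw [card_image_of_injOn (hedinj.mono (by
          intro k hk
          exact (mem_filter.1 (mem_inter.1 hk).1).1))]
        omega)
      -- a vertex of `U` with exactly one of the arcs inside
      obtain ⟨k, hkU, hkn⟩ : ∃ k ∈ U, k ∉ A ∩ B := by
        by_contra hcon
        push Not at hcon
        have := card_le_card (show U ⊆ A ∩ B from hcon)
        omega
      have hUne : U ≠ parts f := by
        intro h
        refine hkn (mem_inter.2 ⟨mem_filter.2 ⟨hkU, ?_⟩, mem_filter.2 ⟨hkU, ?_⟩⟩)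
        · rw [h]; exact hpart _
        · rw [h]; exact hpart _
      by_cases h2U : 2 ≤ U.card
      · exact hUne (merge hfT hmin hUP h2U hT)
      · have h5 : U.card = 1 := by
          have := hne.card_pos
          omega
        obtain ⟨u, hu⟩ := card_eq_one.1 h5
        have h6 : (A ∪ B).Nonempty := card_pos.1 (by omega)
        obtain ⟨k', hk'⟩ := h6
        have hk'U : k' ∈ U := union_subset (filter_subset _ _) (filter_subset _ _) hk'
        have hk'u : k' = u := by rw [hu] at hk'U; exact mem_singleton.1 hk'U
        have ho := houter (ed k') ((mNI _).1 (hed1 k' (hUK hk'U)))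
        rw [Outer, hed2 k' (hUK hk'U)] at ho
        rcases mem_union.1 hk' with h | h
        · have := (mem_filter.1 h).2
          rw [hu, mem_singleton] at this
          exact ho.1 (this.trans hk'u.symm)
        · have := (mem_filter.1 h).2
          rw [hu, mem_singleton] at this
          exact ho.2 (this.trans hk'u.symm)
    obtain ⟨σ, hσ⟩ := hARB V K a b hcut
    refine ⟨V, f, σ, ?_, ?_, ?_⟩
    · intro i
      by_contra hcon
      push Not at hcon
      have : parts f ⊆ {i} := by
        intro j hj
        obtain ⟨v, rfl⟩ := mem_parts.1 hj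
        exact mem_singleton.2 (hcon v)
      have := card_le_card this
      rw [card_singleton] at this
      omega
    · intro e
      by_cases h : f (L.ini e) = f (L.ter e)
      · exact Or.inl (hinner e h)
      · exact Or.inr (houter e h)
    · intro c B D hBne hD
      by_contra hlt
      have hNID : ∀ e ∈ D, e ∈ NI := by
        intro e he
        rw [mNI]
        intro h
        have h1 := (hD e he).1
        exact h1.1 (hinner e h).1
      have hinjD : Set.InjOn (fun e => f (L.lab e)) (D : Set E) := by
        intro x hx y hy h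
        exact lab_unique hinj hfT ((mNI x).1 (hNID x hx)) ((mNI y).1 (hNID y hy)) h
      have himg : D.image (fun e => f (L.lab e)) ⊆ B := by
        intro j hj
        obtain ⟨e, he, rfl⟩ := mem_image.1 hj
        exact (hD e he).2.1
      have heq : D.image (fun e => f (L.lab e)) = B := by
        refine eq_of_subset_of_card_le himg ?_
        rw [card_image_of_injOn hinjD]
        omega
      have hBK : B ⊆ K := by
        rw [← heq]
        exact image_subset_image hNID
      have hmem : ∀ k ∈ B, (if σ k = c then a k else b k) ∈ B := by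
        intro k hk
        rw [← heq] at hk
        obtain ⟨e, he, hek⟩ := mem_image.1 hk
        have hkK : k ∈ K := mem_image.2 ⟨e, hNID e he, hek⟩
        have hee : ed k = e := lab_unique hinj hfT ((mNI _).1 (hed1 k hkK))
          ((mNI e).1 (hNID e he)) (by rw [hed2 k hkK, hek])
        have h1 := (hD e he).2.2
        rw [hek] at h1
        show (if σ k = c then f (L.ini (ed k)) else f (L.ter (ed k))) ∈ B
        rw [hee]
        exact h1
      obtain ⟨⟨k1, hk1, hk1'⟩, ⟨k2, hk2, hk2'⟩⟩ := hσ B hBK hBne
      rcases c with _ | _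
      · have := hmem k2 hk2
        rcases hs2 : σ k2 with _ | _ <;> rw [hs2] at this hk2' <;> simp_all
      · exact hk1' (hmem k1 hk1)

end Pool.Agent.H10.Inj.Part
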