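import Pool.Agent.H10.Inj.Def

/-!
# TREE: a connected graph with one vertex more than edges is a forest
-/

set_option autoImplicit false

namespace Pool.Agent.H10.Inj.Tree

open Relation

variable {V E : Type}

/-- leaving a set -/
lemma exit (L : LOG V E) (B : Finset V) {x y : V} (h : ReflTransGen L.Adj x y) (hx : x ∈ B)
    (hy : y ∉ B) : ∃ u ∈ B, ∃ w, w ∉ B ∧ L.Adj u w := by
  induction h with
  | refl => exact absurd hx hy
  | tail hab hbc ih =>
    rename_i b c
    by_cases hb : b ∈ B
    · exact ⟨b, hb, c, hy, hbc⟩
    · exact ih hb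

theorem main : S_TREE := by
  classical
  intro V E _ _ L hL hcard B D hB hD
  have key : ∀ (n : ℕ) (B : Finset V), B.Nonempty → B.card + n = Fintype.card V →
      (Finset.univ.filter fun e : E => L.ini e ∈ B ∧ L.ter e ∈ B).card + n ≤ Fintype.card E := by
    intro n
    induction n with
    | zero =>
      intro B _ _
      rw [add_zero]
      exact Finset.card_le_univ _
    | succ n ih =>
      intro B hB hn
      obtain ⟨x, hx⟩ := hB
      have hy : ∃ y, y ∉ B := by
        by_contra hcon
        push Not at hcon
        have : B = Finset.univ := Finset.eq_univ_iff_forall.mpr hcon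
        rw [this, Finset.card_univ] at hn
        omega
      obtain ⟨y, hy⟩ := hy
      obtain ⟨u, hu, w, hw, e, he⟩ := exit L B (hL x y) hx hy
      have h1 := ih (insert w B) ⟨w, Finset.mem_insert_self _ _⟩ (by
        rw [Finset.card_insert_of_notMem hw]
        omega)
      have h2 : (Finset.univ.filter fun e : E => L.ini e ∈ B ∧ L.ter e ∈ B).card + 1
          ≤ (Finset.univ.filter fun e : E => L.ini e ∈ insert w B ∧ L.ter e ∈ insert w B).card := by
        have h3 : e ∉ Finset.univ.filter fun e : E => L.ini e ∈ B ∧ L.ter e ∈ B := by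
          rw [Finset.mem_filter]
          rintro ⟨_, h4, h5⟩
          rcases he with ⟨rfl, rfl⟩ | ⟨rfl, rfl⟩
          · exact hw h5
          · exact hw h4
        rw [← Finset.card_insert_of_notMem h3]
        apply Finset.card_le_card
        intro e' he'
        rw [Finset.mem_insert, Finset.mem_filter] at he'
        rw [Finset.mem_filter]
        refine ⟨Finset.mem_univ _, ?_⟩
        rcases he' with rfl | ⟨_, h4, h5⟩
        · rcases he with ⟨rfl, rfl⟩ | ⟨rfl, rfl⟩
          · exact ⟨Finset.mem_insert_of_mem hu, Finset.mem_insert_self _ _⟩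
          · exact ⟨Finset.mem_insert_self _ _, Finset.mem_insert_of_mem hu⟩
        · exact ⟨Finset.mem_insert_of_mem h4, Finset.mem_insert_of_mem h5⟩
      omega
  have h1 : B.card ≤ Fintype.card V := Finset.card_le_univ _
  have h2 := key (Fintype.card V - B.card) B hB (by omega)
  have h3 : D.card ≤ (Finset.univ.filter fun e : E => L.ini e ∈ B ∧ L.ter e ∈ B).card := by
    apply Finset.card_le_card
    intro e he
    exact Finset.mem_filter.mpr ⟨Finset.mem_univ _, hD e he⟩
  omega

end Pool.Agent.H10.Inj.Tree
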