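import Pool.Agent.H10.Inj.Emb2
import Pool.Agent.H10.Inj.One
import Pool.Agent.H10.Inj.Tree
import Pool.Agent.H10.Inj.Thick
import Pool.Agent.H10.Inj.Lin
import Pool.Agent.H10.Inj.Count
import Pool.Agent.H10.Inj.Arb
import Pool.Agent.H10.Inj.Part

/-!
# The block theorem and its consequences
-/

set_option autoImplicit false

namespace Pool.Agent.H10.Inj

open Relation

variable {V E I : Type}

theorem rel_thm : S_REL := Rel.main Data.main Thick.main Lin.main Count.main

theorem ama_thm : S_AMA := Ama.main One.main rel_thm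

theorem part_thm : S_PART := Part.main Arb.main

/-- The block theorem. -/
theorem block_thm (L : LOG V E) (bl : V → I) (h : Blocks.InjForest L bl)
    (hloc : ∀ i, LocInd (L.blk bl i).G) :
    LocInd L.G ∧ ∀ i, Function.Injective (Rel.blkHom L bl i) :=
  ⟨Blocks.main rel_thm ama_thm part_thm Data.main Thick.main L bl h hloc,
    Emb.main_inj rel_thm ama_thm part_thm Thick.main Lin.main Count.main One.main L bl h hloc⟩

/-- The relative theorem. -/
theorem signed_thm (L : LOG V E) (bl : V → I) (ε : I → Bool) (h : Signed L bl ε)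
    (hloc : ∀ i, LocInd (L.blk bl i).G) :
    LocInd L.G ∧ ∀ i, Function.Injective (Rel.blkHom L bl i) :=
  ⟨rel_thm V E I L bl ε h hloc, Emb.signed_inj Thick.main Lin.main Count.main L bl ε h hloc⟩

theorem ne_of_sparse {L : LOG V E} (h : Sparse L.ini L.ter) (e : E) : L.ini e ≠ L.ter e := by
  intro he
  have h1 := h {L.ini e} {e} (Finset.singleton_nonempty _) (by
    intro e' he'
    rw [Finset.mem_singleton] at he'
    subst he'
    exact ⟨Finset.mem_singleton_self _, by rw [← he]; exact Finset.mem_singleton_self _⟩)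
  simp at h1

/-- Forests with injective labels. -/
theorem forest_thm (L : LOG V E) (hinj : Function.Injective L.lab) (hsp : Sparse L.ini L.ter) :
    LocInd L.G := by
  refine (block_thm L id ⟨fun e e' _ _ h => hinj h, fun B D hB hD => hsp B D hB fun e he =>
    (hD e he).2⟩ fun i => ?_).1
  refine One.main _ _ _ ⟨fun x y => Subtype.ext (x.2.trans y.2.symm)⟩ ⟨fun e => ?_⟩
  exact ne_of_sparse hsp e.1 (e.2.1.trans e.2.2.1.symm)

theorem blk_inj {L : LOG V E} (hinj : Function.Injective L.lab) (bl : V → I) (i : I) :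
    Function.Injective (L.blk bl i).lab := by
  intro e e' h
  exact Subtype.ext (hinj (congrArg Subtype.val h))

theorem sparse_map {V' E' : Type} {a b : E → V} {a' b' : E' → V'} (α : V' → V) (β : E' → E)
    (hα : Function.Injective α) (hβ : Function.Injective β) (h1 : ∀ e, a (β e) = α (a' e))
    (h2 : ∀ e, b (β e) = α (b' e)) (h : Sparse a b) : Sparse a' b' := by
  classical
  intro B D hB hD
  have h3 := h (B.image α) (D.image β) (hB.image _) (by
    intro e he
    obtain ⟨e', he', rfl⟩ := Finset.mem_image.1 he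
    rw [h1, h2]
    exact ⟨Finset.mem_image_of_mem _ (hD e' he').1, Finset.mem_image_of_mem _ (hD e' he').2⟩)
  rwa [Finset.card_image_of_injective _ hα, Finset.card_image_of_injective _ hβ] at h3

theorem blk_sparse {L : LOG V E} (hsp : Sparse L.ini L.ter) (bl : V → I) (i : I) :
    Sparse (L.blk bl i).ini (L.blk bl i).ter :=
  sparse_map Subtype.val Subtype.val Subtype.val_injective Subtype.val_injective
    (fun _ => rfl) (fun _ => rfl) hsp

/-- The ends and the labels of the edges of `E₁` belong to `V₁`. -/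
def LOG.Closed (L : LOG V E) (V₁ : Set V) (E₁ : Set E) : Prop :=
  ∀ e ∈ E₁, L.ini e ∈ V₁ ∧ L.ter e ∈ V₁ ∧ L.lab e ∈ V₁

/-- The part of `L` with the vertices `V₁` and the edges `E₁`. The complexes of these graphs are the
subcomplexes of `K(L)`. -/
def LOG.sub (L : LOG V E) (V₁ : Set V) (E₁ : Set E) (h : L.Closed V₁ E₁) : LOG V₁ E₁ where
  ini e := ⟨L.ini e.1, (h e.1 e.2).1⟩
  ter e := ⟨L.ter e.1, (h e.1 e.2).2.1⟩
  lab e := ⟨L.lab e.1, (h e.1 e.2).2.2⟩

/-- The homomorphism induced by the inclusion of a part. -/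
noncomputable def LOG.subHom (L : LOG V E) (V₁ : Set V) (E₁ : Set E) (h : L.Closed V₁ E₁) :
    (L.sub V₁ E₁ h).G →* L.G :=
  PresentedGroup.toGroup (f := fun v => L.gen v.1) (by
    rintro _ ⟨e, rfl⟩
    have h := Inf.gen_rel L e.1
    simp only [LOG.rel, map_mul, map_inv, FreeGroup.lift_apply_of]
    rw [mul_inv_eq_one, mul_inv_eq_iff_eq_mul]
    exact h)

theorem subHom_gen (L : LOG V E) (V₁ : Set V) (E₁ : Set E) (h : L.Closed V₁ E₁) (v : V₁) :
    L.subHom V₁ E₁ h ((L.sub V₁ E₁ h).gen v) = L.gen v.1 :=
  PresentedGroup.toGroup.of _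

/-- Subcomplexes with injective labels -/
theorem sub_thm (L : LOG V E) (hsp : Sparse L.ini L.ter) (V₁ : Set V) (E₁ : Set E)
    (h : L.Closed V₁ E₁) (hinj : Set.InjOn L.lab E₁) : LocInd (L.sub V₁ E₁ h).G := by
  refine forest_thm _ ?_ (sparse_map (Subtype.val : V₁ → V) (Subtype.val : E₁ → E)
    Subtype.val_injective Subtype.val_injective (fun _ => rfl) (fun _ => rfl) hsp)
  intro e e' he
  exact Subtype.ext (hinj e.2 e'.2 (congrArg Subtype.val he))

/-- the partition into the part `V₁` and points -/
def pt (V₁ : Finset V) [DecidableEq V] (v : V) : Option {v : V // v ∉ V₁} :=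
  if h : v ∈ V₁ then none else some ⟨v, h⟩

theorem pt_eq_none [DecidableEq V] {V₁ : Finset V} {v : V} : pt V₁ v = none ↔ v ∈ V₁ := by
  unfold pt
  split_ifs with h
  · exact ⟨fun _ => h, fun _ => rfl⟩
  · exact ⟨fun h' => absurd h' (by simp), fun h' => absurd h' h⟩

theorem pt_eq_some [DecidableEq V] {V₁ : Finset V} {v : V} {w : {v : V // v ∉ V₁}} :
    pt V₁ v = some w ↔ v = w.1 := by
  unfold pt
  split_ifs with h
  · constructor
    · intro h'; exact absurd h' (by simp)
    · intro h'; rw [h'] at h; exact absurd h w.2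
  · rw [Option.some_inj]
    exact ⟨fun h' => congrArg Subtype.val h', fun h' => Subtype.ext h'⟩

/-- Tight subforests embed. -/
theorem tight_thm (L : LOG V E) (hinj : Function.Injective L.lab) (hsp : Sparse L.ini L.ter)
    (V₁ : Finset V) (E₁ : Finset E) (h : L.Closed V₁ E₁) (hc : V₁.card = E₁.card + 1) :
    Function.Injective (L.subHom V₁ E₁ h) := by
  classical
  have hmax : ∀ e, L.ini e ∈ V₁ → L.ter e ∈ V₁ → e ∈ E₁ := by
    intro e h1 h2
    by_contra hne
    have h3 := hsp V₁ (insert e E₁) (by rw [← Finset.card_pos]; omega) (by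
      intro e' he'
      rcases Finset.mem_insert.1 he' with rfl | he'
      · exact ⟨h1, h2⟩
      · exact ⟨(h e' he').1, (h e' he').2.1⟩)
    rw [Finset.card_insert_of_notMem hne] at h3
    omega
  have hinner : ∀ e, Inner L (pt V₁) e ↔ e ∈ E₁ := by
    intro e
    constructor
    · rintro ⟨h1, h2⟩
      by_cases hl : L.lab e ∈ V₁
      · rw [pt_eq_none.2 hl, pt_eq_none] at h1 h2
        exact hmax e h1 h2
      · have h3 : pt V₁ (L.lab e) = some ⟨L.lab e, hl⟩ := pt_eq_some.2 rfl
        rw [h3, pt_eq_some] at h1 h2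
        exact absurd (h1.trans h2.symm) (ne_of_sparse hsp e)
    · intro he
      obtain ⟨h1, h2, h3⟩ := h e he
      constructor
      · rw [pt_eq_none.2 h1, pt_eq_none.2 h3]
      · rw [pt_eq_none.2 h2, pt_eq_none.2 h3]
  have hIF : Blocks.InjForest L (pt V₁) := by
    constructor
    · intro e e' he he' hl
      rw [hinner] at he he'
      by_cases h1 : L.lab e ∈ V₁
      · have h2 : L.lab e' ∈ V₁ := by rw [pt_eq_none.2 h1] at hl; exact pt_eq_none.1 hl.symm
        by_contra hne
        have h3 : ((insert e (insert e' E₁)).image L.lab).card ≤ V₁.card := by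
          apply Finset.card_le_card
          intro x hx
          obtain ⟨y, hy, rfl⟩ := Finset.mem_image.1 hx
          rcases Finset.mem_insert.1 hy with rfl | hy
          · exact h1
          rcases Finset.mem_insert.1 hy with rfl | hy
          · exact h2
          · exact (h y hy).2.2
        rw [Finset.card_image_of_injective _ hinj, Finset.card_insert_of_notMem (by
          rw [Finset.mem_insert, not_or]
          exact ⟨hne, he⟩), Finset.card_insert_of_notMem he'] at h3
        omega
      · have h3 : pt V₁ (L.lab e) = some ⟨L.lab e, h1⟩ := pt_eq_some.2 rfl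
        rw [h3] at hl
        exact hinj (pt_eq_some.1 hl.symm).symm
    · intro B D hB hD
      have hcB : ((Finset.eraseNone B).image Subtype.val).card = (B.erase none).card := by
        rw [Finset.card_image_of_injective _ Subtype.val_injective,
          Finset.card_eraseNone_eq_card_erase]
      have hmemB : ∀ v : V, v ∉ V₁ → pt V₁ v ∈ B →
          v ∈ (Finset.eraseNone B).image Subtype.val := by
        intro v hv hb
        have h3 : pt V₁ v = some ⟨v, hv⟩ := pt_eq_some.2 rfl
        rw [h3] at hb
        exact Finset.mem_image.2 ⟨⟨v, hv⟩, Finset.mem_eraseNone.2 hb, rfl⟩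
      by_cases hn : none ∈ B
      · have hdisjV : Disjoint V₁ ((Finset.eraseNone B).image Subtype.val) := by
          rw [Finset.disjoint_left]
          intro v hv hv'
          obtain ⟨w, _, rfl⟩ := Finset.mem_image.1 hv'
          exact w.2 hv
        have hdisjE : Disjoint E₁ D := by
          rw [Finset.disjoint_left]
          intro e he he'
          exact (hD e he').1 ((hinner e).2 he)
        have hmemV : ∀ v : V, pt V₁ v ∈ B → v ∈ V₁ ∪ (Finset.eraseNone B).image Subtype.val := by
          intro v hv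
          by_cases h1 : v ∈ V₁
          · exact Finset.mem_union_left _ h1
          · exact Finset.mem_union_right _ (hmemB v h1 hv)
        have h3 := hsp (V₁ ∪ (Finset.eraseNone B).image Subtype.val) (E₁ ∪ D) (by
          rw [← Finset.card_pos, Finset.card_union_of_disjoint hdisjV]; omega) (by
          intro e he
          rcases Finset.mem_union.1 he with he | he
          · exact ⟨Finset.mem_union_left _ (h e he).1, Finset.mem_union_left _ (h e he).2.1⟩
          · exact ⟨hmemV _ (hD e he).2.1, hmemV _ (hD e he).2.2⟩)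
        rw [Finset.card_union_of_disjoint hdisjV, Finset.card_union_of_disjoint hdisjE, hcB,
          Finset.card_erase_of_mem hn] at h3
        have := Finset.card_pos.2 hB
        omega
      · have h3 := hsp ((Finset.eraseNone B).image Subtype.val) D (by
          rw [← Finset.card_pos, hcB, Finset.erase_eq_of_notMem hn]
          exact Finset.card_pos.2 hB) (by
          intro e he
          obtain ⟨_, h4, h5⟩ := hD e he
          refine ⟨hmemB _ (fun h6 => hn ?_) h4, hmemB _ (fun h6 => hn ?_) h5⟩
          · rwa [pt_eq_none.2 h6] at h4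
          · rwa [pt_eq_none.2 h6] at h5)
        rwa [hcB, Finset.erase_eq_of_notMem hn] at h3
  have hblk := (block_thm L (pt V₁) hIF fun i => forest_thm _ (blk_inj hinj _ i)
    (blk_sparse hsp _ i)).2 none
  -- the part is the block `none`
  have hE : ∀ e : {e : E // pt V₁ (L.ini e) = none ∧ pt V₁ (L.ter e) = none ∧
      pt V₁ (L.lab e) = none}, e.1 ∈ E₁ := fun e =>
    hmax _ (pt_eq_none.1 e.2.1) (pt_eq_none.1 e.2.2.1)
  let μ : (L.sub V₁ E₁ h).G →* (L.blk (pt V₁) none).G :=
    Emb.mapHom (L.sub V₁ E₁ h) (L.blk (pt V₁) none) (fun v => ⟨v.1, pt_eq_none.2 v.2⟩)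
      (fun e => ⟨e.1, pt_eq_none.2 (h e.1 e.2).1, pt_eq_none.2 (h e.1 e.2).2.1,
        pt_eq_none.2 (h e.1 e.2).2.2⟩) (fun _ => rfl) (fun _ => rfl) (fun _ => rfl)
  have hμ : Function.Injective μ :=
    Emb.mapHom_inj _ _ _ _ (fun v => ⟨v.1, pt_eq_none.1 v.2⟩) (fun e => ⟨e.1, hE e⟩) _ _ _
      (fun _ => rfl) (fun _ => rfl) (fun _ => rfl) (fun _ => rfl)
  have hcomp : (Rel.blkHom L (pt V₁) none).comp μ = L.subHom V₁ E₁ h := by
    apply Emb.hom_ext'
    intro v
    rw [MonoidHom.comp_apply, Emb.mapHom_gen, Rel.blkHom_gen, subHom_gen]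
  rw [← hcomp]
  exact hblk.comp hμ

/-- The boundary of the 2-chain `∑ n_e e + m f` of the complex `K(L) ∪ f`, where the 2-cell `f` is
attached along the loop `v₀`. -/
noncomputable def LOG.bd (L : LOG V E) (v₀ : V) (n : E →₀ ℤ) (m : ℤ) : V →₀ ℤ :=
  n.sum (fun e k => Finsupp.single (L.ini e) k - Finsupp.single (L.ter e) k) +
    Finsupp.single v₀ m

/-- The 2-complex `K(L) ∪ f`, where the 2-cell `f` is attached along the loop `v₀`, is contractible:
its fundamental group is trivial and its boundary operator `C₂ → C₁` is injective. -/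
def LOG.ContractibleWith (L : LOG V E) (v₀ : V) : Prop :=
  Subsingleton (PresentedGroup (Set.range L.rel ∪ {FreeGroup.of v₀})) ∧
    ∀ (n : E →₀ ℤ) (m : ℤ), L.bd v₀ n m = 0 → n = 0 ∧ m = 0

theorem trivial_group (L : LOG V E) (hL : L.Conn) (v₀ : V) :
    Subsingleton (PresentedGroup (Set.range L.rel ∪ {FreeGroup.of v₀})) := by
  set R : Set (FreeGroup V) := Set.range L.rel ∪ {FreeGroup.of v₀} with hR
  have h0 : (PresentedGroup.of v₀ : PresentedGroup R) = 1 :=
    PresentedGroup.one_of_mem (rels := R) (Or.inr rfl)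
  have hrel : ∀ e, (PresentedGroup.of (L.ini e) : PresentedGroup R) * PresentedGroup.of (L.lab e) =
      PresentedGroup.of (L.lab e) * PresentedGroup.of (L.ter e) := by
    intro e
    have h1 : PresentedGroup.mk R (L.rel e) = 1 :=
      PresentedGroup.one_of_mem (rels := R) (Or.inl ⟨e, rfl⟩)
    unfold LOG.rel at h1
    simp only [map_mul, map_inv] at h1
    rw [mul_inv_eq_one, mul_inv_eq_iff_eq_mul] at h1
    exact h1
  have hone : ∀ v : V, (PresentedGroup.of v : PresentedGroup R) = 1 := by
    intro v
    induction hL v₀ v with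
    | refl => exact h0
    | tail _ hadj ih =>
      obtain ⟨e, ⟨h1, h2⟩ | ⟨h1, h2⟩⟩ := hadj
      · have h3 := hrel e
        rw [h1, h2, ih, one_mul] at h3
        exact (mul_eq_left.1 h3.symm)
      · have h3 := hrel e
        rw [h1, h2, ih, mul_one] at h3
        exact (mul_eq_right.1 h3)
  refine ⟨fun g h => ?_⟩
  have hall : ∀ g : PresentedGroup R, g = 1 := by
    intro g
    obtain ⟨w, rfl⟩ := PresentedGroup.mk_surjective R g
    have h2 : PresentedGroup.mk R = 1 := by
      ext v
      exact hone v
    rw [h2]; rfl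
  rw [hall g, hall h]

theorem bd_inj (L : LOG V E) (hsp : Sparse L.ini L.ter) (v₀ : V) (n : E →₀ ℤ) (m : ℤ)
    (h : L.bd v₀ n m = 0) : n = 0 ∧ m = 0 := by
  classical
  have hm : m = 0 := by
    have h1 := congrArg (Finsupp.liftAddHom (fun _ : V => AddMonoidHom.id ℤ)) h
    unfold LOG.bd at h1
    rw [map_add, Finsupp.sum, map_sum] at h1
    simp only [map_sub, Finsupp.liftAddHom_apply_single, AddMonoidHom.id_apply, sub_self,
      Finset.sum_const_zero, zero_add, map_zero] at h1
    exact h1
  subst hm
  refine ⟨?_, rfl⟩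
  by_contra hn
  set D := n.support with hD
  have hDne : D.Nonempty := Finsupp.support_nonempty_iff.2 hn
  set B : Finset V := D.image L.ini ∪ D.image L.ter with hB
  have hcard := hsp B D (by
    obtain ⟨e, he⟩ := hDne
    exact ⟨L.ini e, Finset.mem_union_left _ (Finset.mem_image_of_mem _ he)⟩) (fun e he =>
    ⟨Finset.mem_union_left _ (Finset.mem_image_of_mem _ he),
      Finset.mem_union_right _ (Finset.mem_image_of_mem _ he)⟩)
  have h1 : ∑ v ∈ B, (D.filter fun e => L.ini e = v).card = D.card :=
    (Finset.card_eq_sum_card_fiberwise fun e he =>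
      Finset.mem_union_left _ (Finset.mem_image_of_mem _ he)).symm
  have h2 : ∑ v ∈ B, (D.filter fun e => L.ter e = v).card = D.card :=
    (Finset.card_eq_sum_card_fiberwise fun e he =>
      Finset.mem_union_right _ (Finset.mem_image_of_mem _ he)).symm
  obtain ⟨v, hv, hlt⟩ : ∃ v ∈ B, (D.filter fun e => L.ini e = v).card +
      (D.filter fun e => L.ter e = v).card < 2 := by
    by_contra hcon
    push Not at hcon
    have h3 := Finset.sum_le_sum hcon
    rw [Finset.sum_add_distrib, h1, h2, Finset.sum_const, smul_eq_mul] at h3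
    omega
  have hval := DFunLike.congr_fun h v
  unfold LOG.bd at hval
  rw [Finsupp.single_zero, add_zero, Finsupp.sum, Finsupp.finset_sum_apply, Finsupp.zero_apply,
    ← hD] at hval
  simp only [Finsupp.sub_apply, Finsupp.single_apply, Finset.sum_sub_distrib] at hval
  rw [← Finset.sum_filter, ← Finset.sum_filter] at hval
  have hmem : 1 ≤ (D.filter fun e => L.ini e = v).card + (D.filter fun e => L.ter e = v).card := by
    rcases Finset.mem_union.1 hv with hv | hv
    · obtain ⟨e, he, hev⟩ := Finset.mem_image.1 hv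
      have : 0 < (D.filter fun e => L.ini e = v).card :=
        Finset.card_pos.2 ⟨e, Finset.mem_filter.2 ⟨he, hev⟩⟩
      omega
    · obtain ⟨e, he, hev⟩ := Finset.mem_image.1 hv
      have : 0 < (D.filter fun e => L.ter e = v).card :=
        Finset.card_pos.2 ⟨e, Finset.mem_filter.2 ⟨he, hev⟩⟩
      omega
  have hcases : ((D.filter fun e => L.ini e = v).card = 1 ∧
      (D.filter fun e => L.ter e = v).card = 0) ∨
      ((D.filter fun e => L.ini e = v).card = 0 ∧
      (D.filter fun e => L.ter e = v).card = 1) := by omega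
  rcases hcases with ⟨h3, h4⟩ | ⟨h3, h4⟩
  · obtain ⟨e, he⟩ := Finset.card_eq_one.1 h3
    rw [Finset.card_eq_zero] at h4
    rw [he, h4, Finset.sum_singleton, Finset.sum_empty, sub_zero] at hval
    have : e ∈ D.filter fun e => L.ini e = v := by rw [he]; exact Finset.mem_singleton_self _
    exact (Finsupp.mem_support_iff.1 (Finset.mem_filter.1 this).1) hval
  · obtain ⟨e, he⟩ := Finset.card_eq_one.1 h4
    rw [Finset.card_eq_zero] at h3
    rw [he, h3, Finset.sum_singleton, Finset.sum_empty, zero_sub, neg_eq_zero] at hval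
    have : e ∈ D.filter fun e => L.ter e = v := by rw [he]; exact Finset.mem_singleton_self _
    exact (Finsupp.mem_support_iff.1 (Finset.mem_filter.1 this).1) hval

/-- The complex of a labelled oriented tree is a subcomplex of a contractible complex. -/
theorem contractibleWith (L : LOG V E) (hL : L.Conn) (hsp : Sparse L.ini L.ter) (v₀ : V) :
    L.ContractibleWith v₀ :=
  ⟨trivial_group L hL v₀, fun n m h => bd_inj L hsp v₀ n m h⟩

end Pool.Agent.H10.Inj
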