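import Pool.Agent.H10.Inj.Def

/-!
# INJ-DATA: a finite complex without first rational cohomology which is not developable
-/

set_option autoImplicit false

namespace Pool.Agent.H10.Inj.Data

/-- a nontrivial homomorphism to the integers gives a surjective one -/
theorem surj_of_ne {H : Type} [Group H] (ψ : H →* Multiplicative ℤ) (h : ∃ x, ψ x ≠ 1) :
    ∃ ψ' : H →* Multiplicative ℤ, Function.Surjective ψ' := by
  classical
  let v : H → ℤ := fun x => Multiplicative.toAdd (ψ x)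
  have vmul : ∀ x y, v (x * y) = v x + v y := fun x y => by
    show Multiplicative.toAdd (ψ (x * y)) = _
    rw [map_mul]; rfl
  have vzpow : ∀ (x : H) (n : ℤ), v (x ^ n) = n * v x := fun x n => by
    show Multiplicative.toAdd (ψ (x ^ n)) = _
    rw [map_zpow, toAdd_zpow, smul_eq_mul]
  have hex : ∃ n : ℕ, 0 < n ∧ ∃ x, v x = n := by
    obtain ⟨x, hx⟩ := h
    have hx' : v x ≠ 0 := fun h0 => hx h0
    refine ⟨(v x).natAbs, Int.natAbs_pos.2 hx', ?_⟩
    rcases le_total 0 (v x) with h1 | h1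
    · exact ⟨x, (Int.natAbs_of_nonneg h1).symm⟩
    · refine ⟨x ^ (-1 : ℤ), ?_⟩
      rw [vzpow, Int.ofNat_natAbs_of_nonpos h1]
      ring
  obtain ⟨hpos, x₀, hx₀⟩ := Nat.find_spec hex
  set m := Nat.find hex with hm
  have hdvd : ∀ x, (m : ℤ) ∣ v x := by
    intro x
    by_contra hnd
    have h1 : v (x * x₀ ^ (-(v x / m))) = v x % m := by
      rw [vmul, vzpow, hx₀]
      have := Int.emod_add_mul_ediv (v x) m
      linarith
    have h2 : 0 ≤ v x % m := Int.emod_nonneg _ (by exact_mod_cast hpos.ne')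
    have h3 : v x % m < m := Int.emod_lt_of_pos _ (by exact_mod_cast hpos)
    have h4 : v x % m ≠ 0 := fun h => hnd (Int.dvd_of_emod_eq_zero h)
    have h5 : (v x % m).toNat < m := by
      rw [← Int.ofNat_lt, Int.toNat_of_nonneg h2]; exact h3
    refine Nat.find_min hex h5 ⟨?_, x * x₀ ^ (-(v x / m)), ?_⟩
    · have : 0 < v x % m := lt_of_le_of_ne h2 h4.symm
      omega
    · rw [h1, Int.toNat_of_nonneg h2]
  refine ⟨MonoidHom.mk' (fun x => Multiplicative.ofAdd (v x / m)) ?_, ?_⟩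
  · intro x y
    rw [vmul, Int.add_ediv_of_dvd_left (hdvd x)]
    rfl
  · intro z
    refine ⟨x₀ ^ (Multiplicative.toAdd z), ?_⟩
    show Multiplicative.ofAdd (v (x₀ ^ (Multiplicative.toAdd z)) / m) = z
    rw [vzpow, hx₀, Int.mul_ediv_cancel _ (by exact_mod_cast hpos.ne')]
    rfl

/-! ### the action on the cosets -/

section act

variable {V : Type} (Λ : Subgroup (FreeGroup V))

/-- the permutation of the cosets given by `x⁻¹` -/
def ac (x : V) : Equiv.Perm (FreeGroup V ⧸ Λ) := MulAction.toPerm ((FreeGroup.of x)⁻¹ : FreeGroup V)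

theorem ac_apply (x : V) (p : FreeGroup V ⧸ Λ) : ac Λ x p = (FreeGroup.of x)⁻¹ • p := rfl

theorem path {Γ : Type} [Group Γ] (u : V → Γ) (w : FreeGroup V) :
    ∀ p : FreeGroup V ⧸ Λ, ∃ A : Finset ((FreeGroup V ⧸ Λ) × V),
      ∀ τ : FreeGroup V ⧸ Λ → Γ, (∀ a ∈ A, τ (ac Λ a.2 a.1) = τ a.1 * u a.2) →
        τ (w⁻¹ • p) = τ p * FreeGroup.lift u w := by
  classical
  induction w using FreeGroup.induction_on with
  | C1 => intro p; exact ⟨∅, fun τ _ => by simp⟩
  | of x =>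
    intro p
    refine ⟨{(p, x)}, fun τ h => ?_⟩
    have h1 := h (p, x) (Finset.mem_singleton_self _)
    rw [ac_apply] at h1
    rw [h1, FreeGroup.lift_apply_of]
  | inv_of x ih =>
    intro p
    refine ⟨{(FreeGroup.of x • p, x)}, fun τ h => ?_⟩
    have h1 := h (FreeGroup.of x • p, x) (Finset.mem_singleton_self _)
    rw [ac_apply] at h1
    simp only [inv_smul_smul] at h1
    rw [h1, inv_inv, map_inv, FreeGroup.lift_apply_of, mul_assoc, mul_inv_cancel, mul_one]
  | mul w1 w2 h1 h2 =>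
    intro p
    obtain ⟨A1, hA1⟩ := h1 p
    obtain ⟨A2, hA2⟩ := h2 (w1⁻¹ • p)
    refine ⟨A1 ∪ A2, fun τ h => ?_⟩
    have e1 := hA1 τ fun a ha => h a (Finset.mem_union_left _ ha)
    have e2 := hA2 τ fun a ha => h a (Finset.mem_union_right _ ha)
    rw [mul_inv_rev, mul_smul, e2, e1, map_mul, mul_assoc]

/-! ### the cocycle -/

/-- the permutation of `Ω × ℚ` -/
def th (f : (FreeGroup V ⧸ Λ) × V → ℚ) (x : V) : Equiv.Perm ((FreeGroup V ⧸ Λ) × ℚ) where
  toFun z := (FreeGroup.of x • z.1, z.2 - f (FreeGroup.of x • z.1, x))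
  invFun z := ((FreeGroup.of x)⁻¹ • z.1, z.2 + f (z.1, x))
  left_inv z := by simp
  right_inv z := by simp

/-- the action of the free group on `Ω × ℚ` -/
def Ps (f : (FreeGroup V ⧸ Λ) × V → ℚ) : FreeGroup V →* Equiv.Perm ((FreeGroup V ⧸ Λ) × ℚ) :=
  FreeGroup.lift (th Λ f)

/-- the cocycle -/
def cc (f : (FreeGroup V ⧸ Λ) × V → ℚ) (w : FreeGroup V) (p : FreeGroup V ⧸ Λ) : ℚ :=
  (Ps Λ f w (p, 0)).2

theorem Ps_form (f : (FreeGroup V ⧸ Λ) × V → ℚ) (w : FreeGroup V) :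
    ∀ p q, Ps Λ f w (p, q) = (w • p, q + cc Λ f w p) := by
  induction w using FreeGroup.induction_on with
  | C1 => intro p q; simp [cc]
  | of x =>
    intro p q
    unfold cc Ps
    rw [FreeGroup.lift_apply_of]
    simp only [th, Equiv.coe_fn_mk, zero_sub]
    rw [sub_eq_add_neg]
  | inv_of x ih =>
    intro p q
    unfold cc Ps
    rw [map_inv, FreeGroup.lift_apply_of]
    show (th Λ f x).symm (p, q) = _
    have e : ((th Λ f x)⁻¹ (p, (0 : ℚ))) = (th Λ f x).symm (p, 0) := rfl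
    rw [e]
    simp only [th, Equiv.coe_fn_symm_mk, zero_add]
  | mul w1 w2 h1 h2 =>
    intro p q
    have e : ∀ q, Ps Λ f (w1 * w2) (p, q) = Ps Λ f w1 (Ps Λ f w2 (p, q)) := by
      intro q
      rw [map_mul]
      rfl
    have e2 : cc Λ f (w1 * w2) p = cc Λ f w2 p + cc Λ f w1 (w2 • p) := by
      unfold cc
      rw [e, h2, h1]
      simp [cc]
    rw [e2, e, h2, h1, mul_smul, add_assoc]

theorem cc_mul (f : (FreeGroup V ⧸ Λ) × V → ℚ) (w1 w2 : FreeGroup V) (p : FreeGroup V ⧸ Λ) :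
    cc Λ f (w1 * w2) p = cc Λ f w2 p + cc Λ f w1 (w2 • p) := by
  have e : Ps Λ f (w1 * w2) (p, 0) = Ps Λ f w1 (Ps Λ f w2 (p, 0)) := by
    rw [map_mul]
    rfl
  have e2 : cc Λ f (w1 * w2) p = (Ps Λ f (w1 * w2) (p, 0)).2 := rfl
  rw [e2, e, Ps_form, Ps_form]
  simp

theorem cc_one (f : (FreeGroup V ⧸ Λ) × V → ℚ) (p : FreeGroup V ⧸ Λ) : cc Λ f 1 p = 0 := by
  unfold cc
  simp

theorem cc_of (f : (FreeGroup V ⧸ Λ) × V → ℚ) (x : V) (p : FreeGroup V ⧸ Λ) :
    cc Λ f (FreeGroup.of x) p = - f (FreeGroup.of x • p, x) := by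
  unfold cc Ps
  rw [FreeGroup.lift_apply_of]
  simp [th]

theorem cc_inv (f : (FreeGroup V ⧸ Λ) × V → ℚ) (w : FreeGroup V) (p : FreeGroup V ⧸ Λ) :
    cc Λ f w⁻¹ p = - cc Λ f w (w⁻¹ • p) := by
  have h := cc_mul Λ f w w⁻¹ p
  rw [mul_inv_cancel, cc_one] at h
  linarith

/-- the base point -/
def bs : FreeGroup V ⧸ Λ := ((1 : FreeGroup V) : FreeGroup V ⧸ Λ)

theorem smul_bs (w : FreeGroup V) : w • bs Λ = (w : FreeGroup V ⧸ Λ) := by
  show ((w * 1 : FreeGroup V) : FreeGroup V ⧸ Λ) = _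
  rw [mul_one]

theorem smul_bs_iff (w : FreeGroup V) : w • bs Λ = bs Λ ↔ w ∈ Λ := by
  rw [smul_bs]
  unfold bs
  rw [eq_comm, QuotientGroup.eq]
  simp

/-- the cocycle on a relator -/
theorem cc_rel {E : Type} (L : LOG V E) (f : (FreeGroup V ⧸ Λ) × V → ℚ) (e : E)
    (p : FreeGroup V ⧸ Λ) (hp : L.rel e • p = p) :
    cc Λ f (L.rel e) p = - sq (ac Λ) f p (L.ini e) (L.lab e) (L.ter e) := by
  have h1 : (FreeGroup.of (L.lab e) * (FreeGroup.of (L.ter e))⁻¹ * (FreeGroup.of (L.lab e))⁻¹) • p =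
      (FreeGroup.of (L.ini e))⁻¹ • p := by
    rw [eq_inv_smul_iff, ← mul_smul]
    unfold LOG.rel at hp
    rw [← mul_assoc, ← mul_assoc]
    exact hp
  have hp' : FreeGroup.of (L.ini e) • (FreeGroup.of (L.lab e) * (FreeGroup.of (L.ter e))⁻¹ *
      (FreeGroup.of (L.lab e))⁻¹) • p = p := by
    rw [h1, smul_inv_smul]
  unfold LOG.rel
  rw [mul_assoc, mul_assoc, cc_mul, cc_of, ← mul_assoc, hp', cc_mul, cc_inv, cc_of, cc_mul, cc_of,
    cc_inv, cc_of]
  have h2 : FreeGroup.of (L.lab e) • (FreeGroup.of (L.ter e))⁻¹ • (FreeGroup.of (L.lab e))⁻¹ • p =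
      (FreeGroup.of (L.ini e))⁻¹ • p := by
    rw [← h1, mul_smul, mul_smul]
  rw [h2]
  simp only [smul_inv_smul]
  unfold sq
  simp only [ac_apply]
  ring

end act

/-! ### finiteness -/

theorem fin_closure {G I : Type} [Group G] (φ : I → G) {x : G}
    (hx : x ∈ Subgroup.closure (Set.range φ)) :
    ∃ J : Finset I, x ∈ Subgroup.closure (φ '' (J : Set I)) := by
  classical
  induction hx using Subgroup.closure_induction with
  | mem x hx =>
    obtain ⟨i, rfl⟩ := hx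
    exact ⟨{i}, Subgroup.subset_closure ⟨i, by simp, rfl⟩⟩
  | one => exact ⟨∅, one_mem _⟩
  | mul x y _ _ h1 h2 =>
    obtain ⟨J1, h1⟩ := h1
    obtain ⟨J2, h2⟩ := h2
    refine ⟨J1 ∪ J2, mul_mem (Subgroup.closure_mono (Set.image_mono ?_) h1)
      (Subgroup.closure_mono (Set.image_mono ?_) h2)⟩
    · intro i hi; exact Finset.mem_coe.2 (Finset.mem_union_left _ (Finset.mem_coe.1 hi))
    · intro i hi; exact Finset.mem_coe.2 (Finset.mem_union_right _ (Finset.mem_coe.1 hi))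
  | inv x _ h =>
    obtain ⟨J, h⟩ := h
    exact ⟨J, inv_mem h⟩

/-- the exponent vector -/
noncomputable def ab {ι : Type} [DecidableEq ι] (u : FreeGroup ι) : ι → ℚ :=
  Multiplicative.toAdd (FreeGroup.lift (fun i => Multiplicative.ofAdd (Pi.single i (1 : ℚ))) u)

theorem ab_one {ι : Type} [DecidableEq ι] : ab (1 : FreeGroup ι) = 0 := by
  unfold ab; rw [map_one]; rfl

theorem ab_of {ι : Type} [DecidableEq ι] (i : ι) : ab (FreeGroup.of i) = Pi.single i 1 := by
  unfold ab; rw [FreeGroup.lift_apply_of]; rfl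

theorem ab_mul {ι : Type} [DecidableEq ι] (u v : FreeGroup ι) : ab (u * v) = ab u + ab v := by
  unfold ab; rw [map_mul]; rfl

theorem ab_inv {ι : Type} [DecidableEq ι] (u : FreeGroup ι) : ab u⁻¹ = - ab u := by
  unfold ab; rw [map_inv]; rfl

/-- if `K` has no surjection to the integers, the exponent vectors of the relations of a finite set
of generators span -/
theorem span_top {ι K : Type} [Fintype ι] [DecidableEq ι] [Group K] (Θ : FreeGroup ι →* K)
    (hΘ : Function.Surjective Θ) (hK : ∀ ψ : K →* Multiplicative ℤ, ¬ Function.Surjective ψ) :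
    Submodule.span ℚ (ab '' (Θ.ker : Set (FreeGroup ι))) = ⊤ := by
  by_contra hne
  obtain ⟨l, hl0, hl⟩ := Submodule.exists_le_ker_of_lt_top _ (lt_top_iff_ne_top.2 hne)
  -- common denominator
  set D : ℕ := ∏ i, (l (Pi.single i 1)).den with hD
  have hDpos : (D : ℚ) ≠ 0 := by
    rw [hD]
    push_cast
    exact Finset.prod_ne_zero_iff.2 fun i _ => by exact_mod_cast (l (Pi.single i 1)).den_ne_zero
  have hint : ∀ i, ∃ z : ℤ, (z : ℚ) = D * l (Pi.single i 1) := by
    intro i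
    obtain ⟨k, hk⟩ : (l (Pi.single i 1)).den ∣ D := Finset.dvd_prod_of_mem _ (Finset.mem_univ i)
    refine ⟨k * (l (Pi.single i 1)).num, ?_⟩
    rw [hk]
    push_cast
    rw [mul_comm ((l (Pi.single i 1)).den : ℚ) k, mul_assoc, Rat.den_mul_eq_num]
  choose z hz using hint
  set φ : FreeGroup ι →* Multiplicative ℤ := FreeGroup.lift fun i => Multiplicative.ofAdd (z i)
    with hφ
  have hφl : ∀ u : FreeGroup ι, ((Multiplicative.toAdd (φ u) : ℤ) : ℚ) = D * l (ab u) := by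
    intro u
    induction u using FreeGroup.induction_on with
    | C1 => rw [ab_one, map_one, map_zero, mul_zero]; simp
    | of i =>
      rw [ab_of, hφ, FreeGroup.lift_apply_of, ← hz i]
      rfl
    | inv_of i ih =>
      rw [ab_inv, map_neg, map_inv, toAdd_inv, Int.cast_neg, ih]
      ring
    | mul u v h1 h2 =>
      rw [ab_mul, map_add, map_mul, toAdd_mul, Int.cast_add, h1, h2]
      ring
  have hker : Θ.ker ≤ φ.ker := by
    intro u hu
    have h1 : l (ab u) = 0 := hl (Submodule.subset_span ⟨u, hu, rfl⟩)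
    have h2 := hφl u
    rw [h1, mul_zero] at h2
    rw [MonoidHom.mem_ker]
    have h3 : Multiplicative.toAdd (φ u) = 0 := by exact_mod_cast h2
    exact h3
  obtain ⟨s, hs⟩ := hΘ.hasRightInverse
  have hcomp : ∀ u, (Θ.liftOfRightInverse s hs ⟨φ, hker⟩) (Θ u) = φ u := fun u =>
    Θ.liftOfRightInverse_comp_apply s hs ⟨φ, hker⟩ u
  -- some value is nonzero
  have hex : ∃ i, l (Pi.single i 1) ≠ 0 := by
    by_contra hcon
    push Not at hcon
    apply hl0
    apply LinearMap.pi_ext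
    intro i x
    have : (Pi.single i x : ι → ℚ) = x • Pi.single i 1 := by
      rw [← Pi.single_smul, smul_eq_mul, mul_one]
    rw [this, map_smul, hcon i]
    simp
  obtain ⟨i, hi⟩ := hex
  obtain ⟨ψ, hψ⟩ := surj_of_ne (Θ.liftOfRightInverse s hs ⟨φ, hker⟩) ⟨Θ (FreeGroup.of i), by
    rw [hcomp]
    intro h1
    have h2 := hφl (FreeGroup.of i)
    rw [h1, ab_of] at h2
    have h3 : (D : ℚ) * l (Pi.single i 1) = 0 := by
      rw [← h2]; simp
    exact (mul_ne_zero hDpos hi) h3⟩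
  exact hK ψ hψ

/-- an element of the normal closure lies in the group generated by finitely many conjugates -/
theorem fin_normal {V E : Type} (L : LOG V E) (x : FreeGroup V)
    (hx : PresentedGroup.mk (Set.range L.rel) x = 1) :
    ∃ J : Finset (FreeGroup V × E),
      x ∈ Subgroup.closure ((fun q : FreeGroup V × E => q.1 * L.rel q.2 * q.1⁻¹) '' (J : Set _)) := by
  apply fin_closure
  have h1 : x ∈ Subgroup.normalClosure (Set.range L.rel) := by
    rw [← QuotientGroup.eq_one_iff]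
    exact hx
  refine Subgroup.closure_mono ?_ h1
  intro y hy
  obtain ⟨a, ⟨e, rfl⟩, hc⟩ := Group.mem_conjugatesOfSet_iff.1 hy
  obtain ⟨c, rfl⟩ := isConj_iff.1 hc
  exact ⟨(c, e), rfl⟩

theorem main : S_DATA := by
  classical
  intro V E L hL
  unfold LocInd at hL
  push Not at hL
  obtain ⟨H, ⟨T0, hT0⟩, hne, hno⟩ := hL
  obtain ⟨w, hw⟩ : ∃ w : {x // x ∈ T0} → FreeGroup V,
      ∀ i, PresentedGroup.mk (Set.range L.rel) (w i) = i.1 := by
    have : ∀ i : {x // x ∈ T0}, ∃ w, PresentedGroup.mk (Set.range L.rel) w = i.1 := fun i =>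
      PresentedGroup.mk_surjective _ _
    choose w hw using this
    exact ⟨w, hw⟩
  have hmem : ∀ i : {x // x ∈ T0}, i.1 ∈ H := fun i => by
    rw [← hT0]; exact Subgroup.subset_closure i.2
  set Θ : FreeGroup {x // x ∈ T0} →* H := FreeGroup.lift fun i => ⟨i.1, hmem i⟩ with hΘd
  have hΘof : ∀ i, ((Θ (FreeGroup.of i) : H) : L.G) = i.1 := fun i => by
    rw [hΘd, FreeGroup.lift_apply_of]
  have hΘ : Function.Surjective Θ := by
    have h1 : ∀ x ∈ Subgroup.closure (T0 : Set L.G), ∃ u, ((Θ u : H) : L.G) = x := by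
      intro x hx
      induction hx using Subgroup.closure_induction with
      | mem x hx => exact ⟨FreeGroup.of ⟨x, hx⟩, hΘof _⟩
      | one => exact ⟨1, by rw [map_one]; rfl⟩
      | mul x y _ _ h1 h2 =>
        obtain ⟨u, rfl⟩ := h1
        obtain ⟨v, rfl⟩ := h2
        exact ⟨u * v, by rw [map_mul]; rfl⟩
      | inv x _ h =>
        obtain ⟨u, rfl⟩ := h
        exact ⟨u⁻¹, by rw [map_inv]; rfl⟩
    intro x
    obtain ⟨u, hu⟩ := h1 x.1 (by rw [hT0]; exact x.2)
    exact ⟨u, Subtype.ext hu⟩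
  have hΘw : ∀ u, ((Θ u : H) : L.G) =
      PresentedGroup.mk (Set.range L.rel) (FreeGroup.lift w u) := by
    intro u
    have h1 : H.subtype.comp Θ = (PresentedGroup.mk (Set.range L.rel)).comp (FreeGroup.lift w) := by
      apply FreeGroup.ext_hom
      intro i
      simp only [MonoidHom.comp_apply, FreeGroup.lift_apply_of]
      rw [hw i]
      exact hΘof i
    exact DFunLike.congr_fun h1 u
  have htop := span_top Θ hΘ hno
  -- finitely many conjugates suffice
  set cj : FreeGroup V × E → FreeGroup V := fun q => q.1 * L.rel q.2 * q.1⁻¹ with hcj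
  have hmono : ∀ {J J' : Finset (FreeGroup V × E)}, J ⊆ J' →
      ({y | ∃ u, FreeGroup.lift w u ∈ Subgroup.closure (cj '' (J : Set _)) ∧ ab u = y} :
        Set ({x // x ∈ T0} → ℚ)) ⊆
      {y | ∃ u, FreeGroup.lift w u ∈ Subgroup.closure (cj '' (J' : Set _)) ∧ ab u = y} := by
    rintro J J' hJ y ⟨u, hu, rfl⟩
    exact ⟨u, Subgroup.closure_mono (Set.image_mono (Finset.coe_subset.2 hJ)) hu, rfl⟩
  have hone : ∀ y ∈ Submodule.span ℚ (ab '' (Θ.ker : Set (FreeGroup {x // x ∈ T0}))),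
      ∃ J : Finset (FreeGroup V × E), y ∈ Submodule.span ℚ
        ({y | ∃ u, FreeGroup.lift w u ∈ Subgroup.closure (cj '' (J : Set _)) ∧ ab u = y} :
          Set ({x // x ∈ T0} → ℚ)) := by
    intro y hy
    induction hy using Submodule.span_induction with
    | mem y hy =>
      obtain ⟨u, hu, rfl⟩ := hy
      have h1 : PresentedGroup.mk (Set.range L.rel) (FreeGroup.lift w u) = 1 := by
        rw [← hΘw, (MonoidHom.mem_ker).1 hu]
        rfl
      obtain ⟨J, hJ⟩ := fin_normal L _ h1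
      exact ⟨J, Submodule.subset_span ⟨u, hJ, rfl⟩⟩
    | zero => exact ⟨∅, zero_mem _⟩
    | add x y _ _ h1 h2 =>
      obtain ⟨J1, h1⟩ := h1
      obtain ⟨J2, h2⟩ := h2
      exact ⟨J1 ∪ J2, add_mem (Submodule.span_mono (hmono Finset.subset_union_left) h1)
        (Submodule.span_mono (hmono Finset.subset_union_right) h2)⟩
    | smul a x _ h =>
      obtain ⟨J, h⟩ := h
      exact ⟨J, Submodule.smul_mem _ a h⟩
  have hall : ∀ i : {x // x ∈ T0}, ∃ J : Finset (FreeGroup V × E),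
      (Pi.single i (1 : ℚ) : {x // x ∈ T0} → ℚ) ∈ Submodule.span ℚ
        ({y | ∃ u, FreeGroup.lift w u ∈ Subgroup.closure (cj '' (J : Set _)) ∧ ab u = y} :
          Set ({x // x ∈ T0} → ℚ)) := fun i => hone _ (by rw [htop]; trivial)
  choose Ji hJi using hall
  obtain ⟨J, hJ⟩ : ∃ J : Finset (FreeGroup V × E), J = Finset.univ.biUnion Ji := ⟨_, rfl⟩
  have hJspan : ∀ i : {x // x ∈ T0},
      (Pi.single i (1 : ℚ) : {x // x ∈ T0} → ℚ) ∈ Submodule.span ℚ
        ({y | ∃ u, FreeGroup.lift w u ∈ Subgroup.closure (cj '' (J : Set _)) ∧ ab u = y} :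
          Set ({x // x ∈ T0} → ℚ)) := fun i =>
    Submodule.span_mono (hmono (by rw [hJ]; exact Finset.subset_biUnion_of_mem Ji (Finset.mem_univ i)))
      (hJi i)
  -- the group and the cosets
  obtain ⟨Λ, hΛ⟩ : ∃ Λ : Subgroup (FreeGroup V),
      Λ = Subgroup.closure (Set.range w ∪ cj '' (J : Set _)) := ⟨_, rfl⟩
  have hwΛ : ∀ i, w i ∈ Λ := fun i => by
    rw [hΛ]; exact Subgroup.subset_closure (Or.inl ⟨i, rfl⟩)
  have hcΛ : ∀ q ∈ J, cj q ∈ Λ := fun q hq => by
    rw [hΛ]; exact Subgroup.subset_closure (Or.inr ⟨q, hq, rfl⟩)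
  have hpath : ∀ i, ∃ A : Finset ((FreeGroup V ⧸ Λ) × V),
      ∀ τ : FreeGroup V ⧸ Λ → L.G, (∀ a ∈ A, τ (ac Λ a.2 a.1) = τ a.1 * L.gen a.2) →
        τ ((w i)⁻¹ • bs Λ) = τ (bs Λ) * FreeGroup.lift L.gen (w i) := fun i =>
    path Λ L.gen (w i) (bs Λ)
  choose Ai hAi using hpath
  have hrel : ∀ q ∈ J, L.rel q.2 • (q.1⁻¹ • bs Λ) = q.1⁻¹ • bs Λ := by
    intro q hq
    have h1 := (smul_bs_iff Λ (cj q)).2 (hcΛ q hq)
    rw [hcj] at h1
    simp only [mul_smul] at h1
    rw [eq_inv_smul_iff]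
    exact h1
  obtain ⟨S, hS⟩ : ∃ S : Finset ((FreeGroup V ⧸ Λ) × E),
      S = J.image fun q => (q.1⁻¹ • bs Λ, q.2) := ⟨_, rfl⟩
  obtain ⟨A, hA⟩ : ∃ A : Finset ((FreeGroup V ⧸ Λ) × V),
      A = (S.biUnion fun s => {(s.1, L.ini s.2), (ac Λ (L.ini s.2) s.1, L.lab s.2),
        (ac Λ (L.lab s.2) s.1, L.ter s.2), (s.1, L.lab s.2)}) ∪ Finset.univ.biUnion Ai := ⟨_, rfl⟩
  refine ⟨FreeGroup V ⧸ Λ, ac Λ, A, S, ?_, ?_, ?_⟩
  · -- the squares
    intro s hs
    have hsub : ∀ a ∈ ({(s.1, L.ini s.2), (ac Λ (L.ini s.2) s.1, L.lab s.2),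
        (ac Λ (L.lab s.2) s.1, L.ter s.2), (s.1, L.lab s.2)} : Finset ((FreeGroup V ⧸ Λ) × V)),
        a ∈ A := by
      intro a ha
      rw [hA]
      exact Finset.mem_union_left _ (Finset.mem_biUnion.2 ⟨s, hs, ha⟩)
    refine ⟨?_, hsub _ (by simp), hsub _ (by simp), hsub _ (by simp), hsub _ (by simp)⟩
    rw [hS] at hs
    obtain ⟨q, hq, rfl⟩ := Finset.mem_image.1 hs
    have h1 := hrel q hq
    simp only [ac_apply]
    unfold LOG.rel at h1
    rw [mul_smul, mul_smul, mul_smul] at h1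
    rw [inv_smul_eq_iff, inv_smul_eq_iff]
    exact h1.symm
  · -- the cohomology
    intro f hf
    have hcl : ∀ x ∈ Subgroup.closure (cj '' (J : Set _)), x • bs Λ = bs Λ ∧
        cc Λ f x (bs Λ) = 0 := by
      intro x hx
      induction hx using Subgroup.closure_induction with
      | mem x hx =>
        obtain ⟨q, hq, rfl⟩ := hx
        refine ⟨(smul_bs_iff Λ _).2 (hcΛ q hq), ?_⟩
        have h1 := hf (q.1⁻¹ • bs Λ, q.2) (by
          rw [hS]; exact Finset.mem_image.2 ⟨q, hq, rfl⟩)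
        have h2 := cc_rel Λ L f q.2 (q.1⁻¹ • bs Λ) (hrel q hq)
        rw [hcj]
        simp only
        rw [cc_mul, cc_mul, hrel q hq, h2, cc_inv]
        simp only at h1
        rw [h1]
        ring
      | one => exact ⟨one_smul _ _, cc_one Λ f _⟩
      | mul x y _ _ h1 h2 =>
        refine ⟨by rw [mul_smul, h2.1, h1.1], ?_⟩
        rw [cc_mul, h2.1, h1.2, h2.2, add_zero]
      | inv x _ h =>
        have h3 : x⁻¹ • bs Λ = bs Λ := by rw [inv_smul_eq_iff, h.1]
        exact ⟨h3, by rw [cc_inv, h3, h.2, neg_zero]⟩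
    -- the linear functional
    obtain ⟨ℓ, hℓ⟩ : ∃ ℓ : ({x // x ∈ T0} → ℚ) →ₗ[ℚ] ℚ,
        ℓ = ∑ i, (cc Λ f (w i) (bs Λ)) • LinearMap.proj i := ⟨_, rfl⟩
    have hℓ1 : ∀ i, ℓ (Pi.single i 1) = cc Λ f (w i) (bs Λ) := by
      intro i
      rw [hℓ, LinearMap.sum_apply, Finset.sum_eq_single i]
      · simp
      · intro j _ hj
        simp [Pi.single_eq_of_ne hj]
      · intro h; exact absurd (Finset.mem_univ i) h
    have hlin : ∀ u : FreeGroup {x // x ∈ T0}, FreeGroup.lift w u • bs Λ = bs Λ ∧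
        cc Λ f (FreeGroup.lift w u) (bs Λ) = ℓ (ab u) := by
      intro u
      induction u using FreeGroup.induction_on with
      | C1 => rw [map_one, ab_one, map_zero]; exact ⟨one_smul _ _, cc_one Λ f _⟩
      | of i =>
        rw [FreeGroup.lift_apply_of, ab_of, hℓ1]
        exact ⟨(smul_bs_iff Λ _).2 (hwΛ i), rfl⟩
      | inv_of i ih =>
        have h3 : (FreeGroup.lift w (FreeGroup.of i))⁻¹ • bs Λ = bs Λ := by
          rw [inv_smul_eq_iff, ih.1]
        rw [map_inv, ab_inv, map_neg]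
        exact ⟨h3, by rw [cc_inv, h3, ih.2]⟩
      | mul u v h1 h2 =>
        rw [map_mul, ab_mul, map_add]
        refine ⟨by rw [mul_smul, h2.1, h1.1], ?_⟩
        rw [cc_mul, h2.1, h1.2, h2.2, add_comm]
    have hw0 : ∀ i, cc Λ f (w i) (bs Λ) = 0 := by
      intro i
      rw [← hℓ1]
      have hle : Submodule.span ℚ
        ({y | ∃ u, FreeGroup.lift w u ∈ Subgroup.closure (cj '' (J : Set _)) ∧ ab u = y} :
          Set ({x // x ∈ T0} → ℚ)) ≤ LinearMap.ker ℓ := by
        rw [Submodule.span_le]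
        rintro y ⟨u, hu, rfl⟩
        show ℓ (ab u) = 0
        rw [← (hlin u).2]
        exact (hcl _ hu).2
      exact hle (hJspan i)
    have hΛ0 : ∀ x ∈ Λ, cc Λ f x (bs Λ) = 0 := by
      intro x hx
      have hx' : x ∈ Subgroup.closure (Set.range w ∪ cj '' (J : Set _)) := hΛ ▸ hx
      clear hx
      have : x • bs Λ = bs Λ ∧ cc Λ f x (bs Λ) = 0 := by
        induction hx' using Subgroup.closure_induction with
        | mem x hx =>
          rcases hx with ⟨i, rfl⟩ | hx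
          · exact ⟨(smul_bs_iff Λ _).2 (hwΛ i), hw0 i⟩
          · exact hcl x (Subgroup.subset_closure hx)
        | one => exact ⟨one_smul _ _, cc_one Λ f _⟩
        | mul x y _ _ h1 h2 =>
          refine ⟨by rw [mul_smul, h2.1, h1.1], ?_⟩
          rw [cc_mul, h2.1, h1.2, h2.2, add_zero]
        | inv x _ h =>
          have h3 : x⁻¹ • bs Λ = bs Λ := by rw [inv_smul_eq_iff, h.1]
          exact ⟨h3, by rw [cc_inv, h3, h.2, neg_zero]⟩
      exact this.2
    -- the primitive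
    obtain ⟨G, hG⟩ : ∃ G : FreeGroup V ⧸ Λ → ℚ, G = fun p => cc Λ f p.out (bs Λ) := ⟨_, rfl⟩
    have hGw : ∀ x : FreeGroup V, G (x • bs Λ) = cc Λ f x (bs Λ) := by
      intro x
      have h1 : ((x • bs Λ).out : FreeGroup V ⧸ Λ) = x • bs Λ := QuotientGroup.out_eq' _
      have h2 : x⁻¹ * (x • bs Λ).out ∈ Λ := by
        rw [smul_bs] at h1 ⊢
        exact QuotientGroup.eq.1 h1.symm
      have h3 : (x • bs Λ).out = x * (x⁻¹ * (x • bs Λ).out) := by group
      rw [hG]
      simp only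
      rw [h3, cc_mul, hΛ0 _ h2, (smul_bs_iff Λ _).2 h2, zero_add]
    refine ⟨G, fun a _ => ?_⟩
    obtain ⟨p, x⟩ := a
    obtain ⟨y, rfl⟩ : ∃ y : FreeGroup V, y • bs Λ = p := ⟨p.out, by rw [smul_bs]; exact QuotientGroup.out_eq' _⟩
    simp only [ac_apply]
    rw [← mul_smul, hGw, hGw, cc_mul, cc_inv, cc_of]
    rw [smul_inv_smul]
    ring
  · -- not developable
    rintro ⟨τ, hτ⟩
    apply hne
    rw [← hT0, Subgroup.closure_eq_bot_iff]
    intro x hx
    have h1 := hAi ⟨x, hx⟩ τ fun a ha => hτ a (by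
      rw [hA]
      exact Finset.mem_union_right _ (Finset.mem_biUnion.2 ⟨⟨x, hx⟩, Finset.mem_univ _, ha⟩))
    have h2 : (w ⟨x, hx⟩)⁻¹ • bs Λ = bs Λ := by
      rw [inv_smul_eq_iff, (smul_bs_iff Λ _).2 (hwΛ _)]
    have h3 : FreeGroup.lift L.gen (w ⟨x, hx⟩) = x := by
      have h4 : FreeGroup.lift L.gen = PresentedGroup.mk (Set.range L.rel) := by
        apply FreeGroup.ext_hom
        intro v
        rw [FreeGroup.lift_apply_of]
        rfl
      rw [h4]
      exact hw ⟨x, hx⟩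
    rw [h2, h3] at h1
    have h5 : x = 1 := by
      have := h1.symm
      rwa [mul_eq_left] at this
    exact h5

end Pool.Agent.H10.Inj.Data
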