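import Mathlib

/-!
# Injective labelled oriented forests: definitions

A labelled oriented graph has vertices `V` and edges `E`, every edge carries a label, which is a
vertex. Its group has the generators `V` and one relation `x_ini x_lab = x_lab x_ter` for every edge.
-/

set_option autoImplicit false

namespace Pool.Agent.H10.Inj

/-- A labelled oriented graph with vertex set `V` and edge set `E`: the edge `e` runs from `ini e`
to `ter e` and carries the label `lab e`, which is a vertex. -/
structure LOG (V E : Type) where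
  ini : E → V
  ter : E → V
  lab : E → V

variable {V E : Type}

/-- The relator of the edge `e`: `x_ini x_lab x_ter⁻¹ x_lab⁻¹`. -/
def LOG.rel (L : LOG V E) (e : E) : FreeGroup V :=
  FreeGroup.of (L.ini e) * FreeGroup.of (L.lab e) * (FreeGroup.of (L.ter e))⁻¹ *
    (FreeGroup.of (L.lab e))⁻¹

/-- The group of `L`: generators `V`, relators `rel e`. -/
abbrev LOG.G (L : LOG V E) : Type := PresentedGroup (Set.range L.rel)

/-- The generator of the group belonging to the vertex `v`. -/
def LOG.gen (L : LOG V E) (v : V) : L.G := PresentedGroup.of v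

/-- A group is locally indicable if every nontrivial finitely generated subgroup has a surjective
homomorphism to the integers. -/
def LocInd (G : Type) [Group G] : Prop :=
  ∀ H : Subgroup G, H.FG → H ≠ ⊥ → ∃ ψ : H →* Multiplicative ℤ, Function.Surjective ψ

/-- The graph with vertex set `I` and edges `{a e, b e}`, `e : E`, is a forest: for every nonempty
finite set `B` of vertices there are fewer edges within `B` than elements of `B`. -/
def Sparse {E I : Type} (a b : E → I) : Prop :=
  ∀ (B : Finset I) (D : Finset E), B.Nonempty → (∀ e ∈ D, a e ∈ B ∧ b e ∈ B) →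
    D.card + 1 ≤ B.card

/-- The part of `L` on the vertices of the block `i` of a partition `bl : V → I`: the edges whose ends
and label lie in the block. -/
def LOG.blk {I : Type} (L : LOG V E) (bl : V → I) (i : I) :
    LOG {v : V // bl v = i}
      {e : E // bl (L.ini e) = i ∧ bl (L.ter e) = i ∧ bl (L.lab e) = i} where
  ini e := ⟨L.ini e.1, e.2.1⟩
  ter e := ⟨L.ter e.1, e.2.2.1⟩
  lab e := ⟨L.lab e.1, e.2.2.2⟩

/-- The edge `e` is an inner edge of the partition: its ends and its label lie in one block. -/
def Inner {I : Type} (L : LOG V E) (bl : V → I) (e : E) : Prop :=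
  bl (L.ini e) = bl (L.lab e) ∧ bl (L.ter e) = bl (L.lab e)

/-- The edge `e` is an outer edge of the partition: neither of its ends lies in the block of its
label. -/
def Outer {I : Type} (L : LOG V E) (bl : V → I) (e : E) : Prop :=
  bl (L.ini e) ≠ bl (L.lab e) ∧ bl (L.ter e) ≠ bl (L.lab e)

/-- The partition `bl` of the vertices with the signs `ε` of the blocks is good: every edge is an
inner or an outer edge, and for both values `b` the graph on the blocks with the following edges is a
forest: for every outer edge `e` the block of its label is joined to the block of its initial vertex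
if the sign of the block of the label is `b`, and to the block of its terminal vertex otherwise. -/
structure Signed {I : Type} (L : LOG V E) (bl : V → I) (ε : I → Bool) : Prop where
  types : ∀ e, Inner L bl e ∨ Outer L bl e
  forest : ∀ (b : Bool) (B : Finset I) (D : Finset E), B.Nonempty →
    (∀ e ∈ D, Outer L bl e ∧ bl (L.lab e) ∈ B ∧
      (if ε (bl (L.lab e)) = b then bl (L.ini e) else bl (L.ter e)) ∈ B) → D.card + 1 ≤ B.card

/-- The relative theorem. -/
def S_REL : Prop :=
  ∀ (V E I : Type) (L : LOG V E) (bl : V → I) (ε : I → Bool), Signed L bl ε →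
    (∀ i, LocInd (L.blk bl i).G) → LocInd L.G

/-- The value of the function `f` on the boundary of the square with the base point `p` and the sides
`c`, `k`, `d`, `k` (`p c k = p k d`). -/
def sq {Ω : Type} (act : V → Equiv.Perm Ω) (f : Ω × V → ℚ) (p : Ω) (c k d : V) : ℚ :=
  f (p, c) + f (act c p, k) - f (act k p, d) - f (p, k)

/-- The square based at `p` with the sides `c`, `k`, `d` is closed and its four sides belong to `A`. -/
def SqIn {Ω : Type} (act : V → Equiv.Perm Ω) (A : Finset (Ω × V)) (p : Ω) (c k d : V) : Prop :=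
  act k (act c p) = act d (act k p) ∧ (p, c) ∈ A ∧ (act c p, k) ∈ A ∧ (act k p, d) ∈ A ∧ (p, k) ∈ A

/-- Stub DATA: a finite complex over `K(L)` which has no first rational cohomology but which is not
developable. -/
def S_DATA : Prop :=
  ∀ (V E : Type) (L : LOG V E), ¬ LocInd L.G →
    ∃ (Ω : Type) (act : V → Equiv.Perm Ω) (A : Finset (Ω × V)) (S : Finset (Ω × E)),
      (∀ s ∈ S, SqIn act A s.1 (L.ini s.2) (L.lab s.2) (L.ter s.2)) ∧
      (∀ f : Ω × V → ℚ, (∀ s ∈ S, sq act f s.1 (L.ini s.2) (L.lab s.2) (L.ter s.2) = 0) →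
        ∃ g : Ω → ℚ, ∀ a ∈ A, f a = g (act a.2 a.1) - g a.1) ∧
      ¬ ∃ τ : Ω → L.G, ∀ a ∈ A, τ (act a.2 a.1) = τ a.1 * L.gen a.2

/-- `p` is joined to `q` by a path which consists of edges of `A`. -/
def Joined {Ω : Type} (act : V → Equiv.Perm Ω) (A : Finset (Ω × V)) (q p : Ω) : Prop :=
  Relation.EqvGen (fun p p' => ∃ x, (p, x) ∈ A ∧ p' = act x p) q p

/-- Stub THICK: a component of a finite graph over a locally indicable group is developable or has a
rational cocycle which is not a coboundary. -/
def S_THICK : Prop :=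
  ∀ (Γ : Type) [Group Γ], LocInd Γ → ∀ (V Ω : Type) (act : V → Equiv.Perm Ω) (u : V → Γ)
    (A : Finset (Ω × V)) (q : Ω),
    (∃ τ : Ω → Γ, ∀ a ∈ A, Joined act A q a.1 → τ (act a.2 a.1) = τ a.1 * u a.2) ∨
    ∃ f : Ω × V → ℚ, (∀ a, f a ≠ 0 → a ∈ A ∧ Joined act A q a.1) ∧
      (∀ p c k d, SqIn act A p c k d → u c * u k = u k * u d → sq act f p c k d = 0) ∧
      ¬ ∃ g : Ω → ℚ, ∀ a ∈ A, Joined act A q a.1 → f a = g (act a.2 a.1) - g a.1

/-- Stub LIN: a dimension count. -/
def S_LIN : Prop :=
  ∀ (Inc P C N S : Type) [Fintype Inc] [Fintype P] [Fintype C] [Fintype N] [Fintype S]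
    (pos : Inc → P) (cmp : Inc → C) (Φ : ((Inc → ℚ) × (N → ℚ)) →ₗ[ℚ] (S → ℚ)),
    Nonempty P →
    (∀ v, Φ v = 0 → v.2 = 0 ∧ ∃ (gP : P → ℚ) (gC : C → ℚ), ∀ a, v.1 a = gC (cmp a) - gP (pos a)) →
    Fintype.card Inc + Fintype.card N + 1 ≤ Fintype.card S + Fintype.card P + Fintype.card C

/-- The block at the other end of the corner `j` of a square: the initial block for the corners
`0, 1`, the terminal block for the corners `2, 3`. -/
def oth {I : Type} (γ δ : I) (j : Fin 4) : I := if j.val < 2 then γ else δ

/-- The block of an end (`t = true`: the end of the side with the label) of the corner `j`. -/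
def slotB {I : Type} (κ γ δ : I) (j : Fin 4) (t : Bool) : I := if t then κ else oth γ δ j

/-- The direction (`true`: outgoing) of the side at an end (`t = true`: the side with the label) of
the corner `j`: the sides with the label go out at the corners `0, 1`, the other two sides at the
corners `0, 2`. -/
def slotS (j : Fin 4) (t : Bool) : Bool :=
  if t then decide (j.val < 2) else decide (j.val = 0 ∨ j.val = 2)

/-- Stub COUNT: the counting inequality. `pos s j` is the position of the corner `j` of the square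
`s`. -/
def S_COUNT : Prop :=
  ∀ (Ω I Ce E : Type) [DecidableEq Ω] [DecidableEq I] [DecidableEq Ce] [DecidableEq E]
    (S : Finset Ce) (ed : Ce → E) (pos : Ce → Fin 4 → Ω) (κ γ δ : E → I) (ε : I → Bool)
    (Inc : Finset (Ω × I)) (M : Finset ((Ω × I) × Bool)),
    (∀ s ∈ S, ∀ s' ∈ S, ed s = ed s' → ∀ j, pos s j = pos s' j → s = s') →
    (∀ s ∈ S, γ (ed s) ≠ κ (ed s) ∧ δ (ed s) ≠ κ (ed s)) →
    (∀ s ∈ S, ∀ j t, (pos s j, slotB (κ (ed s)) (γ (ed s)) (δ (ed s)) j t) ∈ Inc) →
    (∀ a ∈ Inc, 2 ≤ ((S ×ˢ (Finset.univ : Finset (Fin 4 × Bool))).filter fun x =>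
      (pos x.1 x.2.1, slotB (κ (ed x.1)) (γ (ed x.1)) (δ (ed x.1)) x.2.1 x.2.2) = a).card) →
    (∀ (b : Bool) (B : Finset I) (D : Finset E), B.Nonempty →
      (∀ e ∈ D, (∃ s ∈ S, ed s = e) ∧ κ e ∈ B ∧ (if ε (κ e) = b then γ e else δ e) ∈ B) →
      D.card + 1 ≤ B.card) →
    (∀ m ∈ M, m.1 ∈ Inc ∧ ∀ s ∈ S, ∀ j t,
      ¬ ((pos s j, slotB (κ (ed s)) (γ (ed s)) (δ (ed s)) j t) = m.1 ∧ slotS j t = m.2)) →
    2 * S.card + 2 * (Inc.image Prod.fst).card + M.card ≤ 2 * Inc.card

/-- Stub ARB: two disjoint branchings (Edmonds). From every `k ∈ K` there are two arcs, to `a k` and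
to `b k`. If at least two arcs leave every nonempty subset of `K`, then one can choose one of the two
arcs for every `k` such that both the chosen arcs and the other arcs are acyclic. -/
def S_ARB : Prop :=
  ∀ (V : Type) [Fintype V] [DecidableEq V] (K : Finset V) (a b : V → V),
    (∀ U : Finset V, U ⊆ K → U.Nonempty →
      (U.filter fun k => a k ∈ U).card + (U.filter fun k => b k ∈ U).card + 2 ≤ 2 * U.card) →
    ∃ σ : V → Bool, ∀ U : Finset V, U ⊆ K → U.Nonempty →
      (∃ k ∈ U, (if σ k = true then a k else b k) ∉ U) ∧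
      ∃ k ∈ U, (if σ k = true then b k else a k) ∉ U

/-- Stub PART: the partition of an injective labelled oriented forest. -/
def S_PART : Prop :=
  ∀ (V E : Type) [Fintype V] (L : LOG V E), Function.Injective L.lab → Sparse L.ini L.ter →
    2 ≤ Fintype.card V →
    (∃ (I : Type) (bl : V → I) (ε : I → Bool), (∀ i, ∃ v, bl v ≠ i) ∧ Signed L bl ε) ∨
    ∃ (bl : V → Bool) (e₀ : E), bl (L.ini e₀) ≠ bl (L.ter e₀) ∧ ∀ e, e ≠ e₀ → Inner L bl e

/-- Stub AMA: amalgamated products over an infinite cyclic group, derived from the relative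
theorem. -/
def S_AMA : Prop :=
  ∀ (V E : Type) (L : LOG V E) (bl : V → Bool) (e₀ : E), bl (L.ini e₀) ≠ bl (L.ter e₀) →
    (∀ e, e ≠ e₀ → Inner L bl e) → (∀ i, LocInd (L.blk bl i).G) → LocInd L.G

/-- Stub ONE: no edges and at most one vertex. -/
def S_ONE : Prop :=
  ∀ (V E : Type) (L : LOG V E), Subsingleton V → IsEmpty E → LocInd L.G

/-- `x` and `y` are the two ends of an edge -/
def LOG.Adj (L : LOG V E) (x y : V) : Prop :=
  ∃ e, (L.ini e = x ∧ L.ter e = y) ∨ (L.ter e = x ∧ L.ini e = y)

/-- The graph is connected. -/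
def LOG.Conn (L : LOG V E) : Prop := ∀ x y : V, Relation.ReflTransGen L.Adj x y

/-- Stub TREE: a connected graph with one vertex more than edges is a forest. -/
def S_TREE : Prop :=
  ∀ (V E : Type) [Fintype V] [Fintype E] (L : LOG V E), L.Conn →
    Fintype.card V = Fintype.card E + 1 → Sparse L.ini L.ter

/-- The finite forest theorem. -/
def S_FIN : Prop :=
  ∀ (V E : Type) [Fintype V] (L : LOG V E), Function.Injective L.lab → Sparse L.ini L.ter →
    LocInd L.G

/-- Stub INF: from finite to infinite forests. -/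
def S_INF : Prop :=
  ∀ (V E : Type) (L : LOG V E), Function.Injective L.lab → Sparse L.ini L.ter → LocInd L.G

end Pool.Agent.H10.Inj
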