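import Pool.Agent.H10.Inj.Rel3
import Pool.Agent.H10.Inj.Data

/-!
# The groups of the blocks embed
-/

set_option autoImplicit false

namespace Pool.Agent.H10.Inj.Emb

open Pool.Agent.H10.Inj.Data Pool.Agent.H10.Inj.Rel

open Classical

variable {V E I : Type}

theorem joined_mono {Ω : Type} {act : V → Equiv.Perm Ω} {A A' : Finset (Ω × V)} (h : A ⊆ A')
    {p q : Ω} (hj : Joined act A p q) : Joined act A' p q := by
  unfold Joined at hj ⊢
  induction hj with
  | rel x y hxy =>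
    obtain ⟨z, hz, hy⟩ := hxy
    exact Relation.EqvGen.rel _ _ ⟨z, h hz, hy⟩
  | refl x => exact Relation.EqvGen.refl x
  | symm x y _ ih => exact ih.symm _ _
  | trans x y z _ _ ih1 ih2 => exact ih1.trans _ _ _ ih2

/-- paths with letters in one block -/
theorem path_blk (Λ : Subgroup (FreeGroup V)) (bl : V → I) (i : I)
    (w : FreeGroup {v : V // bl v = i}) :
    ∀ p : FreeGroup V ⧸ Λ, ∃ A : Finset ((FreeGroup V ⧸ Λ) × V),
      (∀ a ∈ A, bl a.2 = i ∧ Joined (ac Λ) A p a.1) ∧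
      (Joined (ac Λ) A p ((FreeGroup.map Subtype.val w)⁻¹ • p)) ∧
      ∀ (Γ : Type) [Group Γ] (u : V → Γ) (τ : FreeGroup V ⧸ Λ → Γ),
        (∀ a ∈ A, τ (ac Λ a.2 a.1) = τ a.1 * u a.2) →
        τ ((FreeGroup.map Subtype.val w)⁻¹ • p) = τ p * FreeGroup.lift (fun v => u v.1) w := by
  induction w using FreeGroup.induction_on with
  | C1 =>
    intro p
    refine ⟨∅, by simp, ?_, fun Γ _ u τ _ => by simp⟩
    rw [map_one, inv_one, one_smul]
    exact Relation.EqvGen.refl _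
  | of x =>
    intro p
    refine ⟨{(p, x.1)}, ?_, ?_, fun Γ _ u τ h => ?_⟩
    · intro a ha
      rw [Finset.mem_singleton] at ha
      subst ha
      exact ⟨x.2, Relation.EqvGen.refl _⟩
    · rw [FreeGroup.map.of]
      exact Relation.EqvGen.rel _ _ ⟨x.1, Finset.mem_singleton_self _, rfl⟩
    · have h1 := h (p, x.1) (Finset.mem_singleton_self _)
      rw [ac_apply] at h1
      rw [FreeGroup.map.of, h1, FreeGroup.lift_apply_of]
  | inv_of x ih =>
    intro p
    refine ⟨{(FreeGroup.of x.1 • p, x.1)}, ?_, ?_, fun Γ _ u τ h => ?_⟩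
    · intro a ha
      rw [Finset.mem_singleton] at ha
      subst ha
      refine ⟨x.2, Relation.EqvGen.symm _ _ (Relation.EqvGen.rel _ _
        ⟨x.1, Finset.mem_singleton_self _, ?_⟩)⟩
      rw [ac_apply, inv_smul_smul]
    · rw [map_inv, FreeGroup.map.of, inv_inv]
      refine Relation.EqvGen.symm _ _ (Relation.EqvGen.rel _ _
        ⟨x.1, Finset.mem_singleton_self _, ?_⟩)
      rw [ac_apply, inv_smul_smul]
    · have h1 := h (FreeGroup.of x.1 • p, x.1) (Finset.mem_singleton_self _)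
      rw [ac_apply] at h1
      simp only [inv_smul_smul] at h1
      rw [h1, map_inv, FreeGroup.map.of, inv_inv, map_inv, FreeGroup.lift_apply_of, mul_assoc,
        mul_inv_cancel, mul_one]
  | mul w1 w2 h1 h2 =>
    intro p
    obtain ⟨A1, hA1, hj1, hA1'⟩ := h1 p
    obtain ⟨A2, hA2, hj2, hA2'⟩ := h2 ((FreeGroup.map Subtype.val w1)⁻¹ • p)
    have hs1 : A1 ⊆ A1 ∪ A2 := Finset.subset_union_left
    have hs2 : A2 ⊆ A1 ∪ A2 := Finset.subset_union_right
    refine ⟨A1 ∪ A2, ?_, ?_, fun Γ _ u τ h => ?_⟩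
    · intro a ha
      rcases Finset.mem_union.1 ha with ha | ha
      · exact ⟨(hA1 a ha).1, joined_mono hs1 (hA1 a ha).2⟩
      · exact ⟨(hA2 a ha).1, (joined_mono hs1 hj1).trans _ _ _ (joined_mono hs2 (hA2 a ha).2)⟩
    · rw [map_mul, mul_inv_rev, mul_smul]
      exact (joined_mono hs1 hj1).trans _ _ _ (joined_mono hs2 hj2)
    · have e1 := hA1' Γ u τ fun a ha => h a (hs1 ha)
      have e2 := hA2' Γ u τ fun a ha => h a (hs2 ha)
      rw [map_mul, mul_inv_rev, mul_smul, e2, e1, map_mul, mul_assoc]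

/-- a null-homotopic path with letters in one block -/
theorem null_data (L : LOG V E) (bl : V → I) (i : I) (w : FreeGroup {v : V // bl v = i})
    (hw : PresentedGroup.mk (Set.range L.rel) (FreeGroup.map Subtype.val w) = 1) :
    ∃ (Ω : Type) (act : V → Equiv.Perm Ω) (A : Finset (Ω × V)) (S : Finset (Ω × E)) (b : Ω),
      (∀ s ∈ S, SqIn act A s.1 (L.ini s.2) (L.lab s.2) (L.ter s.2)) ∧
      (∀ f : Ω × V → ℚ, (∀ s ∈ S, sq act f s.1 (L.ini s.2) (L.lab s.2) (L.ter s.2) = 0) →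
        ∃ g : Ω → ℚ, ∀ a ∈ A, f a = g (act a.2 a.1) - g a.1) ∧
      ∀ (Γ : Type) [Group Γ] (u : V → Γ) (τ : Ω → Γ),
        (∀ a ∈ A, bl a.2 = i → Joined act (Ai bl A i) b a.1 →
          τ (act a.2 a.1) = τ a.1 * u a.2) → FreeGroup.lift (fun v => u v.1) w = 1 := by
  set x : FreeGroup V := FreeGroup.map Subtype.val w with hx
  set cj : FreeGroup V × E → FreeGroup V := fun q => q.1 * L.rel q.2 * q.1⁻¹ with hcj
  obtain ⟨J, hJ⟩ := fin_normal L x hw
  obtain ⟨Λ, hΛ⟩ : ∃ Λ : Subgroup (FreeGroup V), Λ = Subgroup.closure (cj '' (J : Set _)) :=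
    ⟨_, rfl⟩
  have hxΛ : x ∈ Λ := by rw [hΛ]; exact hJ
  have hcΛ : ∀ q ∈ J, cj q ∈ Λ := fun q hq => by
    rw [hΛ]; exact Subgroup.subset_closure ⟨q, hq, rfl⟩
  obtain ⟨A0, hA0, -, hA0'⟩ := path_blk Λ bl i w (bs Λ)
  have hrel : ∀ q ∈ J, L.rel q.2 • (q.1⁻¹ • bs Λ) = q.1⁻¹ • bs Λ := by
    intro q hq
    have h1 := (smul_bs_iff Λ (cj q)).2 (hcΛ q hq)
    rw [hcj] at h1
    simp only [mul_smul] at h1
    rw [eq_inv_smul_iff]
    exact h1
  obtain ⟨S, hS⟩ : ∃ S : Finset ((FreeGroup V ⧸ Λ) × E),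
      S = J.image fun q => (q.1⁻¹ • bs Λ, q.2) := ⟨_, rfl⟩
  obtain ⟨A, hA⟩ : ∃ A : Finset ((FreeGroup V ⧸ Λ) × V),
      A = (S.biUnion fun s => {(s.1, L.ini s.2), (ac Λ (L.ini s.2) s.1, L.lab s.2),
        (ac Λ (L.lab s.2) s.1, L.ter s.2), (s.1, L.lab s.2)}) ∪ A0 := ⟨_, rfl⟩
  refine ⟨FreeGroup V ⧸ Λ, ac Λ, A, S, bs Λ, ?_, ?_, ?_⟩
  · intro s hs
    have hsub : ∀ a ∈ ({(s.1, L.ini s.2), (ac Λ (L.ini s.2) s.1, L.lab s.2),
        (ac Λ (L.lab s.2) s.1, L.ter s.2), (s.1, L.lab s.2)} : Finset ((FreeGroup V ⧸ Λ) × V)),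
        a ∈ A := by
      intro a ha
      rw [hA]
      exact Finset.mem_union_left _ (Finset.mem_biUnion.2 ⟨s, hs, ha⟩)
    refine ⟨?_, hsub _ (by simp), hsub _ (by simp), hsub _ (by simp), hsub _ (by simp)⟩
    rw [hS] at hs
    obtain ⟨q, hq, rfl⟩ := Finset.mem_image.1 hs
    have h1 := hrel q hq
    simp only [ac_apply]
    unfold LOG.rel at h1
    rw [mul_smul, mul_smul, mul_smul] at h1
    rw [inv_smul_eq_iff, inv_smul_eq_iff]
    exact h1.symm
  · intro f hf
    have hcl : ∀ x ∈ Subgroup.closure (cj '' (J : Set _)), x • bs Λ = bs Λ ∧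
        cc Λ f x (bs Λ) = 0 := by
      intro x hx
      induction hx using Subgroup.closure_induction with
      | mem x hx =>
        obtain ⟨q, hq, rfl⟩ := hx
        refine ⟨(smul_bs_iff Λ _).2 (hcΛ q hq), ?_⟩
        have h1 := hf (q.1⁻¹ • bs Λ, q.2) (by
          rw [hS]; exact Finset.mem_image.2 ⟨q, hq, rfl⟩)
        have h2 := cc_rel Λ L f q.2 (q.1⁻¹ • bs Λ) (hrel q hq)
        rw [hcj]
        simp only
        rw [cc_mul, cc_mul, hrel q hq, h2, cc_inv]
        simp only at h1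
        rw [h1]
        ring
      | one => exact ⟨one_smul _ _, cc_one Λ f _⟩
      | mul x y _ _ h1 h2 =>
        refine ⟨by rw [mul_smul, h2.1, h1.1], ?_⟩
        rw [cc_mul, h2.1, h1.2, h2.2, add_zero]
      | inv x _ h =>
        have h3 : x⁻¹ • bs Λ = bs Λ := by rw [inv_smul_eq_iff, h.1]
        exact ⟨h3, by rw [cc_inv, h3, h.2, neg_zero]⟩
    have hΛ0 : ∀ x ∈ Λ, cc Λ f x (bs Λ) = 0 := fun x hx => (hcl x (hΛ ▸ hx)).2
    obtain ⟨G, hG⟩ : ∃ G : FreeGroup V ⧸ Λ → ℚ, G = fun p => cc Λ f p.out (bs Λ) := ⟨_, rfl⟩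
    have hGw : ∀ x : FreeGroup V, G (x • bs Λ) = cc Λ f x (bs Λ) := by
      intro x
      have h1 : ((x • bs Λ).out : FreeGroup V ⧸ Λ) = x • bs Λ := QuotientGroup.out_eq' _
      have h2 : x⁻¹ * (x • bs Λ).out ∈ Λ := by
        rw [smul_bs] at h1 ⊢
        exact QuotientGroup.eq.1 h1.symm
      have h3 : (x • bs Λ).out = x * (x⁻¹ * (x • bs Λ).out) := by group
      rw [hG]
      simp only
      rw [h3, cc_mul, hΛ0 _ h2, (smul_bs_iff Λ _).2 h2, zero_add]
    refine ⟨G, fun a _ => ?_⟩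
    obtain ⟨p, x⟩ := a
    obtain ⟨y, rfl⟩ : ∃ y : FreeGroup V, y • bs Λ = p :=
      ⟨p.out, by rw [smul_bs]; exact QuotientGroup.out_eq' _⟩
    simp only [ac_apply]
    rw [← mul_smul, hGw, hGw, cc_mul, cc_inv, cc_of]
    rw [smul_inv_smul]
    ring
  · intro Γ _ u τ hτ
    have hsub : A0 ⊆ Ai bl A i := by
      intro a ha
      refine mem_Ai.2 ⟨?_, (hA0 a ha).1⟩
      rw [hA]
      exact Finset.mem_union_right _ ha
    have h1 := hA0' Γ u τ fun a ha => hτ a (mem_Ai.1 (hsub ha)).1 (hA0 a ha).1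
      (joined_mono hsub (hA0 a ha).2)
    have h2 : x⁻¹ • bs Λ = bs Λ := by
      rw [inv_smul_eq_iff, (smul_bs_iff Λ _).2 hxΛ]
    rw [← hx, h2] at h1
    have := h1.symm
    rwa [mul_eq_left] at this

/-- component which is developable in the group of its block -/
def BDev {Ω : Type} (L : LOG V E) (bl : V → I) (act : V → Equiv.Perm Ω) (A : Finset (Ω × V))
    (i : I) (q : Ω) : Prop :=
  ∃ τ : Ω → (L.blk bl i).G, ∀ a ∈ A, bl a.2 = i → Joined act (Ai bl A i) q a.1 →
    τ (act a.2 a.1) = τ a.1 *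
      (if h : bl a.2 = i then (L.blk bl i).gen ⟨a.2, h⟩ else 1)

theorem dichotomyB (hT : S_THICK) {Ω : Type} (L : LOG V E) (bl : V → I) (act : V → Equiv.Perm Ω)
    (A : Finset (Ω × V)) (Sin : Finset (Ω × E)) (hin : ∀ s ∈ Sin, Inner L bl s.2 ∧ SqS L act A s)
    (i : I) (hloc : LocInd (L.blk bl i).G) (q : Ω) :
    BDev L bl act A i q ∨ ∃ f, CCoc L bl act A Sin i q f := by
  obtain ⟨τ, hτ⟩ | ⟨f, hf1, hf2, hf3⟩ := hT _ hloc V Ω act
    (fun x => if h : bl x = i then (L.blk bl i).gen ⟨x, h⟩ else 1) (Ai bl A i) q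
  · exact Or.inl ⟨τ, fun a ha hb hj => hτ a (mem_Ai.2 ⟨ha, hb⟩) hj⟩
  · refine Or.inr ⟨f, fun a ha => ?_, ?_, ?_⟩
    · obtain ⟨h1, h2⟩ := hf1 a ha
      exact ⟨(mem_Ai.1 h1).1, (mem_Ai.1 h1).2, h2⟩
    · intro s hs
      obtain ⟨⟨hi1, hi2⟩, hcl, hA1, hA2, hA3, hA4⟩ := hin s hs
      by_cases hb : bl (L.lab s.2) = i
      · apply hf2
        · exact ⟨hcl, mem_Ai.2 ⟨hA1, hi1.trans hb⟩, mem_Ai.2 ⟨hA2, hb⟩,
            mem_Ai.2 ⟨hA3, hi2.trans hb⟩, mem_Ai.2 ⟨hA4, hb⟩⟩
        · rw [dif_pos (hi1.trans hb), dif_pos hb, dif_pos (hi2.trans hb)]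
          exact gen_rel (L.blk bl i) ⟨s.2, hi1.trans hb, hi2.trans hb, hb⟩
      · have h0 : ∀ p x, bl x = bl (L.lab s.2) → f (p, x) = 0 := by
          intro p x hx
          by_contra hne
          exact hb (hx.symm.trans (mem_Ai.1 (hf1 _ hne).1).2)
        unfold sq
        rw [h0 _ _ hi1, h0 _ _ rfl, h0 _ _ hi2, h0 _ _ rfl]
        simp
    · rintro ⟨g, hg⟩
      exact hf3 ⟨g, fun a ha hj => hg a (mem_Ai.1 ha).1 (mem_Ai.1 ha).2 hj⟩

/-- reduction to the case without incidences -/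
theorem main_red (hLIN : S_LIN) (hCOUNT : S_COUNT) {Ω : Type} {L : LOG V E} {bl : V → I}
    {ε : I → Bool}
    (hS : Signed L bl ε) {act : V → Equiv.Perm Ω} {A : Finset (Ω × V)} {Sin : Finset (Ω × E)}
    (hdich : ∀ i q, CDev L bl act A i q ∨ ∃ f, CCoc L bl act A Sin i q f) (n : ℕ) :
    ∀ (Inc : Finset (Ω × I)) (S : Finset (Ω × E)), Inc.card = n →
      (∀ s ∈ S, Outer L bl s.2 ∧ SqS L act A s) →
      (∀ s ∈ S, ∀ x, slot L bl act s x ∈ Inc) → H1 L bl act A Sin Inc S →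
      H1 L bl act A Sin ∅ ∅ := by
  induction n with
  | zero =>
    intro Inc S hn hout hslot h1
    have hI : Inc = ∅ := Finset.card_eq_zero.1 hn
    subst hI
    have hS0 : S = ∅ := by
      rw [Finset.eq_empty_iff_forall_notMem]
      exact fun s hs => absurd (hslot s hs (0, true)) (Finset.notMem_empty _)
    rwa [hS0] at h1
  | succ n ih =>
    intro Inc S hn hout hslot h1
    by_cases hA : ∃ a ∈ Inc, uses L bl act S a = 0
    · obtain ⟨a, ha, hu⟩ := hA
      have hu' : ∀ s ∈ S, ∀ x, slot L bl act s x ≠ a := by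
        intro s hs x h
        have h5 := Finset.card_eq_zero.1 hu
        have h6 : (s, x) ∈ ((S ×ˢ (Finset.univ : Finset (Fin 4 × Bool))).filter fun x =>
          slot L bl act x.1 x.2 = a) :=
          Finset.mem_filter.2 ⟨Finset.mem_product.2 ⟨hs, Finset.mem_univ _⟩, h⟩
        rw [h5] at h6
        exact Finset.notMem_empty _ h6
      apply ih (Inc.erase a) S
      · rw [Finset.card_erase_of_mem ha, hn]; rfl
      · exact hout
      · intro s hs x
        exact Finset.mem_erase.2 ⟨hu' s hs x, hslot s hs x⟩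
      · exact h1_mono h1 (Finset.erase_subset _ _)
    by_cases hB : ∃ a ∈ Inc, uses L bl act S a = 1
    · obtain ⟨a, ha, hu⟩ := hB
      obtain ⟨⟨s₀, x₀⟩, h5⟩ := Finset.card_eq_one.1 hu
      have h6 : (s₀, x₀) ∈ ((S ×ˢ (Finset.univ : Finset (Fin 4 × Bool))).filter fun x =>
          slot L bl act x.1 x.2 = a) := by rw [h5]; exact Finset.mem_singleton_self _
      obtain ⟨h7, hx₀⟩ := Finset.mem_filter.1 h6
      have hs₀ := (Finset.mem_product.1 h7).1
      simp only at hs₀ hx₀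
      have hu' : ∀ s ∈ S, ∀ x, slot L bl act s x = a → s = s₀ ∧ x = x₀ := by
        intro s hs x h
        have h8 : (s, x) ∈ ((S ×ˢ (Finset.univ : Finset (Fin 4 × Bool))).filter fun x =>
          slot L bl act x.1 x.2 = a) :=
          Finset.mem_filter.2 ⟨Finset.mem_product.2 ⟨hs, Finset.mem_univ _⟩, h⟩
        rw [h5, Finset.mem_singleton] at h8
        exact ⟨congrArg Prod.fst h8, congrArg Prod.snd h8⟩
      apply ih (Inc.erase a) (S.erase s₀)
      · rw [Finset.card_erase_of_mem ha, hn]; rfl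
      · intro s hs
        exact hout s (Finset.mem_of_mem_erase hs)
      · intro s hs x
        refine Finset.mem_erase.2 ⟨fun h => ?_, hslot s (Finset.mem_of_mem_erase hs) x⟩
        exact (Finset.ne_of_mem_erase hs) (hu' s (Finset.mem_of_mem_erase hs) x h).1
      · exact h1_once h1 a s₀ x₀ hx₀ hu' hs₀
    exfalso
    push Not at hA hB
    refine contra hLIN hCOUNT hS hdich hout hslot h1 ?_ ?_
    · rw [← Finset.card_pos, hn]; omega
    · intro a ha
      have h5 := hA a ha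
      have h6 := hB a ha
      omega

/-- the blown up complex of a complex without cohomology -/
theorem start {Ω : Type} {L : LOG V E} {bl : V → I} {ε : I → Bool} (hS : Signed L bl ε)
    {act : V → Equiv.Perm Ω} {A : Finset (Ω × V)} {S : Finset (Ω × E)}
    (hsq : ∀ s ∈ S, SqIn act A s.1 (L.ini s.2) (L.lab s.2) (L.ter s.2))
    (hH : ∀ f : Ω × V → ℚ, (∀ s ∈ S, sq act f s.1 (L.ini s.2) (L.lab s.2) (L.ter s.2) = 0) →
        ∃ g : Ω → ℚ, ∀ a ∈ A, f a = g (act a.2 a.1) - g a.1) :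
    ∃ Inc : Finset (Ω × I), (∀ s ∈ S.filter (fun s => ¬ Inner L bl s.2),
        Outer L bl s.2 ∧ SqS L act A s) ∧
      (∀ s ∈ S.filter (fun s => ¬ Inner L bl s.2), ∀ x, slot L bl act s x ∈ Inc) ∧
      H1 L bl act A (S.filter fun s => Inner L bl s.2) Inc
        (S.filter fun s => ¬ Inner L bl s.2) := by
  set Inc : Finset (Ω × I) := A.image (fun a => (a.1, bl a.2)) ∪
    A.image (fun a => (act a.2 a.1, bl a.2)) with hInc
  have hI1 : ∀ a ∈ A, (a.1, bl a.2) ∈ Inc := fun a ha =>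
    Finset.mem_union_left _ (Finset.mem_image_of_mem (fun a : Ω × V => (a.1, bl a.2)) ha)
  have hI2 : ∀ a ∈ A, (act a.2 a.1, bl a.2) ∈ Inc := fun a ha =>
    Finset.mem_union_right _ (Finset.mem_image_of_mem (fun a : Ω × V => (act a.2 a.1, bl a.2)) ha)
  have hout : ∀ s ∈ S.filter (fun s => ¬ Inner L bl s.2), Outer L bl s.2 ∧ SqS L act A s := by
    intro s hs
    obtain ⟨h1, h2⟩ := Finset.mem_filter.1 hs
    exact ⟨(hS.types s.2).resolve_left h2, hsq s h1⟩
  have hcases : ∀ x : Fin 4 × Bool, x = (0, false) ∨ x = (0, true) ∨ x = (1, false) ∨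
      x = (1, true) ∨ x = (2, false) ∨ x = (2, true) ∨ x = (3, false) ∨ x = (3, true) := by decide
  refine ⟨Inc, hout, ?_, ?_⟩
  · intro s hs x
    obtain ⟨hcl, hA1, hA2, hA3, hA4⟩ := (hout s hs).2
    rcases hcases x with h | h | h | h | h | h | h | h
    · subst h; exact hI1 _ hA1
    · subst h; exact hI1 _ hA4
    · subst h; exact hI2 _ hA1
    · subst h; exact hI1 _ hA2
    · subst h; exact hI1 _ hA3
    · subst h; exact hI2 _ hA4
    · subst h
      have := hI2 _ hA3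
      simp only at this
      rw [← hcl] at this
      exact this
    · subst h; exact hI2 _ hA2
  have h8 : ∀ (F : Fin 4 × Bool → ℚ), ∑ x, sgn x * F x = F (0, false) - F (0, true) -
      F (1, false) + F (1, true) - F (2, false) + F (2, true) + F (3, false) - F (3, true) := by
    intro F
    rw [Fintype.sum_prod_type]
    simp only [Fin.sum_univ_four, Fintype.sum_bool, sgn, if_true, Bool.false_eq_true, if_false,
      Matrix.cons_val_zero, Matrix.cons_val_one, Matrix.cons_val]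
    ring
  intro f ψ hf hψ
  obtain ⟨g, hg⟩ := hH (fun a => f a + ψ (a.1, bl a.2) - ψ (act a.2 a.1, bl a.2)) (by
    intro s hs
    by_cases hi : Inner L bl s.2
    · have h5 := hf s (Finset.mem_filter.2 ⟨hs, hi⟩)
      obtain ⟨hi1, hi2⟩ := hi
      obtain ⟨hcl, -⟩ := hsq s hs
      unfold sq at h5 ⊢
      simp only [hi1, hi2]
      rw [hcl]
      linarith
    · have h5 := hψ s (Finset.mem_filter.2 ⟨hs, hi⟩)
      unfold coc at h5
      rw [h8 (fun x => ψ (slot L bl act s x))] at h5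
      obtain ⟨hcl, -⟩ := hsq s hs
      have g0g : (slot L bl act s (0, false)) = (s.1, bl (L.ini s.2)) := rfl
      have g0k : (slot L bl act s (0, true)) = (s.1, bl (L.lab s.2)) := rfl
      have g1g : (slot L bl act s (1, false)) = (act (L.ini s.2) s.1, bl (L.ini s.2)) := rfl
      have g1k : (slot L bl act s (1, true)) = (act (L.ini s.2) s.1, bl (L.lab s.2)) := rfl
      have g2d : (slot L bl act s (2, false)) = (act (L.lab s.2) s.1, bl (L.ter s.2)) := rfl
      have g2k : (slot L bl act s (2, true)) = (act (L.lab s.2) s.1, bl (L.lab s.2)) := rfl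
      have g3d : (slot L bl act s (3, false)) =
        (act (L.lab s.2) (act (L.ini s.2) s.1), bl (L.ter s.2)) := rfl
      have g3k : (slot L bl act s (3, true)) =
        (act (L.lab s.2) (act (L.ini s.2) s.1), bl (L.lab s.2)) := rfl
      rw [g0g, g0k, g1g, g1k, g2d, g2k, g3d, g3k] at h5
      unfold sq at h5 ⊢
      simp only
      rw [← hcl]
      linarith)
  refine ⟨g, fun i p => g p + ψ (p, i), fun a ha => ?_, fun a _ => ?_⟩
  · have h5 := hg a ha
    beta_reduce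
    linarith
  · beta_reduce
    ring

/-- The groups of the blocks embed (relative theorem). -/
theorem signed_inj (hT : S_THICK) (hLIN : S_LIN) (hCOUNT : S_COUNT) (L : LOG V E) (bl : V → I)
    (ε : I → Bool) (hS : Signed L bl ε) (hloc : ∀ i, LocInd (L.blk bl i).G) (i : I) :
    Function.Injective (blkHom L bl i) := by
  rw [injective_iff_map_eq_one]
  intro x hx
  obtain ⟨w, rfl⟩ := PresentedGroup.mk_surjective _ x
  have hmap : PresentedGroup.mk (Set.range L.rel) (FreeGroup.map Subtype.val w) = 1 := by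
    have h1 : (blkHom L bl i).comp (PresentedGroup.mk (Set.range (L.blk bl i).rel)) =
        (PresentedGroup.mk (Set.range L.rel)).comp (FreeGroup.map Subtype.val) := by
      apply FreeGroup.ext_hom
      intro v
      simp only [MonoidHom.comp_apply, FreeGroup.map.of]
      exact blkHom_gen L bl i v
    have h2 := DFunLike.congr_fun h1 w
    simp only [MonoidHom.comp_apply] at h2
    rw [← h2]
    exact hx
  obtain ⟨Ω, act, A, S, b, hsq, hH, hpath⟩ := null_data L bl i w hmap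
  obtain ⟨Inc, hout, hslot, h1⟩ := start hS hsq hH
  have hin : ∀ s ∈ S.filter (fun s => Inner L bl s.2), Inner L bl s.2 ∧ SqS L act A s := by
    intro s hs
    obtain ⟨h2, h3⟩ := Finset.mem_filter.1 hs
    exact ⟨h3, hsq s h2⟩
  have hred := main_red hLIN hCOUNT hS (fun i q => dichotomy hT L bl act A _ hin i (hloc i) q)
    Inc.card Inc _ rfl hout hslot h1
  have hB : BDev L bl act A i b := by
    refine (dichotomyB hT L bl act A _ hin i (hloc i) b).resolve_right ?_
    rintro ⟨f, hf1, hf2, hf3⟩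
    obtain ⟨gP, g, hg1, hg2⟩ := hred f (fun _ => 0) hf2
      (fun s hs => absurd hs (Finset.notMem_empty _))
    refine hf3 ⟨g i, fun a ha hb hj => ?_⟩
    have := hg1 a ha
    rwa [hb] at this
  obtain ⟨τ, hτ⟩ := hB
  have h5 := hpath (L.blk bl i).G
    (fun v => if h : bl v = i then (L.blk bl i).gen ⟨v, h⟩ else 1) τ hτ
  have h6 : FreeGroup.lift (fun v : {v : V // bl v = i} =>
      (if h : bl v.1 = i then (L.blk bl i).gen ⟨v.1, h⟩ else 1)) =
      PresentedGroup.mk (Set.range (L.blk bl i).rel) := by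
    apply FreeGroup.ext_hom
    intro v
    rw [FreeGroup.lift_apply_of, dif_pos v.2]
    rfl
  rw [h6] at h5
  exact h5

end Pool.Agent.H10.Inj.Emb
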