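import Pool.Agent.H10.Inj.Emb
import Pool.Agent.H10.Inj.Blocks

/-!
# The groups of the blocks embed: the injective block theorem
-/

set_option autoImplicit false

namespace Pool.Agent.H10.Inj.Emb

open Pool.Agent.H10.Inj.Rel Pool.Agent.H10.Inj.Blocks

open Classical

variable {V E I : Type}

/-- a map of labelled oriented graphs induces a homomorphism of the groups -/
noncomputable def mapHom {V' E' : Type} (L : LOG V E) (L' : LOG V' E') (α : V → V') (β : E → E')
    (h1 : ∀ e, L'.ini (β e) = α (L.ini e)) (h2 : ∀ e, L'.ter (β e) = α (L.ter e))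
    (h3 : ∀ e, L'.lab (β e) = α (L.lab e)) : L.G →* L'.G :=
  Inf.hom L (fun v => L'.gen (α v)) (fun e => by
    have := Inf.gen_rel L' (β e)
    rw [h1, h2, h3] at this
    exact this)

theorem mapHom_gen {V' E' : Type} (L : LOG V E) (L' : LOG V' E') (α : V → V') (β : E → E')
    (h1 : ∀ e, L'.ini (β e) = α (L.ini e)) (h2 : ∀ e, L'.ter (β e) = α (L.ter e))
    (h3 : ∀ e, L'.lab (β e) = α (L.lab e)) (v : V) :
    mapHom L L' α β h1 h2 h3 (L.gen v) = L'.gen (α v) := Inf.hom_gen _ _ _ _

theorem hom_ext' {G : Type} [Group G] {L : LOG V E} {f g : L.G →* G}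
    (h : ∀ v, f (L.gen v) = g (L.gen v)) : f = g := PresentedGroup.ext h

theorem mapHom_inj {V' E' : Type} (L : LOG V E) (L' : LOG V' E') (α : V → V') (β : E → E')
    (α' : V' → V) (β' : E' → E) (h1 : ∀ e, L'.ini (β e) = α (L.ini e))
    (h2 : ∀ e, L'.ter (β e) = α (L.ter e)) (h3 : ∀ e, L'.lab (β e) = α (L.lab e))
    (h1' : ∀ e, L.ini (β' e) = α' (L'.ini e)) (h2' : ∀ e, L.ter (β' e) = α' (L'.ter e))
    (h3' : ∀ e, L.lab (β' e) = α' (L'.lab e)) (hα : ∀ v, α' (α v) = v) :
    Function.Injective (mapHom L L' α β h1 h2 h3) := by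
  have hcomp : (mapHom L' L α' β' h1' h2' h3').comp (mapHom L L' α β h1 h2 h3) =
      MonoidHom.id _ := by
    apply hom_ext'
    intro v
    rw [MonoidHom.comp_apply, mapHom_gen, mapHom_gen, hα]
    rfl
  intro x y hxy
  have h5 := DFunLike.congr_fun hcomp x
  have h6 := DFunLike.congr_fun hcomp y
  simp only [MonoidHom.comp_apply, MonoidHom.id_apply] at h5 h6
  rw [← h5, ← h6, hxy]

/-- from the coarse partition to the fine one -/
theorem inj_of_coarse {J : Type} (L : LOG V E) (bl : V → I) (b : I → J) (j : J) (i : I)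
    (hi : b i = j) (h1 : Function.Injective (blkHom L (fun v => b (bl v)) j))
    (h2 : Function.Injective (blkHom (L.blk (fun v => b (bl v)) j) (fine bl b j) ⟨i, hi⟩)) :
    Function.Injective (blkHom L bl i) := by
  let μ : (L.blk bl i).G →* ((L.blk (fun v => b (bl v)) j).blk (fine bl b j) ⟨i, hi⟩).G :=
    mapHom (L.blk bl i) ((L.blk (fun v => b (bl v)) j).blk (fine bl b j) ⟨i, hi⟩)
      (fun v => ⟨⟨v.1, by rw [v.2]; exact hi⟩, Subtype.ext v.2⟩)
      (fun e => ⟨⟨e.1, by rw [e.2.1]; exact hi, by rw [e.2.2.1]; exact hi,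
        by rw [e.2.2.2]; exact hi⟩, Subtype.ext e.2.1, Subtype.ext e.2.2.1, Subtype.ext e.2.2.2⟩)
      (fun e => rfl) (fun e => rfl) (fun e => rfl)
  have hμ : Function.Injective μ :=
    mapHom_inj _ _ _ _ (fun x => ⟨x.1.1, congrArg Subtype.val x.2⟩)
      (fun e => ⟨e.1.1, congrArg Subtype.val e.2.1, congrArg Subtype.val e.2.2.1,
        congrArg Subtype.val e.2.2.2⟩) _ _ _ (fun e => rfl) (fun e => rfl) (fun e => rfl)
        (fun v => rfl)
  have hcomp : ((blkHom L (fun v => b (bl v)) j).comp
      (blkHom (L.blk (fun v => b (bl v)) j) (fine bl b j) ⟨i, hi⟩)).comp μ = blkHom L bl i := by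
    apply hom_ext'
    intro v
    rw [MonoidHom.comp_apply, MonoidHom.comp_apply, mapHom_gen, blkHom_gen, blkHom_gen, blkHom_gen]
  rw [← hcomp]
  exact (h1.comp h2).comp hμ

/-- the case of an amalgamated product -/
theorem ama_inj (hT : S_THICK) (hLIN : S_LIN) (hCOUNT : S_COUNT) (hONE : S_ONE) (L : LOG V E)
    (bl : V → Bool) (e₀ : E) (he₀ : bl (L.ini e₀) ≠ bl (L.ter e₀))
    (hin : ∀ e, e ≠ e₀ → Inner L bl e) (hblk : ∀ i, LocInd (L.blk bl i).G) (i : Bool) :
    Function.Injective (blkHom L bl i) := by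
  have h1 : Function.Injective (blkHom (Ama.ext L e₀) (Option.map bl) (some i)) := by
    refine signed_inj hT hLIN hCOUNT _ _ (fun _ => true) (Ama.signed L bl e₀ hin) ?_ (some i)
    intro i
    cases i with
    | none => exact Ama.blk_none hONE L bl e₀
    | some i => exact Ama.blk_some L bl e₀ i he₀ (hblk i)
  obtain ⟨w, F, -, hF⟩ := Ama.exists_conj L bl e₀ he₀ hin
  have hne : ∀ e : {e : E // bl (L.ini e) = i ∧ bl (L.ter e) = i ∧ bl (L.lab e) = i}, e.1 ≠ e₀ := by
    intro e he
    exact he₀ (by rw [← he, e.2.1, e.2.2.1])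
  have hne' : ∀ e : {e : E // Option.map bl ((Ama.ext L e₀).ini e) = some i ∧
      Option.map bl ((Ama.ext L e₀).ter e) = some i ∧
      Option.map bl ((Ama.ext L e₀).lab e) = some i}, e.1 ≠ e₀ := by
    intro e he
    have h3 := e.2.2.2
    rw [he, Ama.ext_lab] at h3
    simp at h3
  have hdec : ∀ x : {x : Option V // Option.map bl x = some i}, ∃ v : {v : V // bl v = i},
      x.1 = some v.1 := by
    rintro ⟨x, hx⟩
    obtain ⟨v, rfl, hv⟩ := Option.map_eq_some_iff.1 hx
    exact ⟨⟨v, hv⟩, rfl⟩
  choose dec hdec using hdec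
  have hdec' : ∀ (x : {x : Option V // Option.map bl x = some i}) (v : {v : V // bl v = i}),
      x.1 = some v.1 → dec x = v := by
    intro x v h
    apply Subtype.ext
    have := hdec x
    rw [h] at this
    exact (Option.some_injective _ this).symm
  let α : {v : V // bl v = i} → {x : Option V // Option.map bl x = some i} := fun v =>
    ⟨some v.1, by rw [Option.map_some, v.2]⟩
  have hlab : ∀ e : E, e ≠ e₀ → (Ama.ext L e₀).lab e = some (L.lab e) := fun e he =>
    Ama.ext_lab' L e₀ e he
  let β : {e : E // bl (L.ini e) = i ∧ bl (L.ter e) = i ∧ bl (L.lab e) = i} →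
      {e : E // Option.map bl ((Ama.ext L e₀).ini e) = some i ∧
      Option.map bl ((Ama.ext L e₀).ter e) = some i ∧
      Option.map bl ((Ama.ext L e₀).lab e) = some i} := fun e =>
    ⟨e.1, by rw [Ama.ext_ini, Option.map_some, e.2.1], by rw [Ama.ext_ter, Option.map_some, e.2.2.1],
      by rw [hlab _ (hne e), Option.map_some, e.2.2.2]⟩
  let β' : {e : E // Option.map bl ((Ama.ext L e₀).ini e) = some i ∧
      Option.map bl ((Ama.ext L e₀).ter e) = some i ∧
      Option.map bl ((Ama.ext L e₀).lab e) = some i} →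
      {e : E // bl (L.ini e) = i ∧ bl (L.ter e) = i ∧ bl (L.lab e) = i} := fun e =>
    ⟨e.1, by
      have := e.2.1
      rwa [Ama.ext_ini, Option.map_some, Option.some_inj] at this, by
      have := e.2.2.1
      rwa [Ama.ext_ter, Option.map_some, Option.some_inj] at this, by
      have := e.2.2.2
      rwa [hlab _ (hne' e), Option.map_some, Option.some_inj] at this⟩
  let μ : (L.blk bl i).G →* ((Ama.ext L e₀).blk (Option.map bl) (some i)).G :=
    mapHom _ _ α β (fun e => rfl) (fun e => rfl) (fun e => Subtype.ext (hlab _ (hne e)))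
  have hμ : Function.Injective μ :=
    mapHom_inj _ _ _ _ dec β' _ _ _
      (fun e => (hdec' _ _ rfl).symm) (fun e => (hdec' _ _ rfl).symm)
      (fun e => (hdec' _ _ (hlab _ (hne' e))).symm) (fun v => hdec' _ _ rfl)
  have hcomp : F.comp (blkHom L bl i) = ((MulAut.conj (w i)).toMonoidHom.comp
      (blkHom (Ama.ext L e₀) (Option.map bl) (some i))).comp μ := by
    apply hom_ext'
    intro v
    have e1 : μ ((L.blk bl i).gen v) = ((Ama.ext L e₀).blk (Option.map bl) (some i)).gen (α v) :=
      mapHom_gen _ _ _ _ _ _ _ _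
    rw [MonoidHom.comp_apply, MonoidHom.comp_apply, MonoidHom.comp_apply, e1, blkHom_gen,
      blkHom_gen, hF, v.2]
    rfl
  have h2 : Function.Injective (F.comp (blkHom L bl i)) := by
    rw [hcomp]
    exact ((MulAut.conj (w i)).injective.comp h1).comp hμ
  exact Function.Injective.of_comp h2

theorem fin_aux (hREL : S_REL) (hAMA : S_AMA) (hPART : S_PART) (hT : S_THICK) (hLIN : S_LIN)
    (hCOUNT : S_COUNT) (hONE : S_ONE) (n : ℕ) :
    ∀ (V E I : Type) [Fintype I] (L : LOG V E) (bl : V → I), Fintype.card I = n →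
      InjForest L bl → (∀ i, LocInd (L.blk bl i).G) →
      ∀ i, Function.Injective (blkHom L bl i) := by
  induction n using Nat.strong_induction_on with
  | _ n ih =>
    intro V E I _ L bl hn hinj hloc i
    have hblk : ∀ (J : Type) (b : I → J) (j : J), LocInd (L.blk (fun v => b (bl v)) j).G :=
      fun J b j => Blocks.fin hREL hAMA hPART _ (fine bl b j) (injForest_fine hinj b j)
        (locInd_fine L bl b j hloc)
    have hfine : ∀ (J : Type) (b : I → J) (j : J) (hi : b i = j), (∃ i, b i ≠ j) →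
        Function.Injective (blkHom (L.blk (fun v => b (bl v)) j) (fine bl b j) ⟨i, hi⟩) := by
      intro J b j hi ⟨i₀, hi₀⟩
      refine ih (Fintype.card {i : I // b i = j}) ?_ _ _ {i : I // b i = j} _ (fine bl b j) rfl
        (injForest_fine hinj b j) (locInd_fine L bl b j hloc) ⟨i, hi⟩
      rw [← hn]
      exact Fintype.card_subtype_lt hi₀
    by_cases h2 : 2 ≤ Fintype.card I
    · rcases hPART I {e : E // ¬ Inner L bl e} (quo L bl)
        (fun e e' he => Subtype.ext (hinj.inj e.1 e'.1 e.2 e'.2 he))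
        (by
          intro B D hB hD
          have h1 := hinj.forest B (D.image Subtype.val) hB (by
            intro e he
            obtain ⟨e', he', rfl⟩ := Finset.mem_image.1 he
            exact ⟨e'.2, hD e' he'⟩)
          rwa [Finset.card_image_of_injective _ Subtype.val_injective] at h1) h2 with
        ⟨J, b, ε, hprop, hS⟩ | ⟨b, e₀, he₀, hin⟩
      · refine inj_of_coarse L bl b (b i) i rfl ?_ (hfine J b (b i) rfl (hprop (b i)))
        refine signed_inj hT hLIN hCOUNT L (fun v => b (bl v)) ε ⟨fun e => ?_,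
          fun c B D hB hD => ?_⟩ (fun j => hblk J b j) (b i)
        · by_cases he : Inner L bl e
          · left
            exact ⟨congrArg b he.1, congrArg b he.2⟩
          · exact hS.types ⟨e, he⟩
        · have hni : ∀ e ∈ D, ¬ Inner L bl e := by
            intro e he h
            exact (hD e he).1.1 (congrArg b h.1)
          have h1 := hS.forest c B (D.subtype fun e => ¬ Inner L bl e) hB (by
            intro e he
            exact hD e.1 (Finset.mem_subtype.1 he))
          rwa [Finset.card_subtype, Finset.filter_true_of_mem hni] at h1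
      · refine inj_of_coarse L bl b (b i) i rfl ?_ (hfine Bool b (b i) rfl ?_)
        · refine ama_inj hT hLIN hCOUNT hONE L (fun v => b (bl v)) e₀.1 he₀ (fun e he => ?_)
            (fun c => hblk Bool b c) (b i)
          by_cases hie : Inner L bl e
          · exact ⟨congrArg b hie.1, congrArg b hie.2⟩
          · exact hin ⟨e, hie⟩ (fun h => he (congrArg Subtype.val h))
        · by_contra hcon
          push Not at hcon
          exact he₀ ((hcon _).trans (hcon _).symm)
    · have hsub : Subsingleton I := Fintype.card_le_one_iff_subsingleton.1 (by omega)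
      refine signed_inj hT hLIN hCOUNT L bl (fun _ => true) ⟨fun e => Or.inl
        ⟨Subsingleton.elim _ _, Subsingleton.elim _ _⟩, fun c B D hB hD => ?_⟩ hloc i
      have hD0 : D = ∅ := by
        rw [Finset.eq_empty_iff_forall_notMem]
        intro e he
        exact (hD e he).1.1 (Subsingleton.elim _ _)
      rw [hD0, Finset.card_empty, zero_add]
      exact hB.card_pos

/-- **The groups of the blocks embed** (injective block theorem). -/
theorem main_inj (hREL : S_REL) (hAMA : S_AMA) (hPART : S_PART) (hT : S_THICK) (hLIN : S_LIN)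
    (hCOUNT : S_COUNT) (hONE : S_ONE) (L : LOG V E) (bl : V → I) (h : InjForest L bl)
    (hloc : ∀ i, LocInd (L.blk bl i).G) (i : I) : Function.Injective (blkHom L bl i) := by
  rw [injective_iff_map_eq_one]
  intro x hx
  obtain ⟨w, rfl⟩ := PresentedGroup.mk_surjective _ x
  have hmap : PresentedGroup.mk (Set.range L.rel) (FreeGroup.map Subtype.val w) = 1 := by
    have h1 : (blkHom L bl i).comp (PresentedGroup.mk (Set.range (L.blk bl i).rel)) =
        (PresentedGroup.mk (Set.range L.rel)).comp (FreeGroup.map Subtype.val) := by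
      apply FreeGroup.ext_hom
      intro v
      simp only [MonoidHom.comp_apply, FreeGroup.map.of]
      exact blkHom_gen L bl i v
    have h2 := DFunLike.congr_fun h1 w
    simp only [MonoidHom.comp_apply] at h2
    rw [← h2]
    exact hx
  obtain ⟨Ω, act, A, S, q, hsq, hH, hpath⟩ := null_data L bl i w hmap
  set I0 : Finset I := insert i (A.image (fun a => bl a.2)) with hI0
  have hmem : ∀ a ∈ A, bl a.2 ∈ I0 := fun a ha =>
    Finset.mem_insert_of_mem (Finset.mem_image_of_mem (fun a => bl a.2) ha)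
  let b : I → Bool := fun i => decide (i ∈ I0)
  have hfin : Finite {i : I // b i = true} := by
    refine Finite.of_injective (fun i => (⟨i.1, by simpa [b] using i.2⟩ : I0)) ?_
    intro i j hij
    exact Subtype.ext (congrArg (fun x : I0 => x.1) hij)
  have hbi : b i = true := decide_eq_true (Finset.mem_insert_self _ _)
  have hF := injForest_fine h b true
  have hlf := locInd_fine L bl b true hloc
  have hL0 : LocInd (L.blk (fun v => b (bl v)) true).G :=
    Blocks.fin hREL hAMA hPART _ (fine bl b true) hF hlf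
  have hbt : ∀ a ∈ A, b (bl a.2) = true := fun a ha => decide_eq_true (hmem a ha)
  let u : V → (L.blk (fun v => b (bl v)) true).G := fun v =>
    if hv : b (bl v) = true then (L.blk (fun v => b (bl v)) true).gen ⟨v, hv⟩ else 1
  obtain ⟨τ, hτ⟩ : ∃ τ : Ω → (L.blk (fun v => b (bl v)) true).G, ∀ a ∈ A,
      Joined act A q a.1 → τ (act a.2 a.1) = τ a.1 * u a.2 := by
    refine (hT _ hL0 V Ω act u A q).resolve_right ?_
    rintro ⟨f, hf1, hf2, hf3⟩
    obtain ⟨g, hg⟩ := hH f (by
      intro s hs
      obtain ⟨hcl, hA1, hA2, hA3, hA4⟩ := hsq s hs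
      refine hf2 _ _ _ _ (hsq s hs) ?_
      simp only [u]
      rw [dif_pos (hbt _ hA1), dif_pos (hbt _ hA2), dif_pos (hbt _ hA3)]
      exact Inf.gen_rel (L.blk (fun v => b (bl v)) true) ⟨s.2, hbt _ hA1, hbt _ hA3, hbt _ hA2⟩)
    exact hf3 ⟨g, fun a ha _ => hg a ha⟩
  have h5 := hpath _ u τ (fun a ha hb hj => hτ a ha
    (joined_mono (fun c hc => (mem_Ai.1 hc).1) hj))
  -- the block `i` of the finite subgraph
  have hfinE : Function.Injective
      (blkHom (L.blk (fun v => b (bl v)) true) (fine bl b true) ⟨i, hbi⟩) := by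
    obtain ⟨_⟩ := nonempty_fintype {i : I // b i = true}
    exact fin_aux hREL hAMA hPART hT hLIN hCOUNT hONE _ _ _ _ _ _ rfl hF hlf _
  let μ : (L.blk bl i).G →* ((L.blk (fun v => b (bl v)) true).blk (fine bl b true) ⟨i, hbi⟩).G :=
    mapHom (L.blk bl i) ((L.blk (fun v => b (bl v)) true).blk (fine bl b true) ⟨i, hbi⟩)
      (fun v => ⟨⟨v.1, by rw [v.2]; exact hbi⟩, Subtype.ext v.2⟩)
      (fun e => ⟨⟨e.1, by rw [e.2.1]; exact hbi, by rw [e.2.2.1]; exact hbi,
        by rw [e.2.2.2]; exact hbi⟩, Subtype.ext e.2.1, Subtype.ext e.2.2.1,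
        Subtype.ext e.2.2.2⟩)
      (fun e => rfl) (fun e => rfl) (fun e => rfl)
  have hμ : Function.Injective μ :=
    mapHom_inj _ _ _ _ (fun x => ⟨x.1.1, congrArg Subtype.val x.2⟩)
      (fun e => ⟨e.1.1, congrArg Subtype.val e.2.1, congrArg Subtype.val e.2.2.1,
        congrArg Subtype.val e.2.2.2⟩) _ _ _ (fun e => rfl) (fun e => rfl) (fun e => rfl)
        (fun v => rfl)
  have h6 : FreeGroup.lift (fun v : {v : V // bl v = i} => u v.1) =
      ((blkHom (L.blk (fun v => b (bl v)) true) (fine bl b true) ⟨i, hbi⟩).comp μ).comp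
        (PresentedGroup.mk (Set.range (L.blk bl i).rel)) := by
    apply FreeGroup.ext_hom
    intro v
    have hv : b (bl v.1) = true := by rw [v.2]; exact hbi
    have e1 : μ ((L.blk bl i).gen v) =
        ((L.blk (fun v => b (bl v)) true).blk (fine bl b true) ⟨i, hbi⟩).gen
          ⟨⟨v.1, hv⟩, Subtype.ext v.2⟩ := mapHom_gen _ _ _ _ _ _ _ _
    have e2 : PresentedGroup.mk (Set.range (L.blk bl i).rel) (FreeGroup.of v) =
        (L.blk bl i).gen v := rfl
    rw [FreeGroup.lift_apply_of, MonoidHom.comp_apply, MonoidHom.comp_apply, e2, e1, blkHom_gen]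
    exact dif_pos hv
  rw [h6, MonoidHom.comp_apply, MonoidHom.comp_apply] at h5
  have h7 := (injective_iff_map_eq_one _).1 hfinE _ h5
  exact (injective_iff_map_eq_one _).1 hμ _ h7

end Pool.Agent.H10.Inj.Emb
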