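import Pool.Agent.H10.Inj.Emb

/-!
# Reducible systems: a general form of the relative theorem, and the one-sided theorem
-/

set_option autoImplicit false

namespace Pool.Agent.H10.Inj.Gen

open Pool.Agent.H10.Inj.Data Pool.Agent.H10.Inj.Rel Pool.Agent.H10.Inj.Emb

open Classical

variable {V E I Ω : Type}

/-- some incidence is used at most once -/
def Reducible (L : LOG V E) (bl : V → I) (act : V → Equiv.Perm Ω) (A : Finset (Ω × V))
    (Sin : Finset (Ω × E)) : Prop :=
  ∀ (Inc : Finset (Ω × I)) (S : Finset (Ω × E)), (∀ s ∈ S, ¬ Inner L bl s.2 ∧ SqS L act A s) →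
    (∀ s ∈ S, ∀ x, slot L bl act s x ∈ Inc) → H1 L bl act A Sin Inc S → Inc.Nonempty →
    ¬ ∀ a ∈ Inc, 2 ≤ uses L bl act S a

theorem main_dev {L : LOG V E} {bl : V → I} {act : V → Equiv.Perm Ω} {A : Finset (Ω × V)}
    {Sin : Finset (Ω × E)} (hR : Reducible L bl act A Sin)
    (hdich : ∀ i q, CDev L bl act A i q ∨ ∃ f, CCoc L bl act A Sin i q f) (n : ℕ) :
    ∀ (Inc : Finset (Ω × I)) (S : Finset (Ω × E)), Inc.card = n →
      (∀ s ∈ S, ¬ Inner L bl s.2 ∧ SqS L act A s) →
      (∀ s ∈ S, ∀ x, slot L bl act s x ∈ Inc) → H1 L bl act A Sin Inc S →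
      Dev L bl act A Inc := by
  induction n with
  | zero =>
    intro Inc S hn hout hslot h1
    have hI : Inc = ∅ := Finset.card_eq_zero.1 hn
    subst hI
    apply dev_empty
    intro i q
    refine (hdich i q).resolve_right ?_
    rintro ⟨f, hf1, hf2, hf3⟩
    have hS0 : ∀ s ∈ S, False := fun s hs => absurd (hslot s hs (0, true)) (Finset.notMem_empty _)
    obtain ⟨gP, g, hg1, hg2⟩ := h1 f (fun _ => 0) hf2 (fun s hs => (hS0 s hs).elim)
    refine hf3 ⟨g i, fun a ha hb hj => ?_⟩
    have := hg1 a ha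
    rwa [hb] at this
  | succ n ih =>
    intro Inc S hn hout hslot h1
    by_cases hA : ∃ a ∈ Inc, uses L bl act S a = 0
    · obtain ⟨a, ha, hu⟩ := hA
      have hu' : ∀ s ∈ S, ∀ x, slot L bl act s x ≠ a := by
        intro s hs x h
        have h5 := Finset.card_eq_zero.1 hu
        have h6 : (s, x) ∈ ((S ×ˢ (Finset.univ : Finset (Fin 4 × Bool))).filter fun x =>
          slot L bl act x.1 x.2 = a) :=
          Finset.mem_filter.2 ⟨Finset.mem_product.2 ⟨hs, Finset.mem_univ _⟩, h⟩
        rw [h5] at h6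
        exact Finset.notMem_empty _ h6
      apply dev_unused h1 a ha hu'
      apply ih _ S
      · rw [Finset.card_erase_of_mem ha, hn]; rfl
      · exact hout
      · intro s hs x
        exact Finset.mem_erase.2 ⟨hu' s hs x, hslot s hs x⟩
      · exact h1_mono h1 (Finset.erase_subset _ _)
    by_cases hB : ∃ a ∈ Inc, uses L bl act S a = 1
    · obtain ⟨a, ha, hu⟩ := hB
      obtain ⟨⟨s₀, x₀⟩, h5⟩ := Finset.card_eq_one.1 hu
      have h6 : (s₀, x₀) ∈ ((S ×ˢ (Finset.univ : Finset (Fin 4 × Bool))).filter fun x =>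
          slot L bl act x.1 x.2 = a) := by rw [h5]; exact Finset.mem_singleton_self _
      obtain ⟨h7, hx₀⟩ := Finset.mem_filter.1 h6
      have hs₀ := (Finset.mem_product.1 h7).1
      simp only at hs₀ hx₀
      have hu' : ∀ s ∈ S, ∀ x, slot L bl act s x = a → s = s₀ ∧ x = x₀ := by
        intro s hs x h
        have h8 : (s, x) ∈ ((S ×ˢ (Finset.univ : Finset (Fin 4 × Bool))).filter fun x =>
          slot L bl act x.1 x.2 = a) :=
          Finset.mem_filter.2 ⟨Finset.mem_product.2 ⟨hs, Finset.mem_univ _⟩, h⟩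
        rw [h5, Finset.mem_singleton] at h8
        exact ⟨congrArg Prod.fst h8, congrArg Prod.snd h8⟩
      apply dev_once a s₀ x₀ hx₀ (fun x hx => (hu' s₀ hs₀ x hx).2) (hout s₀ hs₀).2
        (fun x => hslot s₀ hs₀ x)
      apply ih _ (S.erase s₀)
      · rw [Finset.card_erase_of_mem ha, hn]; rfl
      · intro s hs
        exact hout s (Finset.mem_of_mem_erase hs)
      · intro s hs x
        refine Finset.mem_erase.2 ⟨fun h => ?_, hslot s (Finset.mem_of_mem_erase hs) x⟩
        exact (Finset.ne_of_mem_erase hs) (hu' s (Finset.mem_of_mem_erase hs) x h).1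
      · exact h1_once h1 a s₀ x₀ hx₀ hu' hs₀
    exfalso
    push Not at hA hB
    refine hR Inc S hout hslot h1 ?_ ?_
    · rw [← Finset.card_pos, hn]; omega
    · intro a ha
      have h5 := hA a ha
      have h6 := hB a ha
      omega

theorem main_red {L : LOG V E} {bl : V → I} {act : V → Equiv.Perm Ω} {A : Finset (Ω × V)}
    {Sin : Finset (Ω × E)} (hR : Reducible L bl act A Sin) (n : ℕ) :
    ∀ (Inc : Finset (Ω × I)) (S : Finset (Ω × E)), Inc.card = n →
      (∀ s ∈ S, ¬ Inner L bl s.2 ∧ SqS L act A s) →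
      (∀ s ∈ S, ∀ x, slot L bl act s x ∈ Inc) → H1 L bl act A Sin Inc S →
      H1 L bl act A Sin ∅ ∅ := by
  induction n with
  | zero =>
    intro Inc S hn hout hslot h1
    have hI : Inc = ∅ := Finset.card_eq_zero.1 hn
    subst hI
    have hS0 : S = ∅ := by
      rw [Finset.eq_empty_iff_forall_notMem]
      exact fun s hs => absurd (hslot s hs (0, true)) (Finset.notMem_empty _)
    rwa [hS0] at h1
  | succ n ih =>
    intro Inc S hn hout hslot h1
    by_cases hA : ∃ a ∈ Inc, uses L bl act S a = 0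
    · obtain ⟨a, ha, hu⟩ := hA
      have hu' : ∀ s ∈ S, ∀ x, slot L bl act s x ≠ a := by
        intro s hs x h
        have h5 := Finset.card_eq_zero.1 hu
        have h6 : (s, x) ∈ ((S ×ˢ (Finset.univ : Finset (Fin 4 × Bool))).filter fun x =>
          slot L bl act x.1 x.2 = a) :=
          Finset.mem_filter.2 ⟨Finset.mem_product.2 ⟨hs, Finset.mem_univ _⟩, h⟩
        rw [h5] at h6
        exact Finset.notMem_empty _ h6
      apply ih (Inc.erase a) S
      · rw [Finset.card_erase_of_mem ha, hn]; rfl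
      · exact hout
      · intro s hs x
        exact Finset.mem_erase.2 ⟨hu' s hs x, hslot s hs x⟩
      · exact h1_mono h1 (Finset.erase_subset _ _)
    by_cases hB : ∃ a ∈ Inc, uses L bl act S a = 1
    · obtain ⟨a, ha, hu⟩ := hB
      obtain ⟨⟨s₀, x₀⟩, h5⟩ := Finset.card_eq_one.1 hu
      have h6 : (s₀, x₀) ∈ ((S ×ˢ (Finset.univ : Finset (Fin 4 × Bool))).filter fun x =>
          slot L bl act x.1 x.2 = a) := by rw [h5]; exact Finset.mem_singleton_self _
      obtain ⟨h7, hx₀⟩ := Finset.mem_filter.1 h6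
      have hs₀ := (Finset.mem_product.1 h7).1
      simp only at hs₀ hx₀
      have hu' : ∀ s ∈ S, ∀ x, slot L bl act s x = a → s = s₀ ∧ x = x₀ := by
        intro s hs x h
        have h8 : (s, x) ∈ ((S ×ˢ (Finset.univ : Finset (Fin 4 × Bool))).filter fun x =>
          slot L bl act x.1 x.2 = a) :=
          Finset.mem_filter.2 ⟨Finset.mem_product.2 ⟨hs, Finset.mem_univ _⟩, h⟩
        rw [h5, Finset.mem_singleton] at h8
        exact ⟨congrArg Prod.fst h8, congrArg Prod.snd h8⟩
      apply ih (Inc.erase a) (S.erase s₀)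
      · rw [Finset.card_erase_of_mem ha, hn]; rfl
      · intro s hs
        exact hout s (Finset.mem_of_mem_erase hs)
      · intro s hs x
        refine Finset.mem_erase.2 ⟨fun h => ?_, hslot s (Finset.mem_of_mem_erase hs) x⟩
        exact (Finset.ne_of_mem_erase hs) (hu' s (Finset.mem_of_mem_erase hs) x h).1
      · exact h1_once h1 a s₀ x₀ hx₀ hu' hs₀
    exfalso
    push Not at hA hB
    refine hR Inc S hout hslot h1 ?_ ?_
    · rw [← Finset.card_pos, hn]; omega
    · intro a ha
      have h5 := hA a ha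
      have h6 := hB a ha
      omega

/-- the blown up complex of a complex without cohomology -/
theorem start {L : LOG V E} {bl : V → I} {act : V → Equiv.Perm Ω} {A : Finset (Ω × V)}
    {S : Finset (Ω × E)}
    (hsq : ∀ s ∈ S, SqIn act A s.1 (L.ini s.2) (L.lab s.2) (L.ter s.2))
    (hH : ∀ f : Ω × V → ℚ, (∀ s ∈ S, sq act f s.1 (L.ini s.2) (L.lab s.2) (L.ter s.2) = 0) →
        ∃ g : Ω → ℚ, ∀ a ∈ A, f a = g (act a.2 a.1) - g a.1) :
    ∃ Inc : Finset (Ω × I), (∀ a ∈ A, (a.1, bl a.2) ∈ Inc ∧ (act a.2 a.1, bl a.2) ∈ Inc) ∧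
      (∀ s ∈ S.filter (fun s => ¬ Inner L bl s.2), ¬ Inner L bl s.2 ∧ SqS L act A s) ∧
      (∀ s ∈ S.filter (fun s => ¬ Inner L bl s.2), ∀ x, slot L bl act s x ∈ Inc) ∧
      H1 L bl act A (S.filter fun s => Inner L bl s.2) Inc
        (S.filter fun s => ¬ Inner L bl s.2) := by
  set Inc : Finset (Ω × I) := A.image (fun a => (a.1, bl a.2)) ∪
    A.image (fun a => (act a.2 a.1, bl a.2)) with hInc
  have hI1 : ∀ a ∈ A, (a.1, bl a.2) ∈ Inc := fun a ha =>
    Finset.mem_union_left _ (Finset.mem_image_of_mem (fun a : Ω × V => (a.1, bl a.2)) ha)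
  have hI2 : ∀ a ∈ A, (act a.2 a.1, bl a.2) ∈ Inc := fun a ha =>
    Finset.mem_union_right _ (Finset.mem_image_of_mem (fun a : Ω × V => (act a.2 a.1, bl a.2)) ha)
  have hout : ∀ s ∈ S.filter (fun s => ¬ Inner L bl s.2), ¬ Inner L bl s.2 ∧ SqS L act A s := by
    intro s hs
    obtain ⟨h1, h2⟩ := Finset.mem_filter.1 hs
    exact ⟨h2, hsq s h1⟩
  have hcases : ∀ x : Fin 4 × Bool, x = (0, false) ∨ x = (0, true) ∨ x = (1, false) ∨
      x = (1, true) ∨ x = (2, false) ∨ x = (2, true) ∨ x = (3, false) ∨ x = (3, true) := by decide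
  refine ⟨Inc, fun a ha => ⟨hI1 a ha, hI2 a ha⟩, hout, ?_, ?_⟩
  · intro s hs x
    obtain ⟨hcl, hA1, hA2, hA3, hA4⟩ := (hout s hs).2
    rcases hcases x with h | h | h | h | h | h | h | h
    · subst h; exact hI1 _ hA1
    · subst h; exact hI1 _ hA4
    · subst h; exact hI2 _ hA1
    · subst h; exact hI1 _ hA2
    · subst h; exact hI1 _ hA3
    · subst h; exact hI2 _ hA4
    · subst h
      have := hI2 _ hA3
      simp only at this
      rw [← hcl] at this
      exact this
    · subst h; exact hI2 _ hA2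
  have h8 : ∀ (F : Fin 4 × Bool → ℚ), ∑ x, sgn x * F x = F (0, false) - F (0, true) -
      F (1, false) + F (1, true) - F (2, false) + F (2, true) + F (3, false) - F (3, true) := by
    intro F
    rw [Fintype.sum_prod_type]
    simp only [Fin.sum_univ_four, Fintype.sum_bool, sgn, if_true, Bool.false_eq_true, if_false,
      Matrix.cons_val_zero, Matrix.cons_val_one, Matrix.cons_val]
    ring
  intro f ψ hf hψ
  obtain ⟨g, hg⟩ := hH (fun a => f a + ψ (a.1, bl a.2) - ψ (act a.2 a.1, bl a.2)) (by
    intro s hs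
    by_cases hi : Inner L bl s.2
    · have h5 := hf s (Finset.mem_filter.2 ⟨hs, hi⟩)
      obtain ⟨hi1, hi2⟩ := hi
      obtain ⟨hcl, -⟩ := hsq s hs
      unfold sq at h5 ⊢
      simp only [hi1, hi2]
      rw [hcl]
      linarith
    · have h5 := hψ s (Finset.mem_filter.2 ⟨hs, hi⟩)
      unfold coc at h5
      rw [h8 (fun x => ψ (slot L bl act s x))] at h5
      obtain ⟨hcl, -⟩ := hsq s hs
      have g0g : (slot L bl act s (0, false)) = (s.1, bl (L.ini s.2)) := rfl
      have g0k : (slot L bl act s (0, true)) = (s.1, bl (L.lab s.2)) := rfl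
      have g1g : (slot L bl act s (1, false)) = (act (L.ini s.2) s.1, bl (L.ini s.2)) := rfl
      have g1k : (slot L bl act s (1, true)) = (act (L.ini s.2) s.1, bl (L.lab s.2)) := rfl
      have g2d : (slot L bl act s (2, false)) = (act (L.lab s.2) s.1, bl (L.ter s.2)) := rfl
      have g2k : (slot L bl act s (2, true)) = (act (L.lab s.2) s.1, bl (L.lab s.2)) := rfl
      have g3d : (slot L bl act s (3, false)) =
        (act (L.lab s.2) (act (L.ini s.2) s.1), bl (L.ter s.2)) := rfl
      have g3k : (slot L bl act s (3, true)) =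
        (act (L.lab s.2) (act (L.ini s.2) s.1), bl (L.lab s.2)) := rfl
      rw [g0g, g0k, g1g, g1k, g2d, g2k, g3d, g3k] at h5
      unfold sq at h5 ⊢
      simp only
      rw [← hcl]
      linarith)
  refine ⟨g, fun i p => g p + ψ (p, i), fun a ha => ?_, fun a _ => ?_⟩
  · have h5 := hg a ha
    beta_reduce
    linarith
  · beta_reduce
    ring

/-- The general relative theorem. -/
theorem locInd_of_reducible (hD : S_DATA) (hT : S_THICK) (L : LOG V E) (bl : V → I)
    (hloc : ∀ i, LocInd (L.blk bl i).G)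
    (hR : ∀ (Ω : Type) (act : V → Equiv.Perm Ω) (A : Finset (Ω × V)) (Sin : Finset (Ω × E)),
      (∀ i q, CDev L bl act A i q ∨ ∃ f, CCoc L bl act A Sin i q f) →
      Reducible L bl act A Sin) :
    LocInd L.G ∧ ∀ i, Function.Injective (blkHom L bl i) := by
  constructor
  · by_contra hcon
    obtain ⟨Ω, act, A, S, hsq, hH, hDev⟩ := hD V E L hcon
    obtain ⟨Inc, hI, hout, hslot, h1⟩ := start (bl := bl) hsq hH
    have hdich : ∀ i q, CDev L bl act A i q ∨
        ∃ f, CCoc L bl act A (S.filter fun s => Inner L bl s.2) i q f := by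
      intro i q
      refine dichotomy hT L bl act A _ (fun s hs => ?_) i (hloc i) q
      obtain ⟨h1, h2⟩ := Finset.mem_filter.1 hs
      exact ⟨h2, hsq s h1⟩
    obtain ⟨τP, τ, hτ, hi⟩ := main_dev (hR Ω act A _ hdich) hdich Inc.card Inc _ rfl hout hslot h1
    refine hDev ⟨τP, fun a ha => ?_⟩
    have h5 := hi _ (hI a ha).1
    have h6 := hi _ (hI a ha).2
    simp only at h5 h6
    rw [← h6, hτ a ha, h5]
  · intro i
    rw [injective_iff_map_eq_one]
    intro x hx
    obtain ⟨w, rfl⟩ := PresentedGroup.mk_surjective _ x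
    have hmap : PresentedGroup.mk (Set.range L.rel) (FreeGroup.map Subtype.val w) = 1 := by
      have h1 : (blkHom L bl i).comp (PresentedGroup.mk (Set.range (L.blk bl i).rel)) =
          (PresentedGroup.mk (Set.range L.rel)).comp (FreeGroup.map Subtype.val) := by
        apply FreeGroup.ext_hom
        intro v
        simp only [MonoidHom.comp_apply, FreeGroup.map.of]
        exact blkHom_gen L bl i v
      have h2 := DFunLike.congr_fun h1 w
      simp only [MonoidHom.comp_apply] at h2
      rw [← h2]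
      exact hx
    obtain ⟨Ω, act, A, S, b, hsq, hH, hpath⟩ := null_data L bl i w hmap
    obtain ⟨Inc, -, hout, hslot, h1⟩ := start (bl := bl) hsq hH
    have hin : ∀ s ∈ S.filter (fun s => Inner L bl s.2), Inner L bl s.2 ∧ SqS L act A s := by
      intro s hs
      obtain ⟨h2, h3⟩ := Finset.mem_filter.1 hs
      exact ⟨h3, hsq s h2⟩
    have hred := main_red
      (hR Ω act A _ (fun i q => dichotomy hT L bl act A _ hin i (hloc i) q))
      Inc.card Inc _ rfl hout hslot h1
    have hB : BDev L bl act A i b := by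
      refine (dichotomyB hT L bl act A _ hin i (hloc i) b).resolve_right ?_
      rintro ⟨f, hf1, hf2, hf3⟩
      obtain ⟨gP, g, hg1, hg2⟩ := hred f (fun _ => 0) hf2
        (fun s hs => absurd hs (Finset.notMem_empty _))
      refine hf3 ⟨g i, fun a ha hb hj => ?_⟩
      have := hg1 a ha
      rwa [hb] at this
    obtain ⟨τ, hτ⟩ := hB
    have h5 := hpath (L.blk bl i).G
      (fun v => if h : bl v = i then (L.blk bl i).gen ⟨v, h⟩ else 1) τ hτ
    have h6 : FreeGroup.lift (fun v : {v : V // bl v = i} =>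
        (if h : bl v.1 = i then (L.blk bl i).gen ⟨v.1, h⟩ else 1)) =
        PresentedGroup.mk (Set.range (L.blk bl i).rel) := by
      apply FreeGroup.ext_hom
      intro v
      rw [FreeGroup.lift_apply_of, dif_pos v.2]
      rfl
    rw [h6] at h5
    exact h5

/-- The partition `bl` is one-sided for the heights `h`: the heights are nonzero integers and the two
ends of an edge have the same height; the graph on the blocks with the following edges is a forest:
for every edge `e` which is not inner the block of the label is joined to the block of the initial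
vertex if the height of the label is positive and to the block of the terminal vertex otherwise. -/
structure OneSided (L : LOG V E) (bl : V → I) (h : V → ℤ) : Prop where
  ne : ∀ v, h v ≠ 0
  ends : ∀ e, h (L.ini e) = h (L.ter e)
  forest : ∀ (B : Finset I) (D : Finset E), B.Nonempty →
    (∀ e ∈ D, ¬ Inner L bl e ∧ bl (L.lab e) ∈ B ∧
      bl (if 0 < h (L.lab e) then L.ini e else L.ter e) ∈ B) → D.card + 1 ≤ B.card

/-- the lowest corner -/
def low (L : LOG V E) (h : V → ℤ) (e : E) : Fin 4 :=
  if 0 < h (L.lab e) then (if 0 < h (L.ini e) then 0 else 1)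
  else (if 0 < h (L.ini e) then 2 else 3)

theorem low_block (L : LOG V E) (bl : V → I) (h : V → ℤ) (e : E) (p : Ω) :
    sb L bl (p, e) (low L h e) false = bl (if 0 < h (L.lab e) then L.ini e else L.ter e) := by
  unfold low
  split_ifs <;> rfl

theorem oneSided_reducible {L : LOG V E} {bl : V → I} {h : V → ℤ} (hS : OneSided L bl h)
    (act : V → Equiv.Perm Ω) (A : Finset (Ω × V)) (Sin : Finset (Ω × E)) :
    Reducible L bl act A Sin := by
  intro Inc S hout hslot h1 hne huse
  obtain ⟨gP, g, h3, h4⟩ := h1 (fun a => (h a.2 : ℚ)) (fun _ => 0) (by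
    intro s _
    unfold sq
    beta_reduce
    simp only [hS.ends s.2]
    ring) (by
    intro s _
    unfold coc sq
    beta_reduce
    simp only [hS.ends s.2, mul_zero, Finset.sum_const_zero]
    ring)
  have h4' : ∀ a ∈ Inc, g a.2 a.1 = gP a.1 := by
    intro a ha
    have := h4 a ha
    linarith
  obtain ⟨a₀, ha₀, hmin⟩ := Inc.exists_min_image (fun a => gP a.1) hne
  -- the heights of the corners
  have hG : ∀ s ∈ S, gP (pos L act s 1) = gP (pos L act s 0) + h (L.ini s.2) ∧
      gP (pos L act s 2) = gP (pos L act s 0) + h (L.lab s.2) ∧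
      gP (pos L act s 3) = gP (pos L act s 0) + h (L.ini s.2) + h (L.lab s.2) := by
    intro s hs
    obtain ⟨hcl, hA1, hA2, hA3, hA4⟩ := (hout s hs).2
    have e1 := h3 _ hA1
    have e2 := h3 _ hA2
    have e4 := h3 _ hA4
    have i0g := h4' _ (hslot s hs (0, false))
    have i0k := h4' _ (hslot s hs (0, true))
    have i1g := h4' _ (hslot s hs (1, false))
    have i1k := h4' _ (hslot s hs (1, true))
    have i2k := h4' _ (hslot s hs (2, true))
    have i3k := h4' _ (hslot s hs (3, true))
    have g0g : (slot L bl act s (0, false)) = (s.1, bl (L.ini s.2)) := rfl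
    have g0k : (slot L bl act s (0, true)) = (s.1, bl (L.lab s.2)) := rfl
    have g1g : (slot L bl act s (1, false)) = (act (L.ini s.2) s.1, bl (L.ini s.2)) := rfl
    have g1k : (slot L bl act s (1, true)) = (act (L.ini s.2) s.1, bl (L.lab s.2)) := rfl
    have g2k : (slot L bl act s (2, true)) = (act (L.lab s.2) s.1, bl (L.lab s.2)) := rfl
    have g3k : (slot L bl act s (3, true)) =
      (act (L.lab s.2) (act (L.ini s.2) s.1), bl (L.lab s.2)) := rfl
    rw [g0g] at i0g
    rw [g0k] at i0k
    rw [g1g] at i1g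
    rw [g1k] at i1k
    rw [g2k] at i2k
    rw [g3k] at i3k
    simp only at e1 e2 e4 i0g i0k i1g i1k i2k i3k
    have p0 : pos L act s 0 = s.1 := rfl
    have p1 : pos L act s 1 = act (L.ini s.2) s.1 := rfl
    have p2 : pos L act s 2 = act (L.lab s.2) s.1 := rfl
    have p3 : pos L act s 3 = act (L.lab s.2) (act (L.ini s.2) s.1) := rfl
    rw [p0, p1, p2, p3]
    refine ⟨by linarith, by linarith, by linarith⟩
  have hlow : ∀ s ∈ S, ∀ j : Fin 4, pos L act s j = a₀.1 → j = low L h s.2 := by
    intro s hs j hj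
    have hm : ∀ j' : Fin 4, gP a₀.1 ≤ gP (pos L act s j') := fun j' =>
      hmin _ (hslot s hs (j', true))
    obtain ⟨g1, g2, g3⟩ := hG s hs
    rw [← hj] at hm
    have m0 := hm 0
    have m1 := hm 1
    have m2 := hm 2
    have m3 := hm 3
    have hc := hS.ne (L.ini s.2)
    have hk := hS.ne (L.lab s.2)
    have hcases : ∀ j : Fin 4, j = 0 ∨ j = 1 ∨ j = 2 ∨ j = 3 := by decide
    have hcq : ((h (L.ini s.2) : ℤ) : ℚ) ≤ -1 ∨ (1 : ℚ) ≤ ((h (L.ini s.2) : ℤ) : ℚ) := by
      rcases lt_or_gt_of_ne hc with h5 | h5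
      · left; exact_mod_cast (by omega : h (L.ini s.2) ≤ -1)
      · right; exact_mod_cast (by omega : 1 ≤ h (L.ini s.2))
    have hkq : ((h (L.lab s.2) : ℤ) : ℚ) ≤ -1 ∨ (1 : ℚ) ≤ ((h (L.lab s.2) : ℤ) : ℚ) := by
      rcases lt_or_gt_of_ne hk with h5 | h5
      · left; exact_mod_cast (by omega : h (L.lab s.2) ≤ -1)
      · right; exact_mod_cast (by omega : 1 ≤ h (L.lab s.2))
    have pc : 0 < h (L.ini s.2) ↔ (1 : ℚ) ≤ ((h (L.ini s.2) : ℤ) : ℚ) := by
      constructor
      · intro h5; exact_mod_cast h5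
      · intro h5
        have : (1 : ℤ) ≤ h (L.ini s.2) := by exact_mod_cast h5
        omega
    have pk : 0 < h (L.lab s.2) ↔ (1 : ℚ) ≤ ((h (L.lab s.2) : ℤ) : ℚ) := by
      constructor
      · intro h5; exact_mod_cast h5
      · intro h5
        have : (1 : ℤ) ≤ h (L.lab s.2) := by exact_mod_cast h5
        omega
    unfold low
    rcases hcases j with rfl | rfl | rfl | rfl
    · rcases hcq with h5 | h5
      · exfalso; linarith
      · rcases hkq with h6 | h6
        · exfalso; linarith
        · rw [if_pos (pk.2 h6), if_pos (pc.2 h5)]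
    · rcases hcq with h5 | h5
      · rcases hkq with h6 | h6
        · exfalso; linarith
        · rw [if_pos (pk.2 h6), if_neg (fun h7 => by have := pc.1 h7; linarith)]
      · exfalso; linarith
    · rcases hkq with h6 | h6
      · rcases hcq with h5 | h5
        · exfalso; linarith
        · rw [if_neg (fun h7 => by have := pk.1 h7; linarith), if_pos (pc.2 h5)]
      · exfalso; linarith
    · rcases hcq with h5 | h5
      · rcases hkq with h6 | h6
        · rw [if_neg (fun h7 => by have := pk.1 h7; linarith),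
            if_neg (fun h7 => by have := pc.1 h7; linarith)]
        · exfalso; linarith
      · exfalso; linarith
  set T := S.filter fun s => pos L act s (low L h s.2) = a₀.1 with hT
  have hinjT : Set.InjOn Prod.snd (T : Set (Ω × E)) := by
    intro s hs s' hs' he
    have h5 := (Finset.mem_filter.1 (Finset.mem_coe.1 hs)).2
    have h6 := (Finset.mem_filter.1 (Finset.mem_coe.1 hs')).2
    rw [← he] at h6
    exact pos_inj L act s s' he _ (h5.trans h6.symm)
  set D := T.image Prod.snd with hD
  set B := (Inc.filter fun a => a.1 = a₀.1).image Prod.snd with hB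
  have hmemB : ∀ i, (a₀.1, i) ∈ Inc → i ∈ B := fun i hi =>
    Finset.mem_image.2 ⟨(a₀.1, i), Finset.mem_filter.2 ⟨hi, rfl⟩, rfl⟩
  have hBne : B.Nonempty := ⟨a₀.2, hmemB _ ha₀⟩
  have hcard := hS.forest B D hBne (by
    intro e he
    obtain ⟨s, hs, rfl⟩ := Finset.mem_image.1 he
    obtain ⟨hsS, hsp⟩ := Finset.mem_filter.1 hs
    refine ⟨(hout s hsS).1, ?_, ?_⟩
    · have h5 := hslot s hsS (low L h s.2, true)
      apply hmemB
      have h6 : slot L bl act s (low L h s.2, true) = (a₀.1, bl (L.lab s.2)) := by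
        unfold slot
        rw [hsp]
        rfl
      rwa [h6] at h5
    · have h5 := hslot s hsS (low L h s.2, false)
      apply hmemB
      have h6 : slot L bl act s (low L h s.2, false) =
          (a₀.1, bl (if 0 < h (L.lab s.2) then L.ini s.2 else L.ter s.2)) := by
        unfold slot
        rw [hsp, ← low_block (Ω := Ω) L bl h s.2 s.1]
      rwa [h6] at h5)
  have hDT : D.card = T.card := Finset.card_image_of_injOn hinjT
  have hsum : 2 * B.card ≤ ∑ i ∈ B, uses L bl act S (a₀.1, i) := by
    have h5 : ∑ i ∈ B, 2 ≤ ∑ i ∈ B, uses L bl act S (a₀.1, i) := by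
      apply Finset.sum_le_sum
      intro i hi
      obtain ⟨a, ha, hai⟩ := Finset.mem_image.1 hi
      obtain ⟨haI, hap⟩ := Finset.mem_filter.1 ha
      have h6 : a = (a₀.1, i) := Prod.ext hap hai
      rw [← h6]
      exact huse a haI
    rw [Finset.sum_const, smul_eq_mul] at h5
    omega
  have hsum2 : ∑ i ∈ B, uses L bl act S (a₀.1, i) ≤ 2 * T.card := by
    have h5 : ∀ i ∈ B, uses L bl act S (a₀.1, i) =
        ((T ×ˢ (Finset.univ : Finset Bool)).filter fun y =>
          sb L bl y.1 (low L h y.1.2) y.2 = i).card := by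
      intro i hi
      unfold uses
      symm
      refine Finset.card_bij (fun y _ => (y.1, (low L h y.1.2, y.2))) ?_ ?_ ?_
      · rintro ⟨s, t⟩ hy
        obtain ⟨hy1, hy2⟩ := Finset.mem_filter.1 hy
        obtain ⟨hy3, -⟩ := Finset.mem_product.1 hy1
        obtain ⟨hsS, hsp⟩ := Finset.mem_filter.1 hy3
        refine Finset.mem_filter.2 ⟨Finset.mem_product.2 ⟨hsS, Finset.mem_univ _⟩, ?_⟩
        simp only at hsp hy2 ⊢
        unfold slot
        simp only
        rw [hsp, hy2]
      · rintro ⟨s, t⟩ _ ⟨s', t'⟩ _ heq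
        simp only [Prod.mk.injEq] at heq
        obtain ⟨rfl, -, rfl⟩ := heq
        rfl
      · rintro ⟨s, ⟨j, t⟩⟩ hy
        obtain ⟨hy1, hy2⟩ := Finset.mem_filter.1 hy
        have hsS := (Finset.mem_product.1 hy1).1
        simp only at hsS hy2
        have hp : pos L act s j = a₀.1 := congrArg Prod.fst hy2
        have hbq : sb L bl s j t = i := congrArg Prod.snd hy2
        have hj := hlow s hsS j hp
        subst hj
        exact ⟨(s, t), Finset.mem_filter.2 ⟨Finset.mem_product.2
          ⟨Finset.mem_filter.2 ⟨hsS, hp⟩, Finset.mem_univ _⟩, hbq⟩, rfl⟩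
    rw [Finset.sum_congr rfl h5]
    have h6 : ((T ×ˢ (Finset.univ : Finset Bool))).card = 2 * T.card := by
      rw [Finset.card_product, Finset.card_univ, Fintype.card_bool, mul_comm]
    rw [← h6]
    refine le_of_eq (Finset.card_eq_sum_card_fiberwise ?_).symm
    intro y hy
    have hyT := (Finset.mem_product.1 (Finset.mem_coe.1 hy)).1
    obtain ⟨hsS, hsp⟩ := Finset.mem_filter.1 hyT
    have h8 := hslot y.1 hsS (low L h y.1.2, y.2)
    apply hmemB
    have h9 : slot L bl act y.1 (low L h y.1.2, y.2) =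
        (a₀.1, sb L bl y.1 (low L h y.1.2) y.2) := by
      unfold slot
      rw [hsp]
    rwa [h9] at h8
  omega

end Pool.Agent.H10.Inj.Gen
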