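import Pool.Agent.H10.Inj.Gen
import Pool.Agent.H10.Inj.Cor

/-!
# The hierarchical class
-/

set_option autoImplicit false

namespace Pool.Agent.H10.Inj

open Blocks Rel Gen

/-- Signed partitions are reducible. -/
theorem signed_reducible {V E I Ω : Type} {L : LOG V E} {bl : V → I} {ε : I → Bool}
    (hS : Signed L bl ε) (act : V → Equiv.Perm Ω) (A : Finset (Ω × V)) (Sin : Finset (Ω × E))
    (hdich : ∀ i q, CDev L bl act A i q ∨ ∃ f, CCoc L bl act A Sin i q f) :
    Reducible L bl act A Sin := by
  intro Inc S hout hslot h1 hne huse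
  exact contra Lin.main Count.main hS hdich
    (fun s hs => ⟨(hS.types s.2).resolve_left (hout s hs).1, (hout s hs).2⟩) hslot h1 hne huse

/-- The one-sided theorem. -/
theorem oneSided_thm {V E I : Type} (L : LOG V E) (bl : V → I) (h : V → ℤ)
    (hS : OneSided L bl h) (hloc : ∀ i, LocInd (L.blk bl i).G) :
    LocInd L.G ∧ ∀ i, Function.Injective (blkHom L bl i) :=
  locInd_of_reducible Data.main Thick.main L bl hloc
    (fun _ act A Sin _ => oneSided_reducible hS act A Sin)

/-- The class of the labelled oriented graphs which can be built up from graphs without edges by the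
following steps: `L` belongs to the class if it has a partition into blocks of the class which is
injective with a forest as quotient, or signed, or one-sided. -/
inductive Built : ∀ {V E : Type}, LOG V E → Prop
  | free {V E : Type} (L : LOG V E) (h : IsEmpty E) : Built L
  | injective {V E I : Type} (L : LOG V E) (bl : V → I) (h : InjForest L bl)
      (hb : ∀ i, Built (L.blk bl i)) : Built L
  | signed {V E I : Type} (L : LOG V E) (bl : V → I) (ε : I → Bool) (h : Signed L bl ε)
      (hb : ∀ i, Built (L.blk bl i)) : Built L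
  | oneSided {V E I : Type} (L : LOG V E) (bl : V → I) (h : V → ℤ) (hs : OneSided L bl h)
      (hb : ∀ i, Built (L.blk bl i)) : Built L

theorem locInd_noEdges {V E : Type} (L : LOG V E) (h : IsEmpty E) : LocInd L.G := by
  refine (block_thm L id ⟨fun e => (h.false e).elim, fun B D hB hD => ?_⟩ fun i => ?_).1
  · have hD0 : D = ∅ := by
      rw [Finset.eq_empty_iff_forall_notMem]
      exact fun e _ => h.false e
    rw [hD0, Finset.card_empty, zero_add]
    exact hB.card_pos
  · exact One.main _ _ _ ⟨fun x y => Subtype.ext (x.2.trans y.2.symm)⟩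
      ⟨fun e => h.false e.1⟩

section sub

variable {V E I : Type} (L : LOG V E) (bl : V → I) (V₁ : Set V) (E₁ : Set E)
  (h : L.Closed V₁ E₁)

theorem inner_sub (e : E₁) :
    Inner (L.sub V₁ E₁ h) (fun v : V₁ => bl v.1) e ↔ Inner L bl e.1 := Iff.rfl

theorem injForest_sub (hS : InjForest L bl) :
    InjForest (L.sub V₁ E₁ h) (fun v : V₁ => bl v.1) := by
  classical
  refine ⟨fun e e' he he' hl => Subtype.ext (hS.inj e.1 e'.1 he he' hl), fun B D hB hD => ?_⟩
  have h1 := hS.forest B (D.image Subtype.val) hB (by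
    intro e he
    obtain ⟨e', he', rfl⟩ := Finset.mem_image.1 he
    exact hD e' he')
  rwa [Finset.card_image_of_injective _ Subtype.val_injective] at h1

theorem signed_sub (ε : I → Bool) (hS : Signed L bl ε) :
    Signed (L.sub V₁ E₁ h) (fun v : V₁ => bl v.1) ε := by
  classical
  refine ⟨fun e => hS.types e.1, fun b B D hB hD => ?_⟩
  have h1 := hS.forest b B (D.image Subtype.val) hB (by
    intro e he
    obtain ⟨e', he', rfl⟩ := Finset.mem_image.1 he
    exact hD e' he')
  rwa [Finset.card_image_of_injective _ Subtype.val_injective] at h1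

theorem oneSided_sub (ht : V → ℤ) (hS : OneSided L bl ht) :
    OneSided (L.sub V₁ E₁ h) (fun v : V₁ => bl v.1) (fun v : V₁ => ht v.1) := by
  classical
  refine ⟨fun v => hS.ne v.1, fun e => hS.ends e.1, fun B D hB hD => ?_⟩
  have h1 := hS.forest B (D.image Subtype.val) hB (by
    intro e he
    obtain ⟨e', he', rfl⟩ := Finset.mem_image.1 he
    obtain ⟨h2, h3, h4⟩ := hD e' he'
    refine ⟨h2, h3, ?_⟩
    change bl (if 0 < ht (L.lab e'.1) then (L.sub V₁ E₁ h).ini e' else
      (L.sub V₁ E₁ h).ter e' : V₁).1 ∈ B at h4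
    split_ifs at h4 ⊢ with h5
    · exact h4
    · exact h4)
  rwa [Finset.card_image_of_injective _ Subtype.val_injective] at h1

/-- the vertices of the part of a block -/
def subV (i : I) : Set {v : V // bl v = i} := {v | v.1 ∈ V₁}

/-- the edges of the part of a block -/
def subE (i : I) : Set {e : E // bl (L.ini e) = i ∧ bl (L.ter e) = i ∧ bl (L.lab e) = i} :=
  {e | e.1 ∈ E₁}

include h in
theorem closed_blk (i : I) : (L.blk bl i).Closed (subV bl V₁ i) (subE L bl E₁ i) := by
  intro e he
  exact h e.1 he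

theorem locInd_blk_sub (i : I) (hloc : ∀ (V₂ : Set {v : V // bl v = i})
      (E₂ : Set {e : E // bl (L.ini e) = i ∧ bl (L.ter e) = i ∧ bl (L.lab e) = i})
      (h₂ : (L.blk bl i).Closed V₂ E₂), LocInd ((L.blk bl i).sub V₂ E₂ h₂).G) :
    LocInd ((L.sub V₁ E₁ h).blk (fun v : V₁ => bl v.1) i).G := by
  refine transport _ ((L.blk bl i).sub (subV bl V₁ i) (subE L bl E₁ i) (closed_blk L bl V₁ E₁ h i))
    (fun v => ⟨⟨v.1.1, v.2⟩, v.1.2⟩) (fun e => ⟨⟨e.1.1, e.2⟩, e.1.2⟩)
    (fun v => ⟨⟨v.1.1, v.2⟩, v.1.2⟩) (fun e => ⟨⟨e.1.1, e.2⟩, e.1.2⟩)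
    (fun _ => rfl) (fun _ => rfl) (fun _ => rfl) (fun _ => rfl) (fun _ => rfl) (fun _ => rfl)
    (fun _ => rfl) (hloc _ _ _)

end sub

/-- **The groups of all subcomplexes of the complexes of the class are locally indicable.** -/
theorem Built.locInd {V E : Type} {L : LOG V E} (hL : Built L) :
    ∀ (V₁ : Set V) (E₁ : Set E) (h : L.Closed V₁ E₁), LocInd (L.sub V₁ E₁ h).G := by
  induction hL with
  | free L hE =>
    intro V₁ E₁ h
    exact locInd_noEdges _ ⟨fun e => hE.false e.1⟩
  | injective L bl hS _ ih =>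
    intro V₁ E₁ h
    exact (block_thm _ _ (injForest_sub L bl V₁ E₁ h hS)
      (fun i => locInd_blk_sub L bl V₁ E₁ h i (ih i))).1
  | signed L bl ε hS _ ih =>
    intro V₁ E₁ h
    exact (signed_thm _ _ ε (signed_sub L bl V₁ E₁ h ε hS)
      (fun i => locInd_blk_sub L bl V₁ E₁ h i (ih i))).1
  | oneSided L bl ht hS _ ih =>
    intro V₁ E₁ h
    exact (oneSided_thm _ _ _ (oneSided_sub L bl V₁ E₁ h ht hS)
      (fun i => locInd_blk_sub L bl V₁ E₁ h i (ih i))).1

end Pool.Agent.H10.Inj
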