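import Pool.Agent.H10.Inj.Def

/-!
# The relative theorem: the blown up complex and its reduction
-/

set_option autoImplicit false

namespace Pool.Agent.H10.Inj.Rel

open Classical

variable {V E I Ω : Type}

/-- the positions of the corners of the square `s` -/
def pos (L : LOG V E) (act : V → Equiv.Perm Ω) (s : Ω × E) (j : Fin 4) : Ω :=
  ![s.1, act (L.ini s.2) s.1, act (L.lab s.2) s.1, act (L.lab s.2) (act (L.ini s.2) s.1)] j

/-- the block of an end -/
def sb (L : LOG V E) (bl : V → I) (s : Ω × E) (j : Fin 4) (t : Bool) : I :=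
  slotB (bl (L.lab s.2)) (bl (L.ini s.2)) (bl (L.ter s.2)) j t

/-- the incidence of an end -/
def slot (L : LOG V E) (bl : V → I) (act : V → Equiv.Perm Ω) (s : Ω × E) (x : Fin 4 × Bool) : Ω × I :=
  (pos L act s x.1, sb L bl s x.1 x.2)

/-- the sign of an end in the boundary of the square -/
def sgn (x : Fin 4 × Bool) : ℚ := if x.2 then ![-1, 1, 1, -1] x.1 else ![1, -1, -1, 1] x.1

/-- the cocycle condition at the square `s` -/
def coc (L : LOG V E) (bl : V → I) (act : V → Equiv.Perm Ω) (f : Ω × V → ℚ) (ψ : Ω × I → ℚ)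
    (s : Ω × E) : ℚ :=
  sq act f s.1 (L.ini s.2) (L.lab s.2) (L.ter s.2) + ∑ x, sgn x * ψ (slot L bl act s x)

/-- the square of `s` with its sides in `A` -/
def SqS (L : LOG V E) (act : V → Equiv.Perm Ω) (A : Finset (Ω × V)) (s : Ω × E) : Prop :=
  SqIn act A s.1 (L.ini s.2) (L.lab s.2) (L.ter s.2)

/-- no first cohomology -/
def H1 (L : LOG V E) (bl : V → I) (act : V → Equiv.Perm Ω) (A : Finset (Ω × V))
    (Sin : Finset (Ω × E)) (Inc : Finset (Ω × I)) (S : Finset (Ω × E)) : Prop :=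
  ∀ (f : Ω × V → ℚ) (ψ : Ω × I → ℚ),
    (∀ s ∈ Sin, sq act f s.1 (L.ini s.2) (L.lab s.2) (L.ter s.2) = 0) →
    (∀ s ∈ S, coc L bl act f ψ s = 0) →
    ∃ (gP : Ω → ℚ) (g : I → Ω → ℚ),
      (∀ a ∈ A, f a = g (bl a.2) (act a.2 a.1) - g (bl a.2) a.1) ∧
      ∀ a ∈ Inc, ψ a = g a.2 a.1 - gP a.1

/-- developable -/
def Dev (L : LOG V E) (bl : V → I) (act : V → Equiv.Perm Ω) (A : Finset (Ω × V))
    (Inc : Finset (Ω × I)) : Prop :=
  ∃ (τP : Ω → L.G) (τ : I → Ω → L.G),
    (∀ a ∈ A, τ (bl a.2) (act a.2 a.1) = τ (bl a.2) a.1 * L.gen a.2) ∧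
    ∀ a ∈ Inc, τ a.2 a.1 = τP a.1

theorem gen_rel (L : LOG V E) (e : E) :
    L.gen (L.ini e) * L.gen (L.lab e) = L.gen (L.lab e) * L.gen (L.ter e) := by
  have h1 : PresentedGroup.mk (Set.range L.rel) (L.rel e) = 1 :=
    PresentedGroup.one_of_mem (rels := Set.range L.rel) ⟨e, rfl⟩
  unfold LOG.rel at h1
  simp only [map_mul, map_inv] at h1
  rw [mul_inv_eq_one, mul_inv_eq_iff_eq_mul] at h1
  exact h1

/-! ### Removing an unused incidence -/

theorem h1_mono {L : LOG V E} {bl : V → I} {act : V → Equiv.Perm Ω} {A : Finset (Ω × V)}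
    {Sin : Finset (Ω × E)} {Inc Inc' : Finset (Ω × I)} {S : Finset (Ω × E)}
    (h : H1 L bl act A Sin Inc S) (hs : Inc' ⊆ Inc) : H1 L bl act A Sin Inc' S := by
  intro f ψ h1 h2
  obtain ⟨gP, g, h3, h4⟩ := h f ψ h1 h2
  exact ⟨gP, g, h3, fun a ha => h4 a (hs ha)⟩

theorem dev_unused {L : LOG V E} {bl : V → I} {act : V → Equiv.Perm Ω} {A : Finset (Ω × V)}
    {Sin : Finset (Ω × E)} {Inc : Finset (Ω × I)} {S : Finset (Ω × E)}
    (h : H1 L bl act A Sin Inc S) (a₀ : Ω × I) (ha₀ : a₀ ∈ Inc)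
    (hu : ∀ s ∈ S, ∀ x, slot L bl act s x ≠ a₀) (hd : Dev L bl act A (Inc.erase a₀)) :
    Dev L bl act A Inc := by
  obtain ⟨τP, τ, hτ, hi⟩ := hd
  obtain ⟨gP, g, h3, h4⟩ := h (fun _ => 0) (fun a => if a = a₀ then 1 else 0)
    (fun s _ => by simp [sq]) (fun s hs => by
      unfold coc
      rw [Finset.sum_eq_zero]
      · simp [sq]
      · intro x _
        beta_reduce
        rw [if_neg (hu s hs x), mul_zero])
  have h0 := h4 a₀ ha₀
  rw [if_pos rfl] at h0
  refine ⟨fun q => if gP q = gP a₀.1 + 1 then τP a₀.1 * (τ a₀.2 a₀.1)⁻¹ * τP q else τP q,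
    fun i q => if g i q = gP a₀.1 + 1 then τP a₀.1 * (τ a₀.2 a₀.1)⁻¹ * τ i q else τ i q, ?_, ?_⟩
  · intro a ha
    have h5 := h3 a ha
    have h6 : g (bl a.2) (act a.2 a.1) = g (bl a.2) a.1 := by linarith
    simp only [h6]
    split_ifs with hc
    · rw [hτ a ha]; group
    · exact hτ a ha
  · intro a ha
    by_cases haa : a = a₀
    · subst haa
      have h6 : g a.2 a.1 = gP a.1 + 1 := by linarith
      simp only [h6, if_true]
      rw [if_neg (by linarith)]
      group
    · have h5 := h4 a ha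
      rw [if_neg haa] at h5
      have h6 : g a.2 a.1 = gP a.1 := by linarith
      simp only [h6]
      rw [hi a (Finset.mem_erase.2 ⟨haa, ha⟩)]

/-! ### Removing an incidence which is used once, with its square -/

theorem h1_once {L : LOG V E} {bl : V → I} {act : V → Equiv.Perm Ω} {A : Finset (Ω × V)}
    {Sin : Finset (Ω × E)} {Inc : Finset (Ω × I)} {S : Finset (Ω × E)}
    (h : H1 L bl act A Sin Inc S) (a₀ : Ω × I) (s₀ : Ω × E) (x₀ : Fin 4 × Bool)
    (hx₀ : slot L bl act s₀ x₀ = a₀)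
    (hu : ∀ s ∈ S, ∀ x, slot L bl act s x = a₀ → s = s₀ ∧ x = x₀) (hs₀ : s₀ ∈ S) :
    H1 L bl act A Sin (Inc.erase a₀) (S.erase s₀) := by
  intro f ψ h1 h2
  set r : ℚ := coc L bl act f (fun a => if a = a₀ then 0 else ψ a) s₀ with hr
  have hsg : sgn x₀ * sgn x₀ = 1 := by
    obtain ⟨j, t⟩ := x₀
    fin_cases j <;> cases t <;> simp [sgn]
  have key : ∀ (c : ℚ), coc L bl act f (fun a => if a = a₀ then c else ψ a) s₀ = r + sgn x₀ * c := by
    intro c
    rw [hr]
    unfold coc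
    rw [add_assoc]
    congr 1
    rw [← Finset.add_sum_erase _ _ (Finset.mem_univ x₀)]
    rw [← Finset.add_sum_erase _ (fun x => sgn x * if slot L bl act s₀ x = a₀ then 0
      else ψ (slot L bl act s₀ x)) (Finset.mem_univ x₀)]
    beta_reduce
    rw [if_pos hx₀, if_pos hx₀, mul_zero, zero_add, add_comm]
    congr 1
    apply Finset.sum_congr rfl
    intro x hx
    have hne : slot L bl act s₀ x ≠ a₀ := by
      intro h5
      exact (Finset.mem_erase.1 hx).1 (hu s₀ hs₀ x h5).2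
    rw [if_neg hne, if_neg hne]
  obtain ⟨gP, g, h3, h4⟩ := h f (fun a => if a = a₀ then - (sgn x₀ * r) else ψ a) h1 (by
    intro s hs
    by_cases hss : s = s₀
    · rw [hss, key]
      have : sgn x₀ * -(sgn x₀ * r) = - r := by
        calc sgn x₀ * -(sgn x₀ * r) = - ((sgn x₀ * sgn x₀) * r) := by ring
          _ = - r := by rw [hsg, one_mul]
      rw [this]; ring
    · have h5 := h2 s (Finset.mem_erase.2 ⟨hss, hs⟩)
      rw [← h5]
      unfold coc
      congr 1
      apply Finset.sum_congr rfl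
      intro x _
      beta_reduce
      rw [if_neg (fun h6 => hss (hu s hs x h6).1)])
  refine ⟨gP, g, h3, fun a ha => ?_⟩
  have h5 := h4 a (Finset.mem_of_mem_erase ha)
  rwa [if_neg (Finset.ne_of_mem_erase ha)] at h5

theorem defects {G : Type} [Group G] (P0 P1 P2 P3 x0g x0k x1g x1k x2k x2d x3k x3d c k d : G)
    (h1 : x1g = x0g * c) (h2 : x3k = x1k * k) (h3 : x3d = x2d * d) (h4 : x2k = x0k * k)
    (hr : c * k = k * d) :
    (P0 * x0g⁻¹) * (P1 * x1g⁻¹)⁻¹ * (P1 * x1k⁻¹) * (P3 * x3k⁻¹)⁻¹ * (P3 * x3d⁻¹) *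
      (P2 * x2d⁻¹)⁻¹ * (P2 * x2k⁻¹) * (P0 * x0k⁻¹)⁻¹ = 1 := by
  subst h1 h2 h3 h4
  have hc : c = k * d * k⁻¹ := by rw [← hr]; group
  subst hc
  group

theorem dev_once {L : LOG V E} {bl : V → I} {act : V → Equiv.Perm Ω} {A : Finset (Ω × V)}
    {Inc : Finset (Ω × I)} (a₀ : Ω × I) (s₀ : Ω × E) (x₀ : Fin 4 × Bool)
    (hx₀ : slot L bl act s₀ x₀ = a₀)
    (hu : ∀ x, slot L bl act s₀ x = a₀ → x = x₀) (hsq : SqS L act A s₀)
    (hin : ∀ x, slot L bl act s₀ x ∈ Inc)
    (hd : Dev L bl act A (Inc.erase a₀)) : Dev L bl act A Inc := by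
  obtain ⟨τP, τ, hτ, hi⟩ := hd
  refine ⟨τP, τ, hτ, fun a ha => ?_⟩
  by_cases haa : a = a₀
  swap
  · exact hi a (Finset.mem_erase.2 ⟨haa, ha⟩)
  have hall : ∀ x, x ≠ x₀ → τ (slot L bl act s₀ x).2 (slot L bl act s₀ x).1 =
      τP (slot L bl act s₀ x).1 := by
    intro x hx
    exact hi _ (Finset.mem_erase.2 ⟨fun h => hx (hu x h), hin x⟩)
  obtain ⟨hcl, hA1, hA2, hA3, hA4⟩ := hsq
  have e1 := hτ _ hA1
  have e2 := hτ _ hA2
  have e3 := hτ _ hA3
  have e4 := hτ _ hA4
  simp only at e1 e2 e3 e4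
  rw [← hcl] at e3
  have hdef := defects (τP s₀.1) (τP (act (L.ini s₀.2) s₀.1)) (τP (act (L.lab s₀.2) s₀.1))
    (τP (act (L.lab s₀.2) (act (L.ini s₀.2) s₀.1))) _ _ _ _ _ _ _ _ _ _ _ e1 e2 e3 e4
    (gen_rel L s₀.2)
  have hall' : ∀ x, x ≠ x₀ → τP (slot L bl act s₀ x).1 * (τ (slot L bl act s₀ x).2
      (slot L bl act s₀ x).1)⁻¹ = 1 := by
    intro x hx
    rw [hall x hx, mul_inv_cancel]
  have h0g := hall' (0, false)
  have h0k := hall' (0, true)
  have h1g := hall' (1, false)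
  have h1k := hall' (1, true)
  have h2d := hall' (2, false)
  have h2k := hall' (2, true)
  have h3d := hall' (3, false)
  have h3k := hall' (3, true)
  rw [haa, ← hx₀]
  suffices hh : τP (slot L bl act s₀ x₀).1 * (τ (slot L bl act s₀ x₀).2
      (slot L bl act s₀ x₀).1)⁻¹ = 1 by
    rw [mul_inv_eq_one] at hh
    exact hh.symm
  clear hall hall' hu hin hi hτ
  have hz : ∀ x : Fin 4 × Bool, slot L bl act s₀ x = slot L bl act s₀ x := fun _ => rfl
  have g0g : (slot L bl act s₀ (0, false)) = (s₀.1, bl (L.ini s₀.2)) := rfl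
  have g0k : (slot L bl act s₀ (0, true)) = (s₀.1, bl (L.lab s₀.2)) := rfl
  have g1g : (slot L bl act s₀ (1, false)) = (act (L.ini s₀.2) s₀.1, bl (L.ini s₀.2)) := rfl
  have g1k : (slot L bl act s₀ (1, true)) = (act (L.ini s₀.2) s₀.1, bl (L.lab s₀.2)) := rfl
  have g2d : (slot L bl act s₀ (2, false)) = (act (L.lab s₀.2) s₀.1, bl (L.ter s₀.2)) := rfl
  have g2k : (slot L bl act s₀ (2, true)) = (act (L.lab s₀.2) s₀.1, bl (L.lab s₀.2)) := rfl
  have g3d : (slot L bl act s₀ (3, false)) =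
    (act (L.lab s₀.2) (act (L.ini s₀.2) s₀.1), bl (L.ter s₀.2)) := rfl
  have g3k : (slot L bl act s₀ (3, true)) =
    (act (L.lab s₀.2) (act (L.ini s₀.2) s₀.1), bl (L.lab s₀.2)) := rfl
  rw [g0g] at h0g
  rw [g0k] at h0k
  rw [g1g] at h1g
  rw [g1k] at h1k
  rw [g2d] at h2d
  rw [g2k] at h2k
  rw [g3d] at h3d
  rw [g3k] at h3k
  have hcases : ∀ x : Fin 4 × Bool, x = (0, false) ∨ x = (0, true) ∨ x = (1, false) ∨
      x = (1, true) ∨ x = (2, false) ∨ x = (2, true) ∨ x = (3, false) ∨ x = (3, true) := by decide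
  rcases hcases x₀ with h | h | h | h | h | h | h | h
  · subst h
    rw [h0k (by decide), h1g (by decide), h1k (by decide), h2d (by decide), h2k (by decide),
      h3d (by decide), h3k (by decide)] at hdef
    rw [g0g, mul_inv_eq_one]
    simp only [mul_one, one_mul, inv_one, inv_eq_one, mul_inv_eq_one] at hdef
    first | exact hdef | exact hdef.symm
  · subst h
    rw [h0g (by decide), h1g (by decide), h1k (by decide), h2d (by decide), h2k (by decide),
      h3d (by decide), h3k (by decide)] at hdef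
    rw [g0k, mul_inv_eq_one]
    simp only [mul_one, one_mul, inv_one, inv_eq_one, mul_inv_eq_one] at hdef
    first | exact hdef | exact hdef.symm
  · subst h
    rw [h0g (by decide), h0k (by decide), h1k (by decide), h2d (by decide), h2k (by decide),
      h3d (by decide), h3k (by decide)] at hdef
    rw [g1g, mul_inv_eq_one]
    simp only [mul_one, one_mul, inv_one, inv_eq_one, mul_inv_eq_one] at hdef
    first | exact hdef | exact hdef.symm
  · subst h
    rw [h0g (by decide), h0k (by decide), h1g (by decide), h2d (by decide), h2k (by decide),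
      h3d (by decide), h3k (by decide)] at hdef
    rw [g1k, mul_inv_eq_one]
    simp only [mul_one, one_mul, inv_one, inv_eq_one, mul_inv_eq_one] at hdef
    first | exact hdef | exact hdef.symm
  · subst h
    rw [h0g (by decide), h0k (by decide), h1g (by decide), h1k (by decide), h2k (by decide),
      h3d (by decide), h3k (by decide)] at hdef
    rw [g2d, mul_inv_eq_one]
    simp only [mul_one, one_mul, inv_one, inv_eq_one, mul_inv_eq_one] at hdef
    first | exact hdef | exact hdef.symm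
  · subst h
    rw [h0g (by decide), h0k (by decide), h1g (by decide), h1k (by decide), h2d (by decide),
      h3d (by decide), h3k (by decide)] at hdef
    rw [g2k, mul_inv_eq_one]
    simp only [mul_one, one_mul, inv_one, inv_eq_one, mul_inv_eq_one] at hdef
    first | exact hdef | exact hdef.symm
  · subst h
    rw [h0g (by decide), h0k (by decide), h1g (by decide), h1k (by decide), h2d (by decide),
      h2k (by decide), h3k (by decide)] at hdef
    rw [g3d, mul_inv_eq_one]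
    simp only [mul_one, one_mul, inv_one, inv_eq_one, mul_inv_eq_one] at hdef
    first | exact hdef | exact hdef.symm
  · subst h
    rw [h0g (by decide), h0k (by decide), h1g (by decide), h1k (by decide), h2d (by decide),
      h2k (by decide), h3d (by decide)] at hdef
    rw [g3k, mul_inv_eq_one]
    simp only [mul_one, one_mul, inv_one, inv_eq_one, mul_inv_eq_one] at hdef
    first | exact hdef | exact hdef.symm

end Pool.Agent.H10.Inj.Rel
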