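import Pool.Agent.H10.Inj.Rel

/-!
# The relative theorem: components of the blocks, and the contradiction in the reduced case
-/

set_option autoImplicit false

namespace Pool.Agent.H10.Inj.Rel

open Classical

variable {V E I Ω : Type}

/-- the elements of `A` with a letter of the block `i` -/
noncomputable def Ai (bl : V → I) (A : Finset (Ω × V)) (i : I) : Finset (Ω × V) :=
  A.filter fun a => bl a.2 = i

theorem mem_Ai {bl : V → I} {A : Finset (Ω × V)} {i : I} {a : Ω × V} :
    a ∈ Ai bl A i ↔ a ∈ A ∧ bl a.2 = i := Finset.mem_filter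

/-- the components of the block `i` -/
def st (bl : V → I) (act : V → Equiv.Perm Ω) (A : Finset (Ω × V)) (i : I) : Setoid Ω :=
  Relation.EqvGen.setoid (fun p p' => ∃ x, (p, x) ∈ Ai bl A i ∧ p' = act x p)

/-- the components of all blocks -/
abbrev Comp (bl : V → I) (act : V → Equiv.Perm Ω) (A : Finset (Ω × V)) : Type :=
  Σ i : I, Quotient (st bl act A i)

/-- the component of an incidence -/
def cmp (bl : V → I) (act : V → Equiv.Perm Ω) (A : Finset (Ω × V)) (a : Ω × I) : Comp bl act A :=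
  ⟨a.2, Quotient.mk _ a.1⟩

/-- developable component -/
def CDev (L : LOG V E) (bl : V → I) (act : V → Equiv.Perm Ω) (A : Finset (Ω × V)) (i : I)
    (q : Ω) : Prop :=
  ∃ τ : Ω → L.G, ∀ a ∈ A, bl a.2 = i → Joined act (Ai bl A i) q a.1 →
    τ (act a.2 a.1) = τ a.1 * L.gen a.2

/-- component with a cocycle -/
def CCoc (L : LOG V E) (bl : V → I) (act : V → Equiv.Perm Ω) (A : Finset (Ω × V))
    (Sin : Finset (Ω × E)) (i : I) (q : Ω) (f : Ω × V → ℚ) : Prop :=
  (∀ a, f a ≠ 0 → a ∈ A ∧ bl a.2 = i ∧ Joined act (Ai bl A i) q a.1) ∧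
    (∀ s ∈ Sin, sq act f s.1 (L.ini s.2) (L.lab s.2) (L.ter s.2) = 0) ∧
    ¬ ∃ g : Ω → ℚ, ∀ a ∈ A, bl a.2 = i → Joined act (Ai bl A i) q a.1 →
      f a = g (act a.2 a.1) - g a.1

/-- the homomorphism from the group of a block -/
noncomputable def blkHom (L : LOG V E) (bl : V → I) (i : I) : (L.blk bl i).G →* L.G :=
  PresentedGroup.toGroup (f := fun v => L.gen v.1) (by
    rintro _ ⟨e, rfl⟩
    have h := gen_rel L e.1
    simp only [LOG.rel, map_mul, map_inv, FreeGroup.lift_apply_of]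
    rw [mul_inv_eq_one, mul_inv_eq_iff_eq_mul]
    exact h)

theorem blkHom_gen (L : LOG V E) (bl : V → I) (i : I) (v : {v : V // bl v = i}) :
    blkHom L bl i ((L.blk bl i).gen v) = L.gen v.1 := by
  exact PresentedGroup.toGroup.of _

theorem dichotomy (hT : S_THICK) (L : LOG V E) (bl : V → I) (act : V → Equiv.Perm Ω)
    (A : Finset (Ω × V)) (Sin : Finset (Ω × E)) (hin : ∀ s ∈ Sin, Inner L bl s.2 ∧ SqS L act A s)
    (i : I) (hloc : LocInd (L.blk bl i).G) (q : Ω) :
    CDev L bl act A i q ∨ ∃ f, CCoc L bl act A Sin i q f := by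
  obtain ⟨τ, hτ⟩ | ⟨f, hf1, hf2, hf3⟩ := hT _ hloc V Ω act
    (fun x => if h : bl x = i then (L.blk bl i).gen ⟨x, h⟩ else 1) (Ai bl A i) q
  · refine Or.inl ⟨fun p => blkHom L bl i (τ p), fun a ha hb hj => ?_⟩
    have h := hτ a (mem_Ai.2 ⟨ha, hb⟩) hj
    rw [dif_pos hb] at h
    beta_reduce
    rw [h, map_mul, blkHom_gen]
  · refine Or.inr ⟨f, fun a ha => ?_, ?_, ?_⟩
    · obtain ⟨h1, h2⟩ := hf1 a ha
      exact ⟨(mem_Ai.1 h1).1, (mem_Ai.1 h1).2, h2⟩
    · intro s hs
      obtain ⟨⟨hi1, hi2⟩, hcl, hA1, hA2, hA3, hA4⟩ := hin s hs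
      by_cases hb : bl (L.lab s.2) = i
      · apply hf2
        · exact ⟨hcl, mem_Ai.2 ⟨hA1, hi1.trans hb⟩, mem_Ai.2 ⟨hA2, hb⟩,
            mem_Ai.2 ⟨hA3, hi2.trans hb⟩, mem_Ai.2 ⟨hA4, hb⟩⟩
        · rw [dif_pos (hi1.trans hb), dif_pos hb, dif_pos (hi2.trans hb)]
          exact gen_rel (L.blk bl i) ⟨s.2, hi1.trans hb, hi2.trans hb, hb⟩
      · have h0 : ∀ p x, bl x = bl (L.lab s.2) → f (p, x) = 0 := by
          intro p x hx
          by_contra hne
          exact hb (hx.symm.trans (mem_Ai.1 (hf1 _ hne).1).2)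
        unfold sq
        rw [h0 _ _ hi1, h0 _ _ rfl, h0 _ _ hi2, h0 _ _ rfl]
        simp
    · rintro ⟨g, hg⟩
      exact hf3 ⟨g, fun a ha hj => hg a (mem_Ai.1 ha).1 (mem_Ai.1 ha).2 hj⟩

theorem joined_out (bl : V → I) (act : V → Equiv.Perm Ω) (A : Finset (Ω × V)) (i : I) (p : Ω) :
    Joined act (Ai bl A i) (Quotient.out (Quotient.mk (st bl act A i) p)) p :=
  Quotient.mk_out (s := st bl act A i) p

theorem mk_act {bl : V → I} {act : V → Equiv.Perm Ω} {A : Finset (Ω × V)} {a : Ω × V}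
    (ha : a ∈ A) : Quotient.mk (st bl act A (bl a.2)) (act a.2 a.1) =
      Quotient.mk (st bl act A (bl a.2)) a.1 := by
  apply Quotient.sound
  exact Relation.EqvGen.symm _ _ (Relation.EqvGen.rel _ _ ⟨a.2, mem_Ai.2 ⟨ha, rfl⟩, rfl⟩)

/-- all components developable: the case without incidences -/
theorem dev_empty {L : LOG V E} {bl : V → I} {act : V → Equiv.Perm Ω} {A : Finset (Ω × V)}
    (h : ∀ i q, CDev L bl act A i q) : Dev L bl act A ∅ := by
  choose τ hτ using h
  refine ⟨fun _ => 1, fun i p => τ i (Quotient.out (Quotient.mk (st bl act A i) p)) p, ?_, ?_⟩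
  · intro a ha
    beta_reduce
    rw [mk_act ha]
    exact hτ _ _ a ha rfl (joined_out bl act A (bl a.2) a.1)
  · intro a ha
    exact absurd ha (Finset.notMem_empty a)

/-- the component of the end `x` of the square `s` contains the next position -/
theorem nxt (L : LOG V E) (bl : V → I) (act : V → Equiv.Perm Ω) (A : Finset (Ω × V)) (s : Ω × E)
    (hs : SqS L act A s) (x : Fin 4 × Bool) (hx : slotS x.1 x.2 = true) :
    ∃ (x' : Fin 4 × Bool) (v : V), (pos L act s x.1, v) ∈ A ∧ bl v = sb L bl s x.1 x.2 ∧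
      act v (pos L act s x.1) = pos L act s x'.1 ∧ sb L bl s x'.1 x'.2 = sb L bl s x.1 x.2 := by
  obtain ⟨hcl, hA1, hA2, hA3, hA4⟩ := hs
  have hcases : x = (0, false) ∨ x = (0, true) ∨ x = (1, true) ∨ x = (2, false) := by
    revert hx x; decide
  rcases hcases with rfl | rfl | rfl | rfl
  · exact ⟨(1, false), L.ini s.2, hA1, rfl, rfl, rfl⟩
  · exact ⟨(2, true), L.lab s.2, hA4, rfl, rfl, rfl⟩
  · exact ⟨(3, true), L.lab s.2, hA2, rfl, rfl, rfl⟩
  · exact ⟨(3, false), L.ter s.2, hA3, rfl, hcl.symm, rfl⟩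

theorem prv (L : LOG V E) (bl : V → I) (act : V → Equiv.Perm Ω) (A : Finset (Ω × V)) (s : Ω × E)
    (hs : SqS L act A s) (x : Fin 4 × Bool) (hx : slotS x.1 x.2 = false) :
    ∃ (x' : Fin 4 × Bool) (v : V), (pos L act s x'.1, v) ∈ A ∧ bl v = sb L bl s x.1 x.2 ∧
      act v (pos L act s x'.1) = pos L act s x.1 ∧ sb L bl s x'.1 x'.2 = sb L bl s x.1 x.2 := by
  obtain ⟨hcl, hA1, hA2, hA3, hA4⟩ := hs
  have hcases : x = (1, false) ∨ x = (2, true) ∨ x = (3, true) ∨ x = (3, false) := by
    revert hx x; decide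
  rcases hcases with rfl | rfl | rfl | rfl
  · exact ⟨(0, false), L.ini s.2, hA1, rfl, rfl, rfl⟩
  · exact ⟨(0, true), L.lab s.2, hA4, rfl, rfl, rfl⟩
  · exact ⟨(1, true), L.lab s.2, hA2, rfl, rfl, rfl⟩
  · exact ⟨(2, false), L.ter s.2, hA3, rfl, hcl.symm, rfl⟩

/-- the height homomorphism -/
noncomputable def height (L : LOG V E) : L.G →* Multiplicative ℤ :=
  PresentedGroup.toGroup (f := fun _ => Multiplicative.ofAdd 1) (by
    rintro _ ⟨e, rfl⟩
    simp only [LOG.rel, map_mul, map_inv, FreeGroup.lift_apply_of]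
    group)

theorem height_gen (L : LOG V E) (v : V) : height L (L.gen v) = Multiplicative.ofAdd 1 := by
  exact PresentedGroup.toGroup.of _

theorem exists_height {L : LOG V E} {bl : V → I} {act : V → Equiv.Perm Ω} {A : Finset (Ω × V)}
    {i : I} {q : Ω} (h : CDev L bl act A i q) :
    ∃ ht : Ω → ℤ, ∀ a ∈ A, bl a.2 = i → Joined act (Ai bl A i) q a.1 →
      ht (act a.2 a.1) = ht a.1 + 1 := by
  obtain ⟨τ, hτ⟩ := h
  refine ⟨fun p => Multiplicative.toAdd (height L (τ p)), fun a ha hb hj => ?_⟩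
  beta_reduce
  rw [hτ a ha hb hj, map_mul, height_gen, toAdd_mul]
  rfl

/-- the height of the positions increases along the sides: the same for a class -/
theorem exists_extreme {L : LOG V E} {bl : V → I} {act : V → Equiv.Perm Ω} {A : Finset (Ω × V)}
    {Inc : Finset (Ω × I)} {S : Finset (Ω × E)} (hsq : ∀ s ∈ S, SqS L act A s)
    (hslot : ∀ s ∈ S, ∀ x, slot L bl act s x ∈ Inc) (c : Comp bl act A)
    (hc : CDev L bl act A c.1 (Quotient.out c.2)) (hne : ∃ a ∈ Inc, cmp bl act A a = c)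
    (d : Bool) :
    ∃ a ∈ Inc, cmp bl act A a = c ∧
      ∀ s ∈ S, ∀ x : Fin 4 × Bool, ¬ (slot L bl act s x = a ∧ slotS x.1 x.2 = d) := by
  obtain ⟨ht, hh⟩ := exists_height hc
  have hcls : ∀ p, cmp bl act A (p, c.1) = c → Joined act (Ai bl A c.1) (Quotient.out c.2) p := by
    intro p hp
    obtain ⟨i, c⟩ := c
    have h2 : Quotient.mk (st bl act A i) p = c := by
      have := (Sigma.mk.inj_iff.1 hp).2
      exact eq_of_heq this
    subst h2
    exact joined_out bl act A i p
  have hmem : ∀ s x, (cmp bl act A (slot L bl act s x) = c) → sb L bl s x.1 x.2 = c.1 := by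
    intro s x h
    exact (congrArg Sigma.fst h)
  -- the choice of the extreme element
  set T := Inc.filter fun a => cmp bl act A a = c with hT
  have hTne : T.Nonempty := by
    obtain ⟨a, ha, hac⟩ := hne
    exact ⟨a, Finset.mem_filter.2 ⟨ha, hac⟩⟩
  cases d with
  | true =>
    obtain ⟨a, haT, hmax⟩ := T.exists_max_image (fun a => ht a.1) hTne
    obtain ⟨haI, hac⟩ := Finset.mem_filter.1 haT
    refine ⟨a, haI, hac, ?_⟩
    rintro s hs x ⟨hx1, hx2⟩
    obtain ⟨x', v, h1, h2, h3, h4⟩ := nxt L bl act A s (hsq s hs) x hx2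
    have hac' : cmp bl act A (slot L bl act s x) = c := by rw [hx1]; exact hac
    have hb : bl v = c.1 := h2.trans (hmem s x hac')
    have hj : Joined act (Ai bl A c.1) (Quotient.out c.2) (pos L act s x.1) := by
      apply hcls
      rw [← hmem s x hac']
      exact hac'
    have h5 := hh _ h1 hb hj
    have h6 : slot L bl act s x' ∈ T := by
      refine Finset.mem_filter.2 ⟨hslot s hs x', ?_⟩
      have h7 : slot L bl act s x' = (act v (pos L act s x.1), bl v) := by
        unfold slot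
        rw [h3, h4, h2]
      rw [h7]
      have h8 : cmp bl act A (act v (pos L act s x.1), bl v) =
          cmp bl act A (pos L act s x.1, bl v) := by
        unfold cmp
        exact congrArg _ (mk_act (bl := bl) (act := act) h1)
      rw [h8, h2]
      exact hac'
    have h9 := hmax _ h6
    have h10 : a.1 = pos L act s x.1 := by rw [← hx1]; rfl
    have h11 : (slot L bl act s x').1 = act v (pos L act s x.1) := h3.symm
    simp only [h11, h10] at h9
    simp only at h5
    omega
  | false =>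
    obtain ⟨a, haT, hmax⟩ := T.exists_min_image (fun a => ht a.1) hTne
    obtain ⟨haI, hac⟩ := Finset.mem_filter.1 haT
    refine ⟨a, haI, hac, ?_⟩
    rintro s hs x ⟨hx1, hx2⟩
    obtain ⟨x', v, h1, h2, h3, h4⟩ := prv L bl act A s (hsq s hs) x hx2
    have hac' : cmp bl act A (slot L bl act s x) = c := by rw [hx1]; exact hac
    have hb : bl v = c.1 := h2.trans (hmem s x hac')
    have h8 : cmp bl act A (act v (pos L act s x'.1), bl v) =
        cmp bl act A (pos L act s x'.1, bl v) := by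
      unfold cmp
      exact congrArg _ (mk_act (bl := bl) (act := act) h1)
    have h12 : cmp bl act A (pos L act s x'.1, bl v) = c := by
      rw [← h8, h3, h2]
      exact hac'
    have hj : Joined act (Ai bl A c.1) (Quotient.out c.2) (pos L act s x'.1) := by
      apply hcls
      rw [← hb]
      exact h12
    have h5 := hh _ h1 hb hj
    have h6 : slot L bl act s x' ∈ T := by
      refine Finset.mem_filter.2 ⟨hslot s hs x', ?_⟩
      have h7 : slot L bl act s x' = (pos L act s x'.1, bl v) := by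
        unfold slot
        rw [h4, h2]
      rw [h7]
      exact h12
    have h9 := hmax _ h6
    have h10 : a.1 = pos L act s x.1 := by rw [← hx1]; rfl
    have h11 : (slot L bl act s x').1 = pos L act s x'.1 := rfl
    simp only [h11, h10] at h9
    simp only at h5
    rw [h3] at h5
    omega

end Pool.Agent.H10.Inj.Rel
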