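import Pool.Agent.H10.Inj.Rel2

/-!
# The relative theorem: the main induction
-/

set_option autoImplicit false

namespace Pool.Agent.H10.Inj.Rel

open Classical

variable {V E I Ω : Type}

/-- the number of ends with the incidence `a` -/
noncomputable def uses (L : LOG V E) (bl : V → I) (act : V → Equiv.Perm Ω) (S : Finset (Ω × E))
    (a : Ω × I) : ℕ :=
  ((S ×ˢ (Finset.univ : Finset (Fin 4 × Bool))).filter fun x => slot L bl act x.1 x.2 = a).card

theorem pos_inj (L : LOG V E) (act : V → Equiv.Perm Ω) (s s' : Ω × E) (he : s.2 = s'.2)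
    (j : Fin 4) (h : pos L act s j = pos L act s' j) : s = s' := by
  obtain ⟨p, e⟩ := s
  obtain ⟨p', e'⟩ := s'
  simp only at he
  subst he
  have hp : p = p' := by
    have hcases : ∀ j : Fin 4, j = 0 ∨ j = 1 ∨ j = 2 ∨ j = 3 := by decide
    rcases hcases j with rfl | rfl | rfl | rfl
    · exact h
    · exact (act (L.ini e)).injective h
    · exact (act (L.lab e)).injective h
    · exact (act (L.ini e)).injective ((act (L.lab e)).injective h)
  rw [hp]

theorem contra (hLIN : S_LIN) (hCOUNT : S_COUNT) {L : LOG V E} {bl : V → I} {ε : I → Bool}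
    (hS : Signed L bl ε) {act : V → Equiv.Perm Ω} {A : Finset (Ω × V)} {Sin : Finset (Ω × E)}
    (hdich : ∀ i q, CDev L bl act A i q ∨ ∃ f, CCoc L bl act A Sin i q f)
    {Inc : Finset (Ω × I)} {S : Finset (Ω × E)} (hout : ∀ s ∈ S, Outer L bl s.2 ∧ SqS L act A s)
    (hslot : ∀ s ∈ S, ∀ x, slot L bl act s x ∈ Inc) (h1 : H1 L bl act A Sin Inc S)
    (hne : Inc.Nonempty) (huse : ∀ a ∈ Inc, 2 ≤ uses L bl act S a) : False := by
  set cp : Ω × I → Comp bl act A := cmp bl act A with hcp
  set CF := Inc.image cp with hCF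
  set DF := CF.filter fun c => CDev L bl act A c.1 (Quotient.out c.2) with hDF
  set NF := CF.filter fun c => ¬ CDev L bl act A c.1 (Quotient.out c.2) with hNF
  have hcard : DF.card + NF.card = CF.card := Finset.card_filter_add_card_filter_not _
  -- extreme incidences
  have hext : ∀ (d : Bool) (c : Comp bl act A), c ∈ DF → ∃ a ∈ Inc, cp a = c ∧
      ∀ s ∈ S, ∀ x : Fin 4 × Bool, ¬ (slot L bl act s x = a ∧ slotS x.1 x.2 = d) := by
    intro d c hc
    obtain ⟨hc1, hc2⟩ := Finset.mem_filter.1 hc
    obtain ⟨a, ha, hac⟩ := Finset.mem_image.1 hc1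
    exact exists_extreme (fun s hs => (hout s hs).2) hslot c hc2 ⟨a, ha, hac⟩ d
  have : Nonempty (Ω × I) := ⟨hne.choose⟩
  choose! ex hex1 hex2 hex3 using hext
  set M : Finset ((Ω × I) × Bool) := (DF ×ˢ (Finset.univ : Finset Bool)).image
    (fun y => (ex y.2 y.1, y.2)) with hM
  have hMcard : M.card = 2 * DF.card := by
    rw [hM, Finset.card_image_of_injOn, Finset.card_product, Finset.card_univ, Fintype.card_bool,
      mul_comm]
    rintro ⟨c, d⟩ h ⟨c', d'⟩ h' heq
    simp only [Prod.mk.injEq] at heq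
    obtain ⟨h5, h6⟩ := heq
    subst h6
    have h7 := (Finset.mem_product.1 (Finset.mem_coe.1 h)).1
    have h8 := (Finset.mem_product.1 (Finset.mem_coe.1 h')).1
    simp only at h7 h8
    rw [← hex2 d c h7, ← hex2 d c' h8, h5]
  have hcount := hCOUNT Ω I (Ω × E) E S Prod.snd (pos L act) (fun e => bl (L.lab e))
    (fun e => bl (L.ini e)) (fun e => bl (L.ter e)) ε Inc M
    (fun s _ s' _ he j hj => pos_inj L act s s' he j hj)
    (fun s hs => (hout s hs).1) (fun s hs j t => hslot s hs (j, t)) (fun a ha => huse a ha)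
    (by
      intro b B D hB hD
      refine hS.forest b B D hB (fun e he => ?_)
      obtain ⟨⟨s, hs, hse⟩, h5, h6⟩ := hD e he
      subst hse
      exact ⟨(hout s hs).1, h5, h6⟩)
    (by
      intro m hm
      obtain ⟨⟨c, d⟩, hy, rfl⟩ := Finset.mem_image.1 hm
      have h7 := (Finset.mem_product.1 hy).1
      exact ⟨hex1 d c h7, fun s hs j t => hex3 d c h7 s hs (j, t)⟩)
  rw [hMcard] at hcount
  -- the cocycles of the other components
  have hcoc : ∀ c ∈ NF, ∃ f, CCoc L bl act A Sin c.1 (Quotient.out c.2) f := by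
    intro c hc
    exact (hdich c.1 (Quotient.out c.2)).resolve_left (Finset.mem_filter.1 hc).2
  choose! fC hfC using hcoc
  have hsup : ∀ (c c' : Comp bl act A) (a : Ω × V), c ∈ NF → c' ∈ NF → fC c' a ≠ 0 →
      bl a.2 = c.1 → Joined act (Ai bl A c.1) (Quotient.out c.2) a.1 → c' = c := by
    intro c c' a hc hc' hne' hb hj
    obtain ⟨h5, h6, h7⟩ := (hfC c' hc').1 a hne'
    obtain ⟨i, c⟩ := c
    obtain ⟨i', c'⟩ := c'
    simp only at hb h6 h7 hj
    have hii : i' = i := h6.symm.trans hb
    subst hii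
    have h8 : Quotient.mk (st bl act A i') (Quotient.out c) =
      Quotient.mk (st bl act A i') a.1 := Quotient.sound hj
    have h9 : Quotient.mk (st bl act A i') (Quotient.out c') =
      Quotient.mk (st bl act A i') a.1 := Quotient.sound h7
    rw [Quotient.out_eq] at h8 h9
    rw [h8, h9]
  let F : (NF → ℚ) → Ω × V → ℚ := fun t a => ∑ c : NF, t c * fC c.1 a
  have hFadd : ∀ t t' a, F (t + t') a = F t a + F t' a := by
    intro t t' a
    simp only [F, Pi.add_apply, add_mul, Finset.sum_add_distrib]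
  have hFsmul : ∀ (r : ℚ) t a, F (r • t) a = r * F t a := by
    intro r t a
    simp only [F, Pi.smul_apply, smul_eq_mul, mul_assoc, Finset.mul_sum]
  let Φ : ((Inc → ℚ) × (NF → ℚ)) →ₗ[ℚ] (S → ℚ) :=
    { toFun := fun v s => sq act (F v.2) s.1.1 (L.ini s.1.2) (L.lab s.1.2) (L.ter s.1.2) +
        ∑ x, sgn x * v.1 ⟨slot L bl act s.1 x, hslot s.1 s.2 x⟩
      map_add' := by
        intro v w
        funext s
        simp only [sq, Prod.snd_add, Prod.fst_add, hFadd, Pi.add_apply, mul_add,
          Finset.sum_add_distrib]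
        ring
      map_smul' := by
        intro r v
        funext s
        simp only [sq, Prod.smul_snd, Prod.smul_fst, hFsmul, Pi.smul_apply, smul_eq_mul,
          RingHom.id_apply, mul_add, Finset.mul_sum]
        congr 1
        · ring
        · exact Finset.sum_congr rfl (fun x _ => by ring) }
  have hP : (Inc.image Prod.fst).Nonempty := hne.image _
  have hlin := hLIN Inc (Inc.image Prod.fst) CF NF S
    (fun a => ⟨a.1.1, Finset.mem_image_of_mem _ a.2⟩)
    (fun a => ⟨cp a.1, Finset.mem_image_of_mem _ a.2⟩) Φ (by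
      obtain ⟨p, hp⟩ := hP
      exact ⟨⟨p, hp⟩⟩) (by
      intro v hv
      obtain ⟨gP, g, hg1, hg2⟩ := h1 (F v.2)
        (fun a => if h : a ∈ Inc then v.1 ⟨a, h⟩ else 0) (by
          intro s hs
          have h5 : ∀ c : NF, sq act (fC c.1) s.1 (L.ini s.2) (L.lab s.2) (L.ter s.2) = 0 :=
            fun c => (hfC c.1 c.2).2.1 s hs
          have h6 : sq act (F v.2) s.1 (L.ini s.2) (L.lab s.2) (L.ter s.2) =
              ∑ c : NF, v.2 c * sq act (fC c.1) s.1 (L.ini s.2) (L.lab s.2) (L.ter s.2) := by
            simp only [sq, F, mul_add, mul_sub, Finset.sum_add_distrib, Finset.sum_sub_distrib]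
          rw [h6]
          exact Finset.sum_eq_zero (fun c _ => by rw [h5 c, mul_zero])) (by
          intro s hs
          have h5 := congrFun hv ⟨s, hs⟩
          simp only [Pi.zero_apply] at h5
          unfold coc
          refine Eq.trans ?_ h5
          show _ = sq act (F v.2) s.1 (L.ini s.2) (L.lab s.2) (L.ter s.2) +
            ∑ x, sgn x * v.1 ⟨slot L bl act s x, hslot s hs x⟩
          congr 1
          apply Finset.sum_congr rfl
          intro x _
          beta_reduce
          rw [dif_pos (hslot s hs x)])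
      have hFc : ∀ (c : NF) (a : Ω × V), bl a.2 = c.1.1 →
          Joined act (Ai bl A c.1.1) (Quotient.out c.1.2) a.1 → F v.2 a = v.2 c * fC c.1 a := by
        intro c a hb hj
        refine Finset.sum_eq_single c (fun c' _ hc' => ?_) (fun h => absurd (Finset.mem_univ _) h)
        by_contra hne'
        have h6 : fC c'.1 a ≠ 0 := fun h => hne' (by rw [h, mul_zero])
        exact hc' (Subtype.ext (hsup c.1 c'.1 a c.2 c'.2 h6 hb hj))
      have ht0 : v.2 = 0 := by
        funext c
        by_contra hct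
        have hct' : v.2 c ≠ 0 := hct
        apply (hfC c.1 c.2).2.2
        refine ⟨fun q => g c.1.1 q / v.2 c, fun a ha hb hj => ?_⟩
        have h6 := hg1 a ha
        rw [hFc c a hb hj, hb] at h6
        rw [← sub_div, ← h6]
        field_simp
      refine ⟨ht0, fun p => gP p.1, fun c => g c.1.1 (Quotient.out c.1.2), fun a => ?_⟩
      have h6 := hg2 a.1 a.2
      rw [dif_pos a.2] at h6
      have h7 : ∀ a ∈ A, g (bl a.2) (act a.2 a.1) = g (bl a.2) a.1 := by
        intro a ha
        have h8 := hg1 a ha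
        have h9 : F v.2 a = 0 := by
          simp only [F, ht0, Pi.zero_apply, zero_mul, Finset.sum_const_zero]
        rw [h9] at h8
        linarith
      have h10 : ∀ (i : I) (p q : Ω), Joined act (Ai bl A i) p q → g i p = g i q := by
        intro i p q h
        induction h with
        | rel x y hxy =>
          obtain ⟨z, hz, rfl⟩ := hxy
          obtain ⟨hz1, hz2⟩ := mem_Ai.1 hz
          have := h7 (x, z) hz1
          simp only at this hz2
          rw [hz2] at this
          exact this.symm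
        | refl x => rfl
        | symm x y _ ih => exact ih.symm
        | trans x y z _ _ ih1 ih2 => exact ih1.trans ih2
      have h11 : g a.1.2 (Quotient.out (Quotient.mk (st bl act A a.1.2) a.1.1)) = g a.1.2 a.1.1 :=
        h10 _ _ _ (joined_out bl act A a.1.2 a.1.1)
      show v.1 a = g a.1.2 (Quotient.out (Quotient.mk (st bl act A a.1.2) a.1.1)) - gP a.1.1
      rw [h11]
      exact h6)
  simp only [Fintype.card_coe] at hlin
  omega

theorem main_dev (hLIN : S_LIN) (hCOUNT : S_COUNT) {L : LOG V E} {bl : V → I} {ε : I → Bool}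
    (hS : Signed L bl ε) {act : V → Equiv.Perm Ω} {A : Finset (Ω × V)} {Sin : Finset (Ω × E)}
    (hdich : ∀ i q, CDev L bl act A i q ∨ ∃ f, CCoc L bl act A Sin i q f) (n : ℕ) :
    ∀ (Inc : Finset (Ω × I)) (S : Finset (Ω × E)), Inc.card = n →
      (∀ s ∈ S, Outer L bl s.2 ∧ SqS L act A s) →
      (∀ s ∈ S, ∀ x, slot L bl act s x ∈ Inc) → H1 L bl act A Sin Inc S →
      Dev L bl act A Inc := by
  induction n with
  | zero =>
    intro Inc S hn hout hslot h1
    have hI : Inc = ∅ := Finset.card_eq_zero.1 hn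
    subst hI
    apply dev_empty
    intro i q
    refine (hdich i q).resolve_right ?_
    rintro ⟨f, hf1, hf2, hf3⟩
    have hS0 : ∀ s ∈ S, False := fun s hs => absurd (hslot s hs (0, true)) (Finset.notMem_empty _)
    obtain ⟨gP, g, hg1, hg2⟩ := h1 f (fun _ => 0) hf2 (fun s hs => (hS0 s hs).elim)
    refine hf3 ⟨g i, fun a ha hb hj => ?_⟩
    have := hg1 a ha
    rwa [hb] at this
  | succ n ih =>
    intro Inc S hn hout hslot h1
    by_cases hA : ∃ a ∈ Inc, uses L bl act S a = 0
    · obtain ⟨a, ha, hu⟩ := hA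
      have hu' : ∀ s ∈ S, ∀ x, slot L bl act s x ≠ a := by
        intro s hs x h
        have h5 := Finset.card_eq_zero.1 hu
        have h6 : (s, x) ∈ ((S ×ˢ (Finset.univ : Finset (Fin 4 × Bool))).filter fun x =>
          slot L bl act x.1 x.2 = a) :=
          Finset.mem_filter.2 ⟨Finset.mem_product.2 ⟨hs, Finset.mem_univ _⟩, h⟩
        rw [h5] at h6
        exact Finset.notMem_empty _ h6
      apply dev_unused h1 a ha hu'
      apply ih _ S
      · rw [Finset.card_erase_of_mem ha, hn]; rfl
      · exact hout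
      · intro s hs x
        exact Finset.mem_erase.2 ⟨hu' s hs x, hslot s hs x⟩
      · exact h1_mono h1 (Finset.erase_subset _ _)
    by_cases hB : ∃ a ∈ Inc, uses L bl act S a = 1
    · obtain ⟨a, ha, hu⟩ := hB
      obtain ⟨⟨s₀, x₀⟩, h5⟩ := Finset.card_eq_one.1 hu
      have h6 : (s₀, x₀) ∈ ((S ×ˢ (Finset.univ : Finset (Fin 4 × Bool))).filter fun x =>
          slot L bl act x.1 x.2 = a) := by rw [h5]; exact Finset.mem_singleton_self _
      obtain ⟨h7, hx₀⟩ := Finset.mem_filter.1 h6
      have hs₀ := (Finset.mem_product.1 h7).1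
      simp only at hs₀ hx₀
      have hu' : ∀ s ∈ S, ∀ x, slot L bl act s x = a → s = s₀ ∧ x = x₀ := by
        intro s hs x h
        have h8 : (s, x) ∈ ((S ×ˢ (Finset.univ : Finset (Fin 4 × Bool))).filter fun x =>
          slot L bl act x.1 x.2 = a) :=
          Finset.mem_filter.2 ⟨Finset.mem_product.2 ⟨hs, Finset.mem_univ _⟩, h⟩
        rw [h5, Finset.mem_singleton] at h8
        exact ⟨congrArg Prod.fst h8, congrArg Prod.snd h8⟩
      apply dev_once a s₀ x₀ hx₀ (fun x hx => (hu' s₀ hs₀ x hx).2) (hout s₀ hs₀).2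
        (fun x => hslot s₀ hs₀ x)
      apply ih _ (S.erase s₀)
      · rw [Finset.card_erase_of_mem ha, hn]; rfl
      · intro s hs
        exact hout s (Finset.mem_of_mem_erase hs)
      · intro s hs x
        refine Finset.mem_erase.2 ⟨fun h => ?_, hslot s (Finset.mem_of_mem_erase hs) x⟩
        exact (Finset.ne_of_mem_erase hs) (hu' s (Finset.mem_of_mem_erase hs) x h).1
      · exact h1_once h1 a s₀ x₀ hx₀ hu' hs₀
    exfalso
    push Not at hA hB
    refine contra hLIN hCOUNT hS hdich hout hslot h1 ?_ ?_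
    · rw [← Finset.card_pos, hn]; omega
    · intro a ha
      have h5 := hA a ha
      have h6 := hB a ha
      omega

/-- **The relative theorem.** -/
theorem main (hDATA : S_DATA) (hTHICK : S_THICK) (hLIN : S_LIN) (hCOUNT : S_COUNT) : S_REL := by
  intro V E I L bl ε hS hloc
  by_contra hcon
  obtain ⟨Ω, act, A, S, hsq, hH, hD⟩ := hDATA V E L hcon
  set Sin := S.filter fun s => Inner L bl s.2 with hSin
  set So := S.filter fun s => ¬ Inner L bl s.2 with hSo
  have hdich : ∀ i q, CDev L bl act A i q ∨ ∃ f, CCoc L bl act A Sin i q f := by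
    intro i q
    refine dichotomy hTHICK L bl act A Sin (fun s hs => ?_) i (hloc i) q
    obtain ⟨h1, h2⟩ := Finset.mem_filter.1 hs
    exact ⟨h2, hsq s h1⟩
  set Inc : Finset (Ω × I) := A.image (fun a => (a.1, bl a.2)) ∪
    A.image (fun a => (act a.2 a.1, bl a.2)) with hInc
  have hI1 : ∀ a ∈ A, (a.1, bl a.2) ∈ Inc := fun a ha =>
    Finset.mem_union_left _ (Finset.mem_image_of_mem (fun a : Ω × V => (a.1, bl a.2)) ha)
  have hI2 : ∀ a ∈ A, (act a.2 a.1, bl a.2) ∈ Inc := fun a ha =>
    Finset.mem_union_right _ (Finset.mem_image_of_mem (fun a : Ω × V => (act a.2 a.1, bl a.2)) ha)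
  have hout : ∀ s ∈ So, Outer L bl s.2 ∧ SqS L act A s := by
    intro s hs
    obtain ⟨h1, h2⟩ := Finset.mem_filter.1 hs
    exact ⟨(hS.types s.2).resolve_left h2, hsq s h1⟩
  have hcases : ∀ x : Fin 4 × Bool, x = (0, false) ∨ x = (0, true) ∨ x = (1, false) ∨
      x = (1, true) ∨ x = (2, false) ∨ x = (2, true) ∨ x = (3, false) ∨ x = (3, true) := by decide
  have hslot : ∀ s ∈ So, ∀ x, slot L bl act s x ∈ Inc := by
    intro s hs x
    obtain ⟨hcl, hA1, hA2, hA3, hA4⟩ := (hout s hs).2
    rcases hcases x with h | h | h | h | h | h | h | h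
    · subst h; exact hI1 _ hA1
    · subst h; exact hI1 _ hA4
    · subst h; exact hI2 _ hA1
    · subst h; exact hI1 _ hA2
    · subst h; exact hI1 _ hA3
    · subst h; exact hI2 _ hA4
    · subst h
      have := hI2 _ hA3
      simp only at this
      rw [← hcl] at this
      exact this
    · subst h; exact hI2 _ hA2
  have h8 : ∀ (F : Fin 4 × Bool → ℚ), ∑ x, sgn x * F x = F (0, false) - F (0, true) -
      F (1, false) + F (1, true) - F (2, false) + F (2, true) + F (3, false) - F (3, true) := by
    intro F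
    rw [Fintype.sum_prod_type]
    simp only [Fin.sum_univ_four, Fintype.sum_bool, sgn, if_true, Bool.false_eq_true, if_false,
      Matrix.cons_val_zero, Matrix.cons_val_one, Matrix.cons_val]
    ring
  have h1 : H1 L bl act A Sin Inc So := by
    intro f ψ hf hψ
    obtain ⟨g, hg⟩ := hH (fun a => f a + ψ (a.1, bl a.2) - ψ (act a.2 a.1, bl a.2)) (by
      intro s hs
      by_cases hi : Inner L bl s.2
      · have h5 := hf s (Finset.mem_filter.2 ⟨hs, hi⟩)
        obtain ⟨hi1, hi2⟩ := hi
        obtain ⟨hcl, -⟩ := hsq s hs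
        unfold sq at h5 ⊢
        simp only [hi1, hi2]
        rw [hcl]
        linarith
      · have h5 := hψ s (Finset.mem_filter.2 ⟨hs, hi⟩)
        unfold coc at h5
        rw [h8 (fun x => ψ (slot L bl act s x))] at h5
        obtain ⟨hcl, -⟩ := hsq s hs
        have g0g : (slot L bl act s (0, false)) = (s.1, bl (L.ini s.2)) := rfl
        have g0k : (slot L bl act s (0, true)) = (s.1, bl (L.lab s.2)) := rfl
        have g1g : (slot L bl act s (1, false)) = (act (L.ini s.2) s.1, bl (L.ini s.2)) := rfl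
        have g1k : (slot L bl act s (1, true)) = (act (L.ini s.2) s.1, bl (L.lab s.2)) := rfl
        have g2d : (slot L bl act s (2, false)) = (act (L.lab s.2) s.1, bl (L.ter s.2)) := rfl
        have g2k : (slot L bl act s (2, true)) = (act (L.lab s.2) s.1, bl (L.lab s.2)) := rfl
        have g3d : (slot L bl act s (3, false)) =
          (act (L.lab s.2) (act (L.ini s.2) s.1), bl (L.ter s.2)) := rfl
        have g3k : (slot L bl act s (3, true)) =
          (act (L.lab s.2) (act (L.ini s.2) s.1), bl (L.lab s.2)) := rfl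
        rw [g0g, g0k, g1g, g1k, g2d, g2k, g3d, g3k] at h5
        unfold sq at h5 ⊢
        simp only
        rw [← hcl]
        linarith)
    refine ⟨g, fun i p => g p + ψ (p, i), fun a ha => ?_, fun a _ => ?_⟩
    · have h5 := hg a ha
      beta_reduce
      linarith
    · beta_reduce
      ring
  obtain ⟨τP, τ, hτ, hi⟩ := main_dev hLIN hCOUNT hS hdich Inc.card Inc So rfl hout hslot h1
  refine hD ⟨τP, fun a ha => ?_⟩
  have h5 := hi _ (hI1 a ha)
  have h6 := hi _ (hI2 a ha)
  simp only at h5 h6
  rw [← h6, hτ a ha, h5]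

end Pool.Agent.H10.Inj.Rel
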